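import Mathlib

set_option autoImplicit false

namespace Pool.KN

/-- Orientation determinant of three points of the plane. -/
def br (a b c : ℝ × ℝ) : ℝ := (b.1 - a.1) * (c.2 - a.2) - (b.2 - a.2) * (c.1 - a.1)

/-- A labelled family of points in general position: no three (differently labelled) points are
collinear, and no three lines spanned by six differently labelled points are concurrent. -/
def Generic {α : Type*} (L : α → ℝ × ℝ) : Prop :=
  (∀ a b c : α, [a, b, c].Nodup → br (L a) (L b) (L c) ≠ 0) ∧
  (∀ a b c d e f : α, [a, b, c, d, e, f].Nodup →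
    br (L a) (L b) (L d) * br (L e) (L f) (L c) ≠ br (L a) (L b) (L c) * br (L e) (L f) (L d))

/-- `c` is strictly inside both triangles `x y p` and `x y q`
(all five orientation numbers have the same strict sign). -/
def Cert (c x y p q : ℝ × ℝ) : Prop :=
  (0 < br x y c ∧ 0 < br y p c ∧ 0 < br p x c ∧ 0 < br y q c ∧ 0 < br q x c) ∨
  (br x y c < 0 ∧ br y p c < 0 ∧ br p x c < 0 ∧ br y q c < 0 ∧ br q x c < 0)

/-- `B` misses the pair number `t` of the labelled family `lab`. -/
def Misses {M : ℕ} (lab : Fin M × Bool → ℝ × ℝ) (B : Set (ℝ × ℝ)) (t : Fin M) : Prop :=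
  lab (t, false) ∉ B ∧ lab (t, true) ∉ B

end Pool.KN
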