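import Pool.Agent.Helper89.KN.Defs

set_option autoImplicit false

namespace Pool.KN

/-- The determinant of the three lines `rs`, `pq`, `uv`. -/
def dd (r s p q u v : ℝ × ℝ) : ℝ := br r s p * br u v q - br r s q * br u v p

/-- The intersection point of the lines `pq` and `rs`. -/
noncomputable def crossPt (p q r s : ℝ × ℝ) : ℝ × ℝ :=
  ((br r s p * q.1 - br r s q * p.1) / (br r s p - br r s q),
   (br r s p * q.2 - br r s q * p.2) / (br r s p - br r s q))

theorem br_rot (a b c : ℝ × ℝ) : br b c a = br a b c := by unfold br; ring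
theorem br_swap (a b c : ℝ × ℝ) : br b a c = - br a b c := by unfold br; ring
theorem br_swap' (a b c : ℝ × ℝ) : br a c b = - br a b c := by unfold br; ring

theorem gp5 (a b c d e : ℝ × ℝ) :
    br a b c * br a d e - br a b d * br a c e + br a b e * br a c d = 0 := by
  unfold br; ring

theorem ac4 (a b c d : ℝ × ℝ) : br b c d - br a c d + br a b d - br a b c = 0 := by
  unfold br; ring

theorem br_crossPt (p q r s u v : ℝ × ℝ) (h : br r s p - br r s q ≠ 0) :
    br u v (crossPt p q r s) = dd r s p q u v / (br r s p - br r s q) := by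
  have h' : (br r s p * q.1 - br r s q * p.1) / (br r s p - br r s q) = (crossPt p q r s).1 := rfl
  have h'' : (br r s p * q.2 - br r s q * p.2) / (br r s p - br r s q) = (crossPt p q r s).2 := rfl
  rw [eq_div_iff h]
  have e1 : (crossPt p q r s).1 * (br r s p - br r s q) = br r s p * q.1 - br r s q * p.1 := by
    rw [← h']; field_simp
  have e2 : (crossPt p q r s).2 * (br r s p - br r s q) = br r s p * q.2 - br r s q * p.2 := by
    rw [← h'']; field_simp
  have : br u v (crossPt p q r s) * (br r s p - br r s q) =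
      (v.1 - u.1) * ((crossPt p q r s).2 * (br r s p - br r s q) - u.2 * (br r s p - br r s q)) -
      (v.2 - u.2) * ((crossPt p q r s).1 * (br r s p - br r s q) - u.1 * (br r s p - br r s q)) := by
    unfold br; ring
  rw [this, e1, e2]
  unfold dd br
  ring

/-- All five determinants positive gives a certificate. -/
theorem cert_cross_pos (p q r s x y a b : ℝ × ℝ) (h : br r s p * br r s q < 0)
    (h1 : 0 < dd r s p q x y) (h2 : 0 < dd r s p q y a) (h3 : 0 < dd r s p q a x)
    (h4 : 0 < dd r s p q y b) (h5 : 0 < dd r s p q b x) :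
    Cert (crossPt p q r s) x y a b := by
  rcases lt_or_gt_of_ne (show br r s p ≠ 0 by rintro h0; simp [h0] at h) with hp | hp
  · have hq : 0 < br r s q := by nlinarith
    have hlt : br r s p - br r s q < 0 := by linarith
    right
    simp only [br_crossPt _ _ _ _ _ _ hlt.ne]
    exact ⟨div_neg_of_pos_of_neg h1 hlt, div_neg_of_pos_of_neg h2 hlt,
      div_neg_of_pos_of_neg h3 hlt, div_neg_of_pos_of_neg h4 hlt, div_neg_of_pos_of_neg h5 hlt⟩
  · have hq : br r s q < 0 := by nlinarith
    have hgt : 0 < br r s p - br r s q := by linarith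
    left
    simp only [br_crossPt _ _ _ _ _ _ hgt.ne']
    exact ⟨div_pos h1 hgt, div_pos h2 hgt, div_pos h3 hgt, div_pos h4 hgt, div_pos h5 hgt⟩

/-- All five determinants negative gives a certificate. -/
theorem cert_cross_neg (p q r s x y a b : ℝ × ℝ) (h : br r s p * br r s q < 0)
    (h1 : dd r s p q x y < 0) (h2 : dd r s p q y a < 0) (h3 : dd r s p q a x < 0)
    (h4 : dd r s p q y b < 0) (h5 : dd r s p q b x < 0) :
    Cert (crossPt p q r s) x y a b := by
  rcases lt_or_gt_of_ne (show br r s p ≠ 0 by rintro h0; simp [h0] at h) with hp | hp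
  · have hq : 0 < br r s q := by nlinarith
    have hlt : br r s p - br r s q < 0 := by linarith
    left
    simp only [br_crossPt _ _ _ _ _ _ hlt.ne]
    exact ⟨div_pos_of_neg_of_neg h1 hlt, div_pos_of_neg_of_neg h2 hlt,
      div_pos_of_neg_of_neg h3 hlt, div_pos_of_neg_of_neg h4 hlt, div_pos_of_neg_of_neg h5 hlt⟩
  · have hq : br r s q < 0 := by nlinarith
    have hgt : 0 < br r s p - br r s q := by linarith
    right
    simp only [br_crossPt _ _ _ _ _ _ hgt.ne']
    exact ⟨div_neg_of_neg_of_pos h1 hgt, div_neg_of_neg_of_pos h2 hgt,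
      div_neg_of_neg_of_pos h3 hgt, div_neg_of_neg_of_pos h4 hgt, div_neg_of_neg_of_pos h5 hgt⟩

/-- Homogeneity of a labelled family of `12` pairs: the signs of all determinants of points
and of lines only depend on the order pattern of the indices. -/
def Hom (L : Fin 12 × Bool → ℝ × ℝ) : Prop :=
  ∀ u u' : Fin 6 → Fin 12, StrictMono u → StrictMono u' →
    (∀ x y z : Fin 6 × Bool,
      (0 < br (L (u x.1, x.2)) (L (u y.1, y.2)) (L (u z.1, z.2)) ↔
        0 < br (L (u' x.1, x.2)) (L (u' y.1, y.2)) (L (u' z.1, z.2)))) ∧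
    (∀ a b c d e f : Fin 6 × Bool,
      (0 < dd (L (u a.1, a.2)) (L (u b.1, b.2)) (L (u c.1, c.2)) (L (u d.1, d.2))
          (L (u e.1, e.2)) (L (u f.1, f.2)) ↔
        0 < dd (L (u' a.1, a.2)) (L (u' b.1, b.2)) (L (u' c.1, c.2)) (L (u' d.1, d.2))
          (L (u' e.1, e.2)) (L (u' f.1, f.2))))

/-- No certificate at all. -/
structure NoCert (L : Fin 12 × Bool → ℝ × ℝ) : Prop where
  line : ∀ p q : Fin 12 × Bool, ∀ i j : Fin 12, p ≠ q → i ≠ j → i ≠ p.1 → i ≠ q.1 → j ≠ p.1 → j ≠ q.1 →
    ¬ (0 < br (L p) (L q) (L (i, false)) ∧ 0 < br (L p) (L q) (L (i, true)) ∧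
       br (L p) (L q) (L (j, false)) < 0 ∧ br (L p) (L q) (L (j, true)) < 0)
  point : ∀ c : Fin 12 × Bool, ∀ e f s : Fin 12, ∀ x y : Bool, e ≠ f → e ≠ s → f ≠ s →
    e ≠ c.1 → f ≠ c.1 → s ≠ c.1 →
    ¬ Cert (L c) (L (e, x)) (L (f, y)) (L (s, false)) (L (s, true))
  cross : ∀ p q r t : Fin 12 × Bool, ∀ e f s : Fin 12, ∀ x y : Bool, [p, q, r, t].Nodup →
    [e, f, s].Nodup → (∀ i ∈ [e, f, s], ∀ l ∈ [p, q, r, t], i ≠ l.1) →
    br (L r) (L t) (L p) * br (L r) (L t) (L q) < 0 →
    ¬ Cert (crossPt (L p) (L q) (L r) (L t)) (L (e, x)) (L (f, y)) (L (s, false)) (L (s, true))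

end Pool.KN
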