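import Pool.Agent.Helper89.KN.Basic

set_option autoImplicit false

namespace Pool.KN

/-- The sign table of a homogeneous family of pairwise crossing segments (all the signs that
are forced once there is no certificate based at an endpoint), except for `PPP` and `QQQ`. -/
structure CB (L : Fin 12 × Bool → ℝ × ℝ) : Prop where
  a1 : ∀ i j : Fin 12, i < j → j ≤ 8 → br (L (i, false)) (L (i, true)) (L (j, false)) < 0
  a2 : ∀ i j : Fin 12, i < j → j ≤ 8 → 0 < br (L (i, false)) (L (i, true)) (L (j, true))
  a3 : ∀ i j : Fin 12, i < j → j ≤ 8 → 0 < br (L (i, false)) (L (j, false)) (L (j, true))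
  a4 : ∀ i j : Fin 12, i < j → j ≤ 8 → br (L (i, true)) (L (j, false)) (L (j, true)) < 0
  ppq : ∀ i j k : Fin 12, i < j → j < k → k ≤ 8 → 0 < br (L (i, false)) (L (j, false)) (L (k, true))
  pqp : ∀ i j k : Fin 12, i < j → j < k → k ≤ 8 → br (L (i, false)) (L (j, true)) (L (k, false)) < 0
  pqq : ∀ i j k : Fin 12, i < j → j < k → k ≤ 8 → 0 < br (L (i, false)) (L (j, true)) (L (k, true))
  qpp : ∀ i j k : Fin 12, i < j → j < k → k ≤ 8 → 0 < br (L (i, true)) (L (j, false)) (L (k, false))
  qpq : ∀ i j k : Fin 12, i < j → j < k → k ≤ 8 → br (L (i, true)) (L (j, false)) (L (k, true)) < 0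
  qqp : ∀ i j k : Fin 12, i < j → j < k → k ≤ 8 → 0 < br (L (i, true)) (L (j, true)) (L (k, false))

theorem dd_ne_zero {L : Fin 12 × Bool → ℝ × ℝ} (hg : Generic L) (r s p q u v : Fin 12 × Bool)
    (h : [r, s, p, q, u, v].Nodup) : dd (L r) (L s) (L p) (L q) (L u) (L v) ≠ 0 := by
  have := hg.2 r s p q u v h
  intro h0
  apply this
  unfold dd at h0
  linarith

theorem caseA (L : Fin 12 × Bool → ℝ × ℝ) (hg : Generic L) (hh : Hom L) (hn : NoCert L)
    (hc : CB L)
    (hp : ∀ i j k : Fin 12, i < j → j < k → k ≤ 8 →
      br (L (i, false)) (L (j, false)) (L (k, false)) < 0) : False := by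
  have hx0 : 0 < dd (L (3, false)) (L (3, true)) (L (1, false)) (L (4, false)) (L (0, false)) (L (5, false)) := by
    have e : dd (L (3, false)) (L (3, true)) (L (1, false)) (L (4, false)) (L (0, false)) (L (5, false)) = - (br (L (1, false)) (L (3, false)) (L (3, true))) * (br (L (0, false)) (L (4, false)) (L (5, false))) + (br (L (3, false)) (L (3, true)) (L (4, false))) * (br (L (0, false)) (L (1, false)) (L (5, false))) := by
      unfold dd br; ring
    have p0 := mul_neg_of_pos_of_neg (hc.a3 1 3 (by decide) (by decide)) (hp 0 4 5 (by decide) (by decide) (by decide))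
    have p1 := mul_pos_of_neg_of_neg (hc.a1 3 4 (by decide) (by decide)) (hp 0 1 5 (by decide) (by decide) (by decide))
    linarith
  have hx2 : 0 < dd (L (3, false)) (L (3, true)) (L (1, false)) (L (4, false)) (L (2, false)) (L (0, false)) := by
    have e : dd (L (3, false)) (L (3, true)) (L (1, false)) (L (4, false)) (L (2, false)) (L (0, false)) = (br (L (1, false)) (L (3, true)) (L (4, false))) * (br (L (0, false)) (L (2, false)) (L (3, false))) + - (br (L (1, false)) (L (3, false)) (L (4, false))) * (br (L (0, false)) (L (2, false)) (L (3, true))) := by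
      unfold dd br; ring
    have p0 := mul_pos_of_neg_of_neg (hc.pqp 1 3 4 (by decide) (by decide) (by decide)) (hp 0 2 3 (by decide) (by decide) (by decide))
    have p1 := mul_neg_of_neg_of_pos (hp 1 3 4 (by decide) (by decide) (by decide)) (hc.ppq 0 2 3 (by decide) (by decide) (by decide))
    linarith
  have hx3 : 0 < dd (L (3, false)) (L (3, true)) (L (1, false)) (L (4, false)) (L (5, false)) (L (2, true)) := by
    have e : dd (L (3, false)) (L (3, true)) (L (1, false)) (L (4, false)) (L (5, false)) (L (2, true)) = (br (L (1, false)) (L (3, false)) (L (3, true))) * (br (L (2, true)) (L (4, false)) (L (5, false))) + (br (L (3, false)) (L (3, true)) (L (4, false))) * (br (L (1, false)) (L (2, true)) (L (5, false))) := by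
      unfold dd br; ring
    have p0 := mul_pos (hc.a3 1 3 (by decide) (by decide)) (hc.qpp 2 4 5 (by decide) (by decide) (by decide))
    have p1 := mul_pos_of_neg_of_neg (hc.a1 3 4 (by decide) (by decide)) (hc.pqp 1 2 5 (by decide) (by decide) (by decide))
    linarith
  have hx4 : 0 < dd (L (3, false)) (L (3, true)) (L (1, false)) (L (4, false)) (L (2, true)) (L (0, false)) := by
    have e : dd (L (3, false)) (L (3, true)) (L (1, false)) (L (4, false)) (L (2, true)) (L (0, false)) = (br (L (1, false)) (L (3, true)) (L (4, false))) * (br (L (0, false)) (L (2, true)) (L (3, false))) + - (br (L (1, false)) (L (3, false)) (L (4, false))) * (br (L (0, false)) (L (2, true)) (L (3, true))) := by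
      unfold dd br; ring
    have p0 := mul_pos_of_neg_of_neg (hc.pqp 1 3 4 (by decide) (by decide) (by decide)) (hc.pqp 0 2 3 (by decide) (by decide) (by decide))
    have p1 := mul_neg_of_neg_of_pos (hp 1 3 4 (by decide) (by decide) (by decide)) (hc.pqq 0 2 3 (by decide) (by decide) (by decide))
    linarith
  have hy0 : 0 < dd (L (2, false)) (L (2, true)) (L (1, false)) (L (4, false)) (L (0, false)) (L (5, false)) := by
    have e : dd (L (2, false)) (L (2, true)) (L (1, false)) (L (4, false)) (L (0, false)) (L (5, false)) = - (br (L (1, false)) (L (2, false)) (L (2, true))) * (br (L (0, false)) (L (4, false)) (L (5, false))) + (br (L (2, false)) (L (2, true)) (L (4, false))) * (br (L (0, false)) (L (1, false)) (L (5, false))) := by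
      unfold dd br; ring
    have p0 := mul_neg_of_pos_of_neg (hc.a3 1 2 (by decide) (by decide)) (hp 0 4 5 (by decide) (by decide) (by decide))
    have p1 := mul_pos_of_neg_of_neg (hc.a1 2 4 (by decide) (by decide)) (hp 0 1 5 (by decide) (by decide) (by decide))
    linarith
  have hy1 : 0 < dd (L (2, false)) (L (2, true)) (L (1, false)) (L (4, false)) (L (5, false)) (L (3, false)) := by
    have e : dd (L (2, false)) (L (2, true)) (L (1, false)) (L (4, false)) (L (5, false)) (L (3, false)) = (br (L (1, false)) (L (2, true)) (L (4, false))) * (br (L (2, false)) (L (3, false)) (L (5, false))) + - (br (L (1, false)) (L (2, false)) (L (4, false))) * (br (L (2, true)) (L (3, false)) (L (5, false))) := by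
      unfold dd br; ring
    have p0 := mul_pos_of_neg_of_neg (hc.pqp 1 2 4 (by decide) (by decide) (by decide)) (hp 2 3 5 (by decide) (by decide) (by decide))
    have p1 := mul_neg_of_neg_of_pos (hp 1 2 4 (by decide) (by decide) (by decide)) (hc.qpp 2 3 5 (by decide) (by decide) (by decide))
    linarith
  have hy3 : 0 < dd (L (2, false)) (L (2, true)) (L (1, false)) (L (4, false)) (L (5, false)) (L (3, true)) := by
    have e : dd (L (2, false)) (L (2, true)) (L (1, false)) (L (4, false)) (L (5, false)) (L (3, true)) = (br (L (1, false)) (L (2, true)) (L (4, false))) * (br (L (2, false)) (L (3, true)) (L (5, false))) + - (br (L (1, false)) (L (2, false)) (L (4, false))) * (br (L (2, true)) (L (3, true)) (L (5, false))) := by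
      unfold dd br; ring
    have p0 := mul_pos_of_neg_of_neg (hc.pqp 1 2 4 (by decide) (by decide) (by decide)) (hc.pqp 2 3 5 (by decide) (by decide) (by decide))
    have p1 := mul_neg_of_neg_of_pos (hp 1 2 4 (by decide) (by decide) (by decide)) (hc.qqp 2 3 5 (by decide) (by decide) (by decide))
    linarith
  have hy4 : 0 < dd (L (2, false)) (L (2, true)) (L (1, false)) (L (4, false)) (L (3, true)) (L (0, false)) := by
    have e : dd (L (2, false)) (L (2, true)) (L (1, false)) (L (4, false)) (L (3, true)) (L (0, false)) = - (br (L (1, false)) (L (2, false)) (L (2, true))) * (br (L (0, false)) (L (3, true)) (L (4, false))) + - (br (L (2, false)) (L (2, true)) (L (4, false))) * (br (L (0, false)) (L (1, false)) (L (3, true))) := by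
      unfold dd br; ring
    have p0 := mul_neg_of_pos_of_neg (hc.a3 1 2 (by decide) (by decide)) (hc.pqp 0 3 4 (by decide) (by decide) (by decide))
    have p1 := mul_neg_of_neg_of_pos (hc.a1 2 4 (by decide) (by decide)) (hc.ppq 0 1 3 (by decide) (by decide) (by decide))
    linarith
  by_cases hD : 0 < dd (L (3, false)) (L (3, true)) (L (1, false)) (L (4, false)) (L (5, false)) (L (2, false))
  · refine hn.cross (1, false) (4, false) (3, false) (3, true) 0 5 2 false false (by decide) (by decide)
      (by decide) ?_ (cert_cross_pos _ _ _ _ _ _ _ _ ?_ hx0 hD hx2 hx3 hx4)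
    all_goals
      have h1 := hc.a3 1 3 (by decide) (by decide)
      have h2 := hc.a1 3 4 (by decide) (by decide)
      have e : br (L (3, false)) (L (3, true)) (L (1, false)) = br (L (1, false)) (L (3, false)) (L (3, true)) := by
        unfold br; ring
      rw [e]
      exact mul_neg_of_pos_of_neg h1 h2
  · have hm := (hh ![1, 2, 3, 4, 5, 11] ![0, 1, 2, 3, 4, 11] (by decide) (by decide)).2
      (2, false) (2, true) (0, false) (3, false) (4, false) (1, false)
    have hm' : (0 < dd (L (3, false)) (L (3, true)) (L (1, false)) (L (4, false)) (L (5, false)) (L (2, false)) ↔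
        0 < dd (L (2, false)) (L (2, true)) (L (0, false)) (L (3, false)) (L (4, false)) (L (1, false))) := hm
    rw [hm'] at hD
    have e : dd (L (2, false)) (L (2, true)) (L (0, false)) (L (3, false)) (L (4, false)) (L (1, false)) =
        - dd (L (2, false)) (L (2, true)) (L (1, false)) (L (4, false)) (L (3, false)) (L (0, false)) := by
      unfold dd br; ring
    have hne := dd_ne_zero hg (2, false) (2, true) (1, false) (4, false) (3, false) (0, false) (by decide)
    have hy2 : 0 < dd (L (2, false)) (L (2, true)) (L (1, false)) (L (4, false)) (L (3, false)) (L (0, false)) := by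
      rcases lt_or_gt_of_ne hne with h | h
      · exfalso; apply hD; rw [e]; linarith
      · exact h
    refine hn.cross (1, false) (4, false) (2, false) (2, true) 0 5 3 false false (by decide) (by decide)
      (by decide) ?_ (cert_cross_pos _ _ _ _ _ _ _ _ ?_ hy0 hy1 hy2 hy3 hy4)
    all_goals
      have h1 := hc.a3 1 2 (by decide) (by decide)
      have h2 := hc.a1 2 4 (by decide) (by decide)
      have e : br (L (2, false)) (L (2, true)) (L (1, false)) = br (L (1, false)) (L (2, false)) (L (2, true)) := by
        unfold br; ring
      rw [e]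
      exact mul_neg_of_pos_of_neg h1 h2

end Pool.KN
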