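import Pool.Agent.Helper89.KN.CaseA

set_option autoImplicit false

namespace Pool.KN

/-- Position of a label in the cyclic order `P₀,…,P₁₁,Q₀,…,Q₁₁`. -/
def pos (z : Fin 12 × Bool) : ℕ := z.1.val + (if z.2 then 12 else 0)

/-- Convex position (for the first nine pairs). -/
def Conv (L : Fin 12 × Bool → ℝ × ℝ) : Prop :=
  ∀ x y z : Fin 12 × Bool, x.1 ≤ 8 → y.1 ≤ 8 → z.1 ≤ 8 → pos x < pos y → pos y < pos z →
    0 < br (L x) (L y) (L z)

def X1 (L : Fin 12 × Bool → ℝ × ℝ) : Prop :=
  0 < dd (L (1, false)) (L (1, true)) (L (0, true)) (L (3, true)) (L (2, true)) (L (4, false))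

def X2 (L : Fin 12 × Bool → ℝ × ℝ) : Prop :=
  0 < dd (L (1, false)) (L (3, true)) (L (0, false)) (L (2, true)) (L (3, false)) (L (4, true))

def X3 (L : Fin 12 × Bool → ℝ × ℝ) : Prop :=
  0 < dd (L (1, false)) (L (3, true)) (L (0, false)) (L (2, true)) (L (2, false)) (L (4, true))

def X4 (L : Fin 12 × Bool → ℝ × ℝ) : Prop :=
  0 < dd (L (1, true)) (L (4, true)) (L (0, false)) (L (2, true)) (L (2, false)) (L (3, true))

def X5 (L : Fin 12 × Bool → ℝ × ℝ) : Prop :=
  0 < dd (L (1, true)) (L (4, true)) (L (0, false)) (L (2, true)) (L (3, false)) (L (3, true))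

def X6 (L : Fin 12 × Bool → ℝ × ℝ) : Prop :=
  0 < dd (L (1, true)) (L (2, false)) (L (0, true)) (L (3, true)) (L (2, true)) (L (4, false))

def X7 (L : Fin 12 × Bool → ℝ × ℝ) : Prop :=
  0 < dd (L (1, true)) (L (3, false)) (L (0, true)) (L (2, false)) (L (2, true)) (L (4, false))

def X8 (L : Fin 12 × Bool → ℝ × ℝ) : Prop :=
  0 < dd (L (1, true)) (L (3, false)) (L (0, true)) (L (1, false)) (L (2, true)) (L (4, false))

def X9 (L : Fin 12 × Bool → ℝ × ℝ) : Prop :=
  0 < dd (L (1, true)) (L (4, true)) (L (0, true)) (L (3, true)) (L (2, false)) (L (2, true))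

def X10 (L : Fin 12 × Bool → ℝ × ℝ) : Prop :=
  0 < dd (L (1, false)) (L (4, true)) (L (0, false)) (L (2, true)) (L (3, false)) (L (5, true))

def X11 (L : Fin 12 × Bool → ℝ × ℝ) : Prop :=
  0 < dd (L (1, false)) (L (4, true)) (L (0, false)) (L (3, true)) (L (2, false)) (L (5, true))

def X12 (L : Fin 12 × Bool → ℝ × ℝ) : Prop :=
  0 < dd (L (1, true)) (L (4, false)) (L (0, true)) (L (2, false)) (L (3, true)) (L (5, false))

def X13 (L : Fin 12 × Bool → ℝ × ℝ) : Prop :=
  0 < dd (L (1, true)) (L (4, false)) (L (0, true)) (L (3, false)) (L (2, true)) (L (5, false))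

def X14 (L : Fin 12 × Bool → ℝ × ℝ) : Prop :=
  0 < dd (L (1, true)) (L (4, false)) (L (0, true)) (L (3, true)) (L (2, true)) (L (5, false))

theorem lem_7_8 (L : Fin 12 × Bool → ℝ × ℝ) (hg : Generic L) (hh : Hom L) (hb : Conv L)
    (h7 : X7 L) (h8 : ¬ X8 L) :
    False := by
  have s0 : 0 < dd (L (1, true)) (L (3, false)) (L (0, true)) (L (2, false)) (L (2, true)) (L (4, false)) := ((hh ![0, 1, 2, 3, 4, 11] ![0, 1, 2, 3, 4, 11] (by decide) (by decide)).2 (1, true) (3, false) (0, true) (2, false) (2, true) (4, false)).2 h7
  have t0 : (br (L (2, false)) (L (0, true)) (L (1, true))) * (br (L (3, false)) (L (4, false)) (L (2, true))) < (br (L (2, false)) (L (3, false)) (L (0, true))) * (br (L (4, false)) (L (1, true)) (L (2, true))) := by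
    have e : dd (L (1, true)) (L (3, false)) (L (0, true)) (L (2, false)) (L (2, true)) (L (4, false)) = ((br (L (2, false)) (L (3, false)) (L (0, true))) * (br (L (4, false)) (L (1, true)) (L (2, true))) - (br (L (2, false)) (L (0, true)) (L (1, true))) * (br (L (3, false)) (L (4, false)) (L (2, true)))) := by unfold dd br; ring
    linarith
  have s1 : dd (L (1, true)) (L (3, false)) (L (0, true)) (L (1, false)) (L (2, true)) (L (4, false)) < 0 := by
    have hne := dd_ne_zero hg (1, true) (3, false) (0, true) (1, false) (2, true) (4, false) (by decide)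
    have hi : ¬ 0 < dd (L (1, true)) (L (3, false)) (L (0, true)) (L (1, false)) (L (2, true)) (L (4, false)) := fun h => h8 (((hh ![0, 1, 2, 3, 4, 11] ![0, 1, 2, 3, 4, 11] (by decide) (by decide)).2 (1, true) (3, false) (0, true) (1, false) (2, true) (4, false)).1 h)
    exact lt_of_le_of_ne (not_lt.1 hi) hne
  have t1 : (br (L (1, false)) (L (3, false)) (L (0, true))) * (br (L (4, false)) (L (1, true)) (L (2, true))) < (br (L (1, false)) (L (0, true)) (L (1, true))) * (br (L (3, false)) (L (4, false)) (L (2, true))) := by
    have e : dd (L (1, true)) (L (3, false)) (L (0, true)) (L (1, false)) (L (2, true)) (L (4, false)) = -((br (L (1, false)) (L (0, true)) (L (1, true))) * (br (L (3, false)) (L (4, false)) (L (2, true))) - (br (L (1, false)) (L (3, false)) (L (0, true))) * (br (L (4, false)) (L (1, true)) (L (2, true)))) := by unfold dd br; ring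
    linarith
  have t2 : (br (L (1, false)) (L (0, true)) (L (1, true))) * (br (L (2, false)) (L (3, false)) (L (0, true))) < (br (L (1, false)) (L (3, false)) (L (0, true))) * (br (L (2, false)) (L (0, true)) (L (1, true))) := by
    have e : (br (L (1, false)) (L (3, false)) (L (0, true))) * (br (L (2, false)) (L (0, true)) (L (1, true))) = (br (L (1, false)) (L (0, true)) (L (1, true))) * (br (L (2, false)) (L (3, false)) (L (0, true))) + (br (L (1, false)) (L (2, false)) (L (0, true))) * (br (L (3, false)) (L (0, true)) (L (1, true))) := by unfold br; ring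
    have p := mul_pos (hb (1, false) (2, false) (0, true) (by decide) (by decide) (by decide) (by decide) (by decide)) (hb (3, false) (0, true) (1, true) (by decide) (by decide) (by decide) (by decide) (by decide))
    linarith
  have q0 : 0 < br (L (2, false)) (L (0, true)) (L (1, true)) := (hb (2, false) (0, true) (1, true) (by decide) (by decide) (by decide) (by decide) (by decide))
  have q1 : 0 < br (L (3, false)) (L (4, false)) (L (2, true)) := (hb (3, false) (4, false) (2, true) (by decide) (by decide) (by decide) (by decide) (by decide))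
  have q2 : 0 < br (L (2, false)) (L (3, false)) (L (0, true)) := (hb (2, false) (3, false) (0, true) (by decide) (by decide) (by decide) (by decide) (by decide))
  have q3 : 0 < br (L (4, false)) (L (1, true)) (L (2, true)) := (hb (4, false) (1, true) (2, true) (by decide) (by decide) (by decide) (by decide) (by decide))
  have q4 : 0 < br (L (1, false)) (L (3, false)) (L (0, true)) := (hb (1, false) (3, false) (0, true) (by decide) (by decide) (by decide) (by decide) (by decide))
  have q5 : 0 < br (L (1, false)) (L (0, true)) (L (1, true)) := (hb (1, false) (0, true) (1, true) (by decide) (by decide) (by decide) (by decide) (by decide))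
  generalize br (L (2, false)) (L (0, true)) (L (1, true)) = z0 at *
  generalize br (L (3, false)) (L (4, false)) (L (2, true)) = z1 at *
  generalize br (L (2, false)) (L (3, false)) (L (0, true)) = z2 at *
  generalize br (L (4, false)) (L (1, true)) (L (2, true)) = z3 at *
  generalize br (L (1, false)) (L (3, false)) (L (0, true)) = z4 at *
  generalize br (L (1, false)) (L (0, true)) (L (1, true)) = z5 at *
  have m0 := mul_lt_mul'' t0 t1 (le_of_lt (mul_pos q0 q1)) (le_of_lt (mul_pos q4 q3))
  have m1 := mul_lt_mul'' m0 t2 (le_of_lt (mul_pos (mul_pos q0 q1) (mul_pos q4 q3))) (le_of_lt (mul_pos q5 q2))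
  refine absurd m1 (not_lt_of_ge (le_of_eq ?_))
  ring

theorem lem_8_12 (L : Fin 12 × Bool → ℝ × ℝ) (hg : Generic L) (hh : Hom L) (hb : Conv L)
    (h8 : X8 L) (h12 : ¬ X12 L) :
    False := by
  have s0 : dd (L (1, true)) (L (4, false)) (L (0, true)) (L (2, false)) (L (3, true)) (L (5, false)) < 0 := by
    have hne := dd_ne_zero hg (1, true) (4, false) (0, true) (2, false) (3, true) (5, false) (by decide)
    have hi : ¬ 0 < dd (L (1, true)) (L (4, false)) (L (0, true)) (L (2, false)) (L (3, true)) (L (5, false)) := fun h => h12 (((hh ![0, 1, 2, 3, 4, 5] ![0, 1, 2, 3, 4, 5] (by decide) (by decide)).2 (1, true) (4, false) (0, true) (2, false) (3, true) (5, false)).1 h)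
    exact lt_of_le_of_ne (not_lt.1 hi) hne
  have t0 : (br (L (2, false)) (L (4, false)) (L (1, true))) * (br (L (5, false)) (L (0, true)) (L (3, true))) < (br (L (4, false)) (L (0, true)) (L (1, true))) * (br (L (2, false)) (L (5, false)) (L (3, true))) := by
    have e : dd (L (1, true)) (L (4, false)) (L (0, true)) (L (2, false)) (L (3, true)) (L (5, false)) = -((br (L (4, false)) (L (0, true)) (L (1, true))) * (br (L (2, false)) (L (5, false)) (L (3, true))) - (br (L (2, false)) (L (4, false)) (L (1, true))) * (br (L (5, false)) (L (0, true)) (L (3, true)))) := by unfold dd br; ring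
    linarith
  have s1 : 0 < dd (L (2, true)) (L (4, false)) (L (0, true)) (L (2, false)) (L (3, true)) (L (5, false)) := ((hh ![0, 2, 3, 4, 5, 11] ![0, 1, 2, 3, 4, 11] (by decide) (by decide)).2 (1, true) (3, false) (0, true) (1, false) (2, true) (4, false)).2 h8
  have t1 : (br (L (4, false)) (L (0, true)) (L (2, true))) * (br (L (2, false)) (L (5, false)) (L (3, true))) < (br (L (2, false)) (L (4, false)) (L (2, true))) * (br (L (5, false)) (L (0, true)) (L (3, true))) := by
    have e : dd (L (2, true)) (L (4, false)) (L (0, true)) (L (2, false)) (L (3, true)) (L (5, false)) = ((br (L (2, false)) (L (4, false)) (L (2, true))) * (br (L (5, false)) (L (0, true)) (L (3, true))) - (br (L (4, false)) (L (0, true)) (L (2, true))) * (br (L (2, false)) (L (5, false)) (L (3, true)))) := by unfold dd br; ring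
    linarith
  have t2 : (br (L (4, false)) (L (0, true)) (L (1, true))) * (br (L (2, false)) (L (4, false)) (L (2, true))) < (br (L (4, false)) (L (0, true)) (L (2, true))) * (br (L (2, false)) (L (4, false)) (L (1, true))) := by
    have e : (br (L (4, false)) (L (0, true)) (L (2, true))) * (br (L (2, false)) (L (4, false)) (L (1, true))) = (br (L (4, false)) (L (0, true)) (L (1, true))) * (br (L (2, false)) (L (4, false)) (L (2, true))) + (br (L (2, false)) (L (4, false)) (L (0, true))) * (br (L (4, false)) (L (1, true)) (L (2, true))) := by unfold br; ring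
    have p := mul_pos (hb (2, false) (4, false) (0, true) (by decide) (by decide) (by decide) (by decide) (by decide)) (hb (4, false) (1, true) (2, true) (by decide) (by decide) (by decide) (by decide) (by decide))
    linarith
  have q0 : 0 < br (L (2, false)) (L (4, false)) (L (1, true)) := (hb (2, false) (4, false) (1, true) (by decide) (by decide) (by decide) (by decide) (by decide))
  have q1 : 0 < br (L (5, false)) (L (0, true)) (L (3, true)) := (hb (5, false) (0, true) (3, true) (by decide) (by decide) (by decide) (by decide) (by decide))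
  have q2 : 0 < br (L (4, false)) (L (0, true)) (L (1, true)) := (hb (4, false) (0, true) (1, true) (by decide) (by decide) (by decide) (by decide) (by decide))
  have q3 : 0 < br (L (2, false)) (L (5, false)) (L (3, true)) := (hb (2, false) (5, false) (3, true) (by decide) (by decide) (by decide) (by decide) (by decide))
  have q4 : 0 < br (L (4, false)) (L (0, true)) (L (2, true)) := (hb (4, false) (0, true) (2, true) (by decide) (by decide) (by decide) (by decide) (by decide))
  have q5 : 0 < br (L (2, false)) (L (4, false)) (L (2, true)) := (hb (2, false) (4, false) (2, true) (by decide) (by decide) (by decide) (by decide) (by decide))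
  generalize br (L (2, false)) (L (4, false)) (L (1, true)) = z0 at *
  generalize br (L (5, false)) (L (0, true)) (L (3, true)) = z1 at *
  generalize br (L (4, false)) (L (0, true)) (L (1, true)) = z2 at *
  generalize br (L (2, false)) (L (5, false)) (L (3, true)) = z3 at *
  generalize br (L (4, false)) (L (0, true)) (L (2, true)) = z4 at *
  generalize br (L (2, false)) (L (4, false)) (L (2, true)) = z5 at *
  have m0 := mul_lt_mul'' t0 t1 (le_of_lt (mul_pos q0 q1)) (le_of_lt (mul_pos q4 q3))
  have m1 := mul_lt_mul'' m0 t2 (le_of_lt (mul_pos (mul_pos q0 q1) (mul_pos q4 q3))) (le_of_lt (mul_pos q2 q5))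
  refine absurd m1 (not_lt_of_ge (le_of_eq ?_))
  ring

theorem lem_3_10 (L : Fin 12 × Bool → ℝ × ℝ) (hg : Generic L) (hh : Hom L) (hb : Conv L)
    (h3 : X3 L) (h10 : ¬ X10 L) :
    False := by
  have s0 : 0 < dd (L (1, false)) (L (3, true)) (L (0, false)) (L (2, true)) (L (2, false)) (L (4, true)) := ((hh ![0, 1, 2, 3, 4, 11] ![0, 1, 2, 3, 4, 11] (by decide) (by decide)).2 (1, false) (3, true) (0, false) (2, true) (2, false) (4, true)).2 h3
  have t0 : (br (L (0, false)) (L (1, false)) (L (2, true))) * (br (L (2, false)) (L (3, true)) (L (4, true))) < (br (L (0, false)) (L (2, true)) (L (3, true))) * (br (L (1, false)) (L (2, false)) (L (4, true))) := by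
    have e : dd (L (1, false)) (L (3, true)) (L (0, false)) (L (2, true)) (L (2, false)) (L (4, true)) = ((br (L (0, false)) (L (2, true)) (L (3, true))) * (br (L (1, false)) (L (2, false)) (L (4, true))) - (br (L (0, false)) (L (1, false)) (L (2, true))) * (br (L (2, false)) (L (3, true)) (L (4, true)))) := by unfold dd br; ring
    linarith
  have s1 : 0 < dd (L (2, false)) (L (4, true)) (L (1, false)) (L (3, true)) (L (3, false)) (L (5, true)) := ((hh ![1, 2, 3, 4, 5, 11] ![0, 1, 2, 3, 4, 11] (by decide) (by decide)).2 (1, false) (3, true) (0, false) (2, true) (2, false) (4, true)).2 h3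
  have t1 : (br (L (1, false)) (L (2, false)) (L (4, true))) * (br (L (3, false)) (L (3, true)) (L (5, true))) < (br (L (2, false)) (L (3, true)) (L (4, true))) * (br (L (1, false)) (L (3, false)) (L (5, true))) := by
    have e : dd (L (2, false)) (L (4, true)) (L (1, false)) (L (3, true)) (L (3, false)) (L (5, true)) = ((br (L (2, false)) (L (3, true)) (L (4, true))) * (br (L (1, false)) (L (3, false)) (L (5, true))) - (br (L (1, false)) (L (2, false)) (L (4, true))) * (br (L (3, false)) (L (3, true)) (L (5, true)))) := by unfold dd br; ring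
    linarith
  have s2 : dd (L (1, false)) (L (4, true)) (L (0, false)) (L (2, true)) (L (3, false)) (L (5, true)) < 0 := by
    have hne := dd_ne_zero hg (1, false) (4, true) (0, false) (2, true) (3, false) (5, true) (by decide)
    have hi : ¬ 0 < dd (L (1, false)) (L (4, true)) (L (0, false)) (L (2, true)) (L (3, false)) (L (5, true)) := fun h => h10 (((hh ![0, 1, 2, 3, 4, 5] ![0, 1, 2, 3, 4, 5] (by decide) (by decide)).2 (1, false) (4, true) (0, false) (2, true) (3, false) (5, true)).1 h)
    exact lt_of_le_of_ne (not_lt.1 hi) hne
  have t2 : (br (L (0, false)) (L (2, true)) (L (4, true))) * (br (L (1, false)) (L (3, false)) (L (5, true))) < (br (L (0, false)) (L (1, false)) (L (2, true))) * (br (L (3, false)) (L (4, true)) (L (5, true))) := by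
    have e : dd (L (1, false)) (L (4, true)) (L (0, false)) (L (2, true)) (L (3, false)) (L (5, true)) = -((br (L (0, false)) (L (1, false)) (L (2, true))) * (br (L (3, false)) (L (4, true)) (L (5, true))) - (br (L (0, false)) (L (2, true)) (L (4, true))) * (br (L (1, false)) (L (3, false)) (L (5, true)))) := by unfold dd br; ring
    linarith
  have t3 : (br (L (0, false)) (L (3, false)) (L (3, true))) * (br (L (3, false)) (L (4, true)) (L (5, true))) < (br (L (0, false)) (L (3, false)) (L (4, true))) * (br (L (3, false)) (L (3, true)) (L (5, true))) := by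
    have e : (br (L (0, false)) (L (3, false)) (L (4, true))) * (br (L (3, false)) (L (3, true)) (L (5, true))) = (br (L (0, false)) (L (3, false)) (L (3, true))) * (br (L (3, false)) (L (4, true)) (L (5, true))) + (br (L (0, false)) (L (3, false)) (L (5, true))) * (br (L (3, false)) (L (3, true)) (L (4, true))) := by unfold br; ring
    have p := mul_pos (hb (0, false) (3, false) (5, true) (by decide) (by decide) (by decide) (by decide) (by decide)) (hb (3, false) (3, true) (4, true) (by decide) (by decide) (by decide) (by decide) (by decide))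
    linarith
  have t4 : (br (L (0, false)) (L (2, true)) (L (3, true))) * (br (L (0, false)) (L (3, false)) (L (4, true))) < (br (L (0, false)) (L (2, true)) (L (4, true))) * (br (L (0, false)) (L (3, false)) (L (3, true))) := by
    have e : (br (L (0, false)) (L (2, true)) (L (4, true))) * (br (L (0, false)) (L (3, false)) (L (3, true))) = (br (L (0, false)) (L (2, true)) (L (3, true))) * (br (L (0, false)) (L (3, false)) (L (4, true))) + (br (L (0, false)) (L (3, false)) (L (2, true))) * (br (L (0, false)) (L (3, true)) (L (4, true))) := by unfold br; ring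
    have p := mul_pos (hb (0, false) (3, false) (2, true) (by decide) (by decide) (by decide) (by decide) (by decide)) (hb (0, false) (3, true) (4, true) (by decide) (by decide) (by decide) (by decide) (by decide))
    linarith
  have q0 : 0 < br (L (0, false)) (L (1, false)) (L (2, true)) := (hb (0, false) (1, false) (2, true) (by decide) (by decide) (by decide) (by decide) (by decide))
  have q1 : 0 < br (L (2, false)) (L (3, true)) (L (4, true)) := (hb (2, false) (3, true) (4, true) (by decide) (by decide) (by decide) (by decide) (by decide))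
  have q2 : 0 < br (L (0, false)) (L (2, true)) (L (3, true)) := (hb (0, false) (2, true) (3, true) (by decide) (by decide) (by decide) (by decide) (by decide))
  have q3 : 0 < br (L (1, false)) (L (2, false)) (L (4, true)) := (hb (1, false) (2, false) (4, true) (by decide) (by decide) (by decide) (by decide) (by decide))
  have q4 : 0 < br (L (3, false)) (L (3, true)) (L (5, true)) := (hb (3, false) (3, true) (5, true) (by decide) (by decide) (by decide) (by decide) (by decide))
  have q5 : 0 < br (L (1, false)) (L (3, false)) (L (5, true)) := (hb (1, false) (3, false) (5, true) (by decide) (by decide) (by decide) (by decide) (by decide))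
  have q6 : 0 < br (L (0, false)) (L (2, true)) (L (4, true)) := (hb (0, false) (2, true) (4, true) (by decide) (by decide) (by decide) (by decide) (by decide))
  have q7 : 0 < br (L (3, false)) (L (4, true)) (L (5, true)) := (hb (3, false) (4, true) (5, true) (by decide) (by decide) (by decide) (by decide) (by decide))
  have q8 : 0 < br (L (0, false)) (L (3, false)) (L (3, true)) := (hb (0, false) (3, false) (3, true) (by decide) (by decide) (by decide) (by decide) (by decide))
  have q9 : 0 < br (L (0, false)) (L (3, false)) (L (4, true)) := (hb (0, false) (3, false) (4, true) (by decide) (by decide) (by decide) (by decide) (by decide))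
  generalize br (L (0, false)) (L (1, false)) (L (2, true)) = z0 at *
  generalize br (L (2, false)) (L (3, true)) (L (4, true)) = z1 at *
  generalize br (L (0, false)) (L (2, true)) (L (3, true)) = z2 at *
  generalize br (L (1, false)) (L (2, false)) (L (4, true)) = z3 at *
  generalize br (L (3, false)) (L (3, true)) (L (5, true)) = z4 at *
  generalize br (L (1, false)) (L (3, false)) (L (5, true)) = z5 at *
  generalize br (L (0, false)) (L (2, true)) (L (4, true)) = z6 at *
  generalize br (L (3, false)) (L (4, true)) (L (5, true)) = z7 at *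
  generalize br (L (0, false)) (L (3, false)) (L (3, true)) = z8 at *
  generalize br (L (0, false)) (L (3, false)) (L (4, true)) = z9 at *
  have m0 := mul_lt_mul'' t0 t1 (le_of_lt (mul_pos q0 q1)) (le_of_lt (mul_pos q3 q4))
  have m1 := mul_lt_mul'' m0 t2 (le_of_lt (mul_pos (mul_pos q0 q1) (mul_pos q3 q4))) (le_of_lt (mul_pos q6 q5))
  have m2 := mul_lt_mul'' m1 t3 (le_of_lt (mul_pos (mul_pos (mul_pos q0 q1) (mul_pos q3 q4)) (mul_pos q6 q5))) (le_of_lt (mul_pos q8 q7))
  have m3 := mul_lt_mul'' m2 t4 (le_of_lt (mul_pos (mul_pos (mul_pos (mul_pos q0 q1) (mul_pos q3 q4)) (mul_pos q6 q5)) (mul_pos q8 q7))) (le_of_lt (mul_pos q2 q9))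
  refine absurd m3 (not_lt_of_ge (le_of_eq ?_))
  ring

theorem lem_6_1_8 (L : Fin 12 × Bool → ℝ × ℝ) (hg : Generic L) (hh : Hom L) (hb : Conv L)
    (h6 : X6 L) (h1 : X1 L) (h8 : ¬ X8 L) :
    False := by
  have s0 : dd (L (1, true)) (L (4, false)) (L (0, true)) (L (1, false)) (L (2, true)) (L (5, false)) < 0 := by
    have hne := dd_ne_zero hg (1, true) (4, false) (0, true) (1, false) (2, true) (5, false) (by decide)
    have hi : ¬ 0 < dd (L (1, true)) (L (4, false)) (L (0, true)) (L (1, false)) (L (2, true)) (L (5, false)) := fun h => h8 (((hh ![0, 1, 2, 4, 5, 11] ![0, 1, 2, 3, 4, 11] (by decide) (by decide)).2 (1, true) (3, false) (0, true) (1, false) (2, true) (4, false)).1 h)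
    exact lt_of_le_of_ne (not_lt.1 hi) hne
  have t0 : (br (L (1, false)) (L (4, false)) (L (1, true))) * (br (L (5, false)) (L (0, true)) (L (2, true))) < (br (L (4, false)) (L (0, true)) (L (1, true))) * (br (L (1, false)) (L (5, false)) (L (2, true))) := by
    have e : dd (L (1, true)) (L (4, false)) (L (0, true)) (L (1, false)) (L (2, true)) (L (5, false)) = -((br (L (4, false)) (L (0, true)) (L (1, true))) * (br (L (1, false)) (L (5, false)) (L (2, true))) - (br (L (1, false)) (L (4, false)) (L (1, true))) * (br (L (5, false)) (L (0, true)) (L (2, true)))) := by unfold dd br; ring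
    linarith
  have s1 : 0 < dd (L (1, true)) (L (2, false)) (L (0, true)) (L (4, true)) (L (2, true)) (L (5, false)) := ((hh ![0, 1, 2, 4, 5, 11] ![0, 1, 2, 3, 4, 11] (by decide) (by decide)).2 (1, true) (2, false) (0, true) (3, true) (2, true) (4, false)).2 h6
  have t1 : (br (L (2, false)) (L (0, true)) (L (1, true))) * (br (L (5, false)) (L (2, true)) (L (4, true))) < (br (L (2, false)) (L (1, true)) (L (4, true))) * (br (L (5, false)) (L (0, true)) (L (2, true))) := by
    have e : dd (L (1, true)) (L (2, false)) (L (0, true)) (L (4, true)) (L (2, true)) (L (5, false)) = ((br (L (2, false)) (L (1, true)) (L (4, true))) * (br (L (5, false)) (L (0, true)) (L (2, true))) - (br (L (2, false)) (L (0, true)) (L (1, true))) * (br (L (5, false)) (L (2, true)) (L (4, true)))) := by unfold dd br; ring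
    linarith
  have t2 : (br (L (0, true)) (L (2, true)) (L (4, true))) * (br (L (1, false)) (L (5, false)) (L (2, true))) < (br (L (1, false)) (L (0, true)) (L (2, true))) * (br (L (5, false)) (L (2, true)) (L (4, true))) := by
    have e : (br (L (1, false)) (L (0, true)) (L (2, true))) * (br (L (5, false)) (L (2, true)) (L (4, true))) = (br (L (0, true)) (L (2, true)) (L (4, true))) * (br (L (1, false)) (L (5, false)) (L (2, true))) + (br (L (5, false)) (L (0, true)) (L (2, true))) * (br (L (1, false)) (L (2, true)) (L (4, true))) := by unfold br; ring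
    have p := mul_pos (hb (5, false) (0, true) (2, true) (by decide) (by decide) (by decide) (by decide) (by decide)) (hb (1, false) (2, true) (4, true) (by decide) (by decide) (by decide) (by decide) (by decide))
    linarith
  have s3 : 0 < dd (L (2, false)) (L (2, true)) (L (1, true)) (L (4, true)) (L (3, true)) (L (5, false)) := ((hh ![1, 2, 3, 4, 5, 11] ![0, 1, 2, 3, 4, 11] (by decide) (by decide)).2 (1, false) (1, true) (0, true) (3, true) (2, true) (4, false)).2 h1
  have t3 : (br (L (2, false)) (L (1, true)) (L (4, true))) * (br (L (5, false)) (L (2, true)) (L (3, true))) < (br (L (1, true)) (L (2, true)) (L (4, true))) * (br (L (2, false)) (L (5, false)) (L (3, true))) := by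
    have e : dd (L (2, false)) (L (2, true)) (L (1, true)) (L (4, true)) (L (3, true)) (L (5, false)) = ((br (L (1, true)) (L (2, true)) (L (4, true))) * (br (L (2, false)) (L (5, false)) (L (3, true))) - (br (L (2, false)) (L (1, true)) (L (4, true))) * (br (L (5, false)) (L (2, true)) (L (3, true)))) := by unfold dd br; ring
    linarith
  have t4 : (br (L (0, false)) (L (0, true)) (L (2, true))) * (br (L (1, true)) (L (2, true)) (L (4, true))) < (br (L (0, false)) (L (1, true)) (L (2, true))) * (br (L (0, true)) (L (2, true)) (L (4, true))) := by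
    have e : (br (L (0, false)) (L (1, true)) (L (2, true))) * (br (L (0, true)) (L (2, true)) (L (4, true))) = (br (L (0, false)) (L (0, true)) (L (2, true))) * (br (L (1, true)) (L (2, true)) (L (4, true))) + (br (L (0, false)) (L (2, true)) (L (4, true))) * (br (L (0, true)) (L (1, true)) (L (2, true))) := by unfold br; ring
    have p := mul_pos (hb (0, false) (2, true) (4, true) (by decide) (by decide) (by decide) (by decide) (by decide)) (hb (0, true) (1, true) (2, true) (by decide) (by decide) (by decide) (by decide) (by decide))
    linarith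
  have t5 : (br (L (0, false)) (L (1, true)) (L (2, true))) * (br (L (1, false)) (L (0, true)) (L (2, true))) < (br (L (0, false)) (L (0, true)) (L (2, true))) * (br (L (1, false)) (L (1, true)) (L (2, true))) := by
    have e : (br (L (0, false)) (L (0, true)) (L (2, true))) * (br (L (1, false)) (L (1, true)) (L (2, true))) = (br (L (0, false)) (L (1, true)) (L (2, true))) * (br (L (1, false)) (L (0, true)) (L (2, true))) + (br (L (0, false)) (L (1, false)) (L (2, true))) * (br (L (0, true)) (L (1, true)) (L (2, true))) := by unfold br; ring
    have p := mul_pos (hb (0, false) (1, false) (2, true) (by decide) (by decide) (by decide) (by decide) (by decide)) (hb (0, true) (1, true) (2, true) (by decide) (by decide) (by decide) (by decide) (by decide))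
    linarith
  have s6 : 0 < dd (L (1, false)) (L (1, true)) (L (0, true)) (L (3, true)) (L (2, true)) (L (4, false)) := ((hh ![0, 1, 2, 3, 4, 11] ![0, 1, 2, 3, 4, 11] (by decide) (by decide)).2 (1, false) (1, true) (0, true) (3, true) (2, true) (4, false)).2 h1
  have t6 : (br (L (1, false)) (L (1, true)) (L (2, true))) * (br (L (4, false)) (L (0, true)) (L (3, true))) < (br (L (1, false)) (L (4, false)) (L (1, true))) * (br (L (0, true)) (L (2, true)) (L (3, true))) := by
    have e : dd (L (1, false)) (L (1, true)) (L (0, true)) (L (3, true)) (L (2, true)) (L (4, false)) = ((br (L (1, false)) (L (4, false)) (L (1, true))) * (br (L (0, true)) (L (2, true)) (L (3, true))) - (br (L (1, false)) (L (1, true)) (L (2, true))) * (br (L (4, false)) (L (0, true)) (L (3, true)))) := by unfold dd br; ring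
    linarith
  have t7 : (br (L (4, false)) (L (0, true)) (L (1, true))) * (br (L (3, false)) (L (0, true)) (L (3, true))) < (br (L (3, false)) (L (0, true)) (L (1, true))) * (br (L (4, false)) (L (0, true)) (L (3, true))) := by
    have e : (br (L (3, false)) (L (0, true)) (L (1, true))) * (br (L (4, false)) (L (0, true)) (L (3, true))) = (br (L (4, false)) (L (0, true)) (L (1, true))) * (br (L (3, false)) (L (0, true)) (L (3, true))) + (br (L (0, true)) (L (1, true)) (L (3, true))) * (br (L (3, false)) (L (4, false)) (L (0, true))) := by unfold br; ring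
    have p := mul_pos (hb (0, true) (1, true) (3, true) (by decide) (by decide) (by decide) (by decide) (by decide)) (hb (3, false) (4, false) (0, true) (by decide) (by decide) (by decide) (by decide) (by decide))
    linarith
  have t8 : (br (L (3, false)) (L (0, true)) (L (1, true))) * (br (L (2, false)) (L (0, true)) (L (3, true))) < (br (L (2, false)) (L (0, true)) (L (1, true))) * (br (L (3, false)) (L (0, true)) (L (3, true))) := by
    have e : (br (L (2, false)) (L (0, true)) (L (1, true))) * (br (L (3, false)) (L (0, true)) (L (3, true))) = (br (L (3, false)) (L (0, true)) (L (1, true))) * (br (L (2, false)) (L (0, true)) (L (3, true))) + (br (L (0, true)) (L (1, true)) (L (3, true))) * (br (L (2, false)) (L (3, false)) (L (0, true))) := by unfold br; ring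
    have p := mul_pos (hb (0, true) (1, true) (3, true) (by decide) (by decide) (by decide) (by decide) (by decide)) (hb (2, false) (3, false) (0, true) (by decide) (by decide) (by decide) (by decide) (by decide))
    linarith
  have t9 : (br (L (0, false)) (L (5, false)) (L (3, true))) * (br (L (0, true)) (L (2, true)) (L (3, true))) < (br (L (0, false)) (L (0, true)) (L (3, true))) * (br (L (5, false)) (L (2, true)) (L (3, true))) := by
    have e : (br (L (0, false)) (L (0, true)) (L (3, true))) * (br (L (5, false)) (L (2, true)) (L (3, true))) = (br (L (0, false)) (L (5, false)) (L (3, true))) * (br (L (0, true)) (L (2, true)) (L (3, true))) + (br (L (0, false)) (L (2, true)) (L (3, true))) * (br (L (5, false)) (L (0, true)) (L (3, true))) := by unfold br; ring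
    have p := mul_pos (hb (0, false) (2, true) (3, true) (by decide) (by decide) (by decide) (by decide) (by decide)) (hb (5, false) (0, true) (3, true) (by decide) (by decide) (by decide) (by decide) (by decide))
    linarith
  have t10 : (br (L (0, false)) (L (0, true)) (L (3, true))) * (br (L (2, false)) (L (5, false)) (L (3, true))) < (br (L (0, false)) (L (5, false)) (L (3, true))) * (br (L (2, false)) (L (0, true)) (L (3, true))) := by
    have e : (br (L (0, false)) (L (5, false)) (L (3, true))) * (br (L (2, false)) (L (0, true)) (L (3, true))) = (br (L (0, false)) (L (0, true)) (L (3, true))) * (br (L (2, false)) (L (5, false)) (L (3, true))) + (br (L (0, false)) (L (2, false)) (L (3, true))) * (br (L (5, false)) (L (0, true)) (L (3, true))) := by unfold br; ring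
    have p := mul_pos (hb (0, false) (2, false) (3, true) (by decide) (by decide) (by decide) (by decide) (by decide)) (hb (5, false) (0, true) (3, true) (by decide) (by decide) (by decide) (by decide) (by decide))
    linarith
  have q0 : 0 < br (L (1, false)) (L (4, false)) (L (1, true)) := (hb (1, false) (4, false) (1, true) (by decide) (by decide) (by decide) (by decide) (by decide))
  have q1 : 0 < br (L (5, false)) (L (0, true)) (L (2, true)) := (hb (5, false) (0, true) (2, true) (by decide) (by decide) (by decide) (by decide) (by decide))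
  have q2 : 0 < br (L (4, false)) (L (0, true)) (L (1, true)) := (hb (4, false) (0, true) (1, true) (by decide) (by decide) (by decide) (by decide) (by decide))
  have q3 : 0 < br (L (1, false)) (L (5, false)) (L (2, true)) := (hb (1, false) (5, false) (2, true) (by decide) (by decide) (by decide) (by decide) (by decide))
  have q4 : 0 < br (L (2, false)) (L (0, true)) (L (1, true)) := (hb (2, false) (0, true) (1, true) (by decide) (by decide) (by decide) (by decide) (by decide))
  have q5 : 0 < br (L (5, false)) (L (2, true)) (L (4, true)) := (hb (5, false) (2, true) (4, true) (by decide) (by decide) (by decide) (by decide) (by decide))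
  have q6 : 0 < br (L (2, false)) (L (1, true)) (L (4, true)) := (hb (2, false) (1, true) (4, true) (by decide) (by decide) (by decide) (by decide) (by decide))
  have q7 : 0 < br (L (0, true)) (L (2, true)) (L (4, true)) := (hb (0, true) (2, true) (4, true) (by decide) (by decide) (by decide) (by decide) (by decide))
  have q8 : 0 < br (L (1, false)) (L (0, true)) (L (2, true)) := (hb (1, false) (0, true) (2, true) (by decide) (by decide) (by decide) (by decide) (by decide))
  have q9 : 0 < br (L (5, false)) (L (2, true)) (L (3, true)) := (hb (5, false) (2, true) (3, true) (by decide) (by decide) (by decide) (by decide) (by decide))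
  have q10 : 0 < br (L (1, true)) (L (2, true)) (L (4, true)) := (hb (1, true) (2, true) (4, true) (by decide) (by decide) (by decide) (by decide) (by decide))
  have q11 : 0 < br (L (2, false)) (L (5, false)) (L (3, true)) := (hb (2, false) (5, false) (3, true) (by decide) (by decide) (by decide) (by decide) (by decide))
  have q12 : 0 < br (L (0, false)) (L (0, true)) (L (2, true)) := (hb (0, false) (0, true) (2, true) (by decide) (by decide) (by decide) (by decide) (by decide))
  have q13 : 0 < br (L (0, false)) (L (1, true)) (L (2, true)) := (hb (0, false) (1, true) (2, true) (by decide) (by decide) (by decide) (by decide) (by decide))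
  have q14 : 0 < br (L (1, false)) (L (1, true)) (L (2, true)) := (hb (1, false) (1, true) (2, true) (by decide) (by decide) (by decide) (by decide) (by decide))
  have q15 : 0 < br (L (4, false)) (L (0, true)) (L (3, true)) := (hb (4, false) (0, true) (3, true) (by decide) (by decide) (by decide) (by decide) (by decide))
  have q16 : 0 < br (L (0, true)) (L (2, true)) (L (3, true)) := (hb (0, true) (2, true) (3, true) (by decide) (by decide) (by decide) (by decide) (by decide))
  have q17 : 0 < br (L (3, false)) (L (0, true)) (L (3, true)) := (hb (3, false) (0, true) (3, true) (by decide) (by decide) (by decide) (by decide) (by decide))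
  have q18 : 0 < br (L (3, false)) (L (0, true)) (L (1, true)) := (hb (3, false) (0, true) (1, true) (by decide) (by decide) (by decide) (by decide) (by decide))
  have q19 : 0 < br (L (2, false)) (L (0, true)) (L (3, true)) := (hb (2, false) (0, true) (3, true) (by decide) (by decide) (by decide) (by decide) (by decide))
  have q20 : 0 < br (L (0, false)) (L (5, false)) (L (3, true)) := (hb (0, false) (5, false) (3, true) (by decide) (by decide) (by decide) (by decide) (by decide))
  have q21 : 0 < br (L (0, false)) (L (0, true)) (L (3, true)) := (hb (0, false) (0, true) (3, true) (by decide) (by decide) (by decide) (by decide) (by decide))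
  generalize br (L (1, false)) (L (4, false)) (L (1, true)) = z0 at *
  generalize br (L (5, false)) (L (0, true)) (L (2, true)) = z1 at *
  generalize br (L (4, false)) (L (0, true)) (L (1, true)) = z2 at *
  generalize br (L (1, false)) (L (5, false)) (L (2, true)) = z3 at *
  generalize br (L (2, false)) (L (0, true)) (L (1, true)) = z4 at *
  generalize br (L (5, false)) (L (2, true)) (L (4, true)) = z5 at *
  generalize br (L (2, false)) (L (1, true)) (L (4, true)) = z6 at *
  generalize br (L (0, true)) (L (2, true)) (L (4, true)) = z7 at *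
  generalize br (L (1, false)) (L (0, true)) (L (2, true)) = z8 at *
  generalize br (L (5, false)) (L (2, true)) (L (3, true)) = z9 at *
  generalize br (L (1, true)) (L (2, true)) (L (4, true)) = z10 at *
  generalize br (L (2, false)) (L (5, false)) (L (3, true)) = z11 at *
  generalize br (L (0, false)) (L (0, true)) (L (2, true)) = z12 at *
  generalize br (L (0, false)) (L (1, true)) (L (2, true)) = z13 at *
  generalize br (L (1, false)) (L (1, true)) (L (2, true)) = z14 at *
  generalize br (L (4, false)) (L (0, true)) (L (3, true)) = z15 at *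
  generalize br (L (0, true)) (L (2, true)) (L (3, true)) = z16 at *
  generalize br (L (3, false)) (L (0, true)) (L (3, true)) = z17 at *
  generalize br (L (3, false)) (L (0, true)) (L (1, true)) = z18 at *
  generalize br (L (2, false)) (L (0, true)) (L (3, true)) = z19 at *
  generalize br (L (0, false)) (L (5, false)) (L (3, true)) = z20 at *
  generalize br (L (0, false)) (L (0, true)) (L (3, true)) = z21 at *
  have m0 := mul_lt_mul'' t0 t1 (le_of_lt (mul_pos q0 q1)) (le_of_lt (mul_pos q4 q5))
  have m1 := mul_lt_mul'' m0 t2 (le_of_lt (mul_pos (mul_pos q0 q1) (mul_pos q4 q5))) (le_of_lt (mul_pos q7 q3))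
  have m2 := mul_lt_mul'' m1 t3 (le_of_lt (mul_pos (mul_pos (mul_pos q0 q1) (mul_pos q4 q5)) (mul_pos q7 q3))) (le_of_lt (mul_pos q6 q9))
  have m3 := mul_lt_mul'' m2 t4 (le_of_lt (mul_pos (mul_pos (mul_pos (mul_pos q0 q1) (mul_pos q4 q5)) (mul_pos q7 q3)) (mul_pos q6 q9))) (le_of_lt (mul_pos q12 q10))
  have m4 := mul_lt_mul'' m3 t5 (le_of_lt (mul_pos (mul_pos (mul_pos (mul_pos (mul_pos q0 q1) (mul_pos q4 q5)) (mul_pos q7 q3)) (mul_pos q6 q9)) (mul_pos q12 q10))) (le_of_lt (mul_pos q13 q8))
  have m5 := mul_lt_mul'' m4 t6 (le_of_lt (mul_pos (mul_pos (mul_pos (mul_pos (mul_pos (mul_pos q0 q1) (mul_pos q4 q5)) (mul_pos q7 q3)) (mul_pos q6 q9)) (mul_pos q12 q10)) (mul_pos q13 q8))) (le_of_lt (mul_pos q14 q15))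
  have m6 := mul_lt_mul'' m5 t7 (le_of_lt (mul_pos (mul_pos (mul_pos (mul_pos (mul_pos (mul_pos (mul_pos q0 q1) (mul_pos q4 q5)) (mul_pos q7 q3)) (mul_pos q6 q9)) (mul_pos q12 q10)) (mul_pos q13 q8)) (mul_pos q14 q15))) (le_of_lt (mul_pos q2 q17))
  have m7 := mul_lt_mul'' m6 t8 (le_of_lt (mul_pos (mul_pos (mul_pos (mul_pos (mul_pos (mul_pos (mul_pos (mul_pos q0 q1) (mul_pos q4 q5)) (mul_pos q7 q3)) (mul_pos q6 q9)) (mul_pos q12 q10)) (mul_pos q13 q8)) (mul_pos q14 q15)) (mul_pos q2 q17))) (le_of_lt (mul_pos q18 q19))
  have m8 := mul_lt_mul'' m7 t9 (le_of_lt (mul_pos (mul_pos (mul_pos (mul_pos (mul_pos (mul_pos (mul_pos (mul_pos (mul_pos q0 q1) (mul_pos q4 q5)) (mul_pos q7 q3)) (mul_pos q6 q9)) (mul_pos q12 q10)) (mul_pos q13 q8)) (mul_pos q14 q15)) (mul_pos q2 q17)) (mul_pos q18 q19))) (le_of_lt (mul_pos q20 q16))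
  have m9 := mul_lt_mul'' m8 t10 (le_of_lt (mul_pos (mul_pos (mul_pos (mul_pos (mul_pos (mul_pos (mul_pos (mul_pos (mul_pos (mul_pos q0 q1) (mul_pos q4 q5)) (mul_pos q7 q3)) (mul_pos q6 q9)) (mul_pos q12 q10)) (mul_pos q13 q8)) (mul_pos q14 q15)) (mul_pos q2 q17)) (mul_pos q18 q19)) (mul_pos q20 q16))) (le_of_lt (mul_pos q21 q11))
  refine absurd m9 (not_lt_of_ge (le_of_eq ?_))
  ring

theorem lem_5_2_4 (L : Fin 12 × Bool → ℝ × ℝ) (hg : Generic L) (hh : Hom L) (hb : Conv L)
    (h5 : X5 L) (h2 : ¬ X2 L) (h4 : ¬ X4 L) :
    False := by
  have t0 : (br (L (0, false)) (L (0, true)) (L (2, true))) * (br (L (2, true)) (L (3, true)) (L (5, true))) < (br (L (0, false)) (L (2, true)) (L (3, true))) * (br (L (0, true)) (L (2, true)) (L (5, true))) := by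
    have e : (br (L (0, false)) (L (2, true)) (L (3, true))) * (br (L (0, true)) (L (2, true)) (L (5, true))) = (br (L (0, false)) (L (0, true)) (L (2, true))) * (br (L (2, true)) (L (3, true)) (L (5, true))) + (br (L (0, false)) (L (2, true)) (L (5, true))) * (br (L (0, true)) (L (2, true)) (L (3, true))) := by unfold br; ring
    have p := mul_pos (hb (0, false) (2, true) (5, true) (by decide) (by decide) (by decide) (by decide) (by decide)) (hb (0, true) (2, true) (3, true) (by decide) (by decide) (by decide) (by decide) (by decide))
    linarith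
  have t1 : (br (L (0, false)) (L (3, false)) (L (2, true))) * (br (L (0, true)) (L (2, true)) (L (5, true))) < (br (L (0, false)) (L (0, true)) (L (2, true))) * (br (L (3, false)) (L (2, true)) (L (5, true))) := by
    have e : (br (L (0, false)) (L (0, true)) (L (2, true))) * (br (L (3, false)) (L (2, true)) (L (5, true))) = (br (L (0, false)) (L (3, false)) (L (2, true))) * (br (L (0, true)) (L (2, true)) (L (5, true))) + (br (L (0, false)) (L (2, true)) (L (5, true))) * (br (L (3, false)) (L (0, true)) (L (2, true))) := by unfold br; ring
    have p := mul_pos (hb (0, false) (2, true) (5, true) (by decide) (by decide) (by decide) (by decide) (by decide)) (hb (3, false) (0, true) (2, true) (by decide) (by decide) (by decide) (by decide) (by decide))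
    linarith
  have s2 : 0 < dd (L (1, true)) (L (4, true)) (L (0, false)) (L (2, true)) (L (3, false)) (L (3, true)) := ((hh ![0, 1, 2, 3, 4, 11] ![0, 1, 2, 3, 4, 11] (by decide) (by decide)).2 (1, true) (4, true) (0, false) (2, true) (3, false) (3, true)).2 h5
  have t2 : (br (L (3, false)) (L (1, true)) (L (4, true))) * (br (L (0, false)) (L (2, true)) (L (3, true))) < (br (L (1, true)) (L (3, true)) (L (4, true))) * (br (L (0, false)) (L (3, false)) (L (2, true))) := by
    have e : dd (L (1, true)) (L (4, true)) (L (0, false)) (L (2, true)) (L (3, false)) (L (3, true)) = ((br (L (1, true)) (L (3, true)) (L (4, true))) * (br (L (0, false)) (L (3, false)) (L (2, true))) - (br (L (3, false)) (L (1, true)) (L (4, true))) * (br (L (0, false)) (L (2, true)) (L (3, true)))) := by unfold dd br; ring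
    linarith
  have t3 : (br (L (1, false)) (L (4, true)) (L (5, true))) * (br (L (3, false)) (L (2, true)) (L (5, true))) < (br (L (1, false)) (L (2, true)) (L (5, true))) * (br (L (3, false)) (L (4, true)) (L (5, true))) := by
    have e : (br (L (1, false)) (L (2, true)) (L (5, true))) * (br (L (3, false)) (L (4, true)) (L (5, true))) = (br (L (1, false)) (L (4, true)) (L (5, true))) * (br (L (3, false)) (L (2, true)) (L (5, true))) + (br (L (1, false)) (L (3, false)) (L (5, true))) * (br (L (2, true)) (L (4, true)) (L (5, true))) := by unfold br; ring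
    have p := mul_pos (hb (1, false) (3, false) (5, true) (by decide) (by decide) (by decide) (by decide) (by decide)) (hb (2, true) (4, true) (5, true) (by decide) (by decide) (by decide) (by decide) (by decide))
    linarith
  have s4 : 0 < dd (L (2, true)) (L (5, true)) (L (1, false)) (L (3, true)) (L (4, false)) (L (4, true)) := ((hh ![1, 2, 3, 4, 5, 11] ![0, 1, 2, 3, 4, 11] (by decide) (by decide)).2 (1, true) (4, true) (0, false) (2, true) (3, false) (3, true)).2 h5
  have t4 : (br (L (1, false)) (L (2, true)) (L (5, true))) * (br (L (4, false)) (L (3, true)) (L (4, true))) < (br (L (2, true)) (L (3, true)) (L (5, true))) * (br (L (1, false)) (L (4, false)) (L (4, true))) := by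
    have e : dd (L (2, true)) (L (5, true)) (L (1, false)) (L (3, true)) (L (4, false)) (L (4, true)) = ((br (L (2, true)) (L (3, true)) (L (5, true))) * (br (L (1, false)) (L (4, false)) (L (4, true))) - (br (L (1, false)) (L (2, true)) (L (5, true))) * (br (L (4, false)) (L (3, true)) (L (4, true)))) := by unfold dd br; ring
    linarith
  have s5 : dd (L (1, true)) (L (5, true)) (L (0, false)) (L (3, true)) (L (3, false)) (L (4, true)) < 0 := by
    have hne := dd_ne_zero hg (1, true) (5, true) (0, false) (3, true) (3, false) (4, true) (by decide)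
    have hi : ¬ 0 < dd (L (1, true)) (L (5, true)) (L (0, false)) (L (3, true)) (L (3, false)) (L (4, true)) := fun h => h4 (((hh ![0, 1, 3, 4, 5, 11] ![0, 1, 2, 3, 4, 11] (by decide) (by decide)).2 (1, true) (4, true) (0, false) (2, true) (2, false) (3, true)).1 h)
    exact lt_of_le_of_ne (not_lt.1 hi) hne
  have t5 : (br (L (0, false)) (L (1, true)) (L (3, true))) * (br (L (3, false)) (L (4, true)) (L (5, true))) < (br (L (0, false)) (L (3, true)) (L (5, true))) * (br (L (3, false)) (L (1, true)) (L (4, true))) := by
    have e : dd (L (1, true)) (L (5, true)) (L (0, false)) (L (3, true)) (L (3, false)) (L (4, true)) = -((br (L (0, false)) (L (3, true)) (L (5, true))) * (br (L (3, false)) (L (1, true)) (L (4, true))) - (br (L (0, false)) (L (1, true)) (L (3, true))) * (br (L (3, false)) (L (4, true)) (L (5, true)))) := by unfold dd br; ring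
    linarith
  have s6 : dd (L (1, false)) (L (4, true)) (L (0, false)) (L (3, true)) (L (4, false)) (L (5, true)) < 0 := by
    have hne := dd_ne_zero hg (1, false) (4, true) (0, false) (3, true) (4, false) (5, true) (by decide)
    have hi : ¬ 0 < dd (L (1, false)) (L (4, true)) (L (0, false)) (L (3, true)) (L (4, false)) (L (5, true)) := fun h => h2 (((hh ![0, 1, 3, 4, 5, 11] ![0, 1, 2, 3, 4, 11] (by decide) (by decide)).2 (1, false) (3, true) (0, false) (2, true) (3, false) (4, true)).1 h)
    exact lt_of_le_of_ne (not_lt.1 hi) hne
  have t6 : (br (L (1, false)) (L (4, false)) (L (4, true))) * (br (L (0, false)) (L (3, true)) (L (5, true))) < (br (L (1, false)) (L (4, true)) (L (5, true))) * (br (L (0, false)) (L (4, false)) (L (3, true))) := by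
    have e : dd (L (1, false)) (L (4, true)) (L (0, false)) (L (3, true)) (L (4, false)) (L (5, true)) = -((br (L (1, false)) (L (4, true)) (L (5, true))) * (br (L (0, false)) (L (4, false)) (L (3, true))) - (br (L (1, false)) (L (4, false)) (L (4, true))) * (br (L (0, false)) (L (3, true)) (L (5, true)))) := by unfold dd br; ring
    linarith
  have t7 : (br (L (0, false)) (L (4, false)) (L (3, true))) * (br (L (0, true)) (L (3, true)) (L (4, true))) < (br (L (0, false)) (L (0, true)) (L (3, true))) * (br (L (4, false)) (L (3, true)) (L (4, true))) := by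
    have e : (br (L (0, false)) (L (0, true)) (L (3, true))) * (br (L (4, false)) (L (3, true)) (L (4, true))) = (br (L (0, false)) (L (4, false)) (L (3, true))) * (br (L (0, true)) (L (3, true)) (L (4, true))) + (br (L (0, false)) (L (3, true)) (L (4, true))) * (br (L (4, false)) (L (0, true)) (L (3, true))) := by unfold br; ring
    have p := mul_pos (hb (0, false) (3, true) (4, true) (by decide) (by decide) (by decide) (by decide) (by decide)) (hb (4, false) (0, true) (3, true) (by decide) (by decide) (by decide) (by decide) (by decide))
    linarith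
  have t8 : (br (L (0, true)) (L (3, true)) (L (5, true))) * (br (L (1, true)) (L (3, true)) (L (4, true))) < (br (L (0, true)) (L (3, true)) (L (4, true))) * (br (L (1, true)) (L (3, true)) (L (5, true))) := by
    have e : (br (L (0, true)) (L (3, true)) (L (4, true))) * (br (L (1, true)) (L (3, true)) (L (5, true))) = (br (L (0, true)) (L (3, true)) (L (5, true))) * (br (L (1, true)) (L (3, true)) (L (4, true))) + (br (L (0, true)) (L (1, true)) (L (3, true))) * (br (L (3, true)) (L (4, true)) (L (5, true))) := by unfold br; ring
    have p := mul_pos (hb (0, true) (1, true) (3, true) (by decide) (by decide) (by decide) (by decide) (by decide)) (hb (3, true) (4, true) (5, true) (by decide) (by decide) (by decide) (by decide) (by decide))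
    linarith
  have t9 : (br (L (0, false)) (L (0, true)) (L (3, true))) * (br (L (1, true)) (L (3, true)) (L (5, true))) < (br (L (0, false)) (L (1, true)) (L (3, true))) * (br (L (0, true)) (L (3, true)) (L (5, true))) := by
    have e : (br (L (0, false)) (L (1, true)) (L (3, true))) * (br (L (0, true)) (L (3, true)) (L (5, true))) = (br (L (0, false)) (L (0, true)) (L (3, true))) * (br (L (1, true)) (L (3, true)) (L (5, true))) + (br (L (0, false)) (L (3, true)) (L (5, true))) * (br (L (0, true)) (L (1, true)) (L (3, true))) := by unfold br; ring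
    have p := mul_pos (hb (0, false) (3, true) (5, true) (by decide) (by decide) (by decide) (by decide) (by decide)) (hb (0, true) (1, true) (3, true) (by decide) (by decide) (by decide) (by decide) (by decide))
    linarith
  have q0 : 0 < br (L (0, false)) (L (0, true)) (L (2, true)) := (hb (0, false) (0, true) (2, true) (by decide) (by decide) (by decide) (by decide) (by decide))
  have q1 : 0 < br (L (2, true)) (L (3, true)) (L (5, true)) := (hb (2, true) (3, true) (5, true) (by decide) (by decide) (by decide) (by decide) (by decide))
  have q2 : 0 < br (L (0, false)) (L (2, true)) (L (3, true)) := (hb (0, false) (2, true) (3, true) (by decide) (by decide) (by decide) (by decide) (by decide))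
  have q3 : 0 < br (L (0, true)) (L (2, true)) (L (5, true)) := (hb (0, true) (2, true) (5, true) (by decide) (by decide) (by decide) (by decide) (by decide))
  have q4 : 0 < br (L (0, false)) (L (3, false)) (L (2, true)) := (hb (0, false) (3, false) (2, true) (by decide) (by decide) (by decide) (by decide) (by decide))
  have q5 : 0 < br (L (3, false)) (L (2, true)) (L (5, true)) := (hb (3, false) (2, true) (5, true) (by decide) (by decide) (by decide) (by decide) (by decide))
  have q6 : 0 < br (L (3, false)) (L (1, true)) (L (4, true)) := (hb (3, false) (1, true) (4, true) (by decide) (by decide) (by decide) (by decide) (by decide))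
  have q7 : 0 < br (L (1, true)) (L (3, true)) (L (4, true)) := (hb (1, true) (3, true) (4, true) (by decide) (by decide) (by decide) (by decide) (by decide))
  have q8 : 0 < br (L (1, false)) (L (4, true)) (L (5, true)) := (hb (1, false) (4, true) (5, true) (by decide) (by decide) (by decide) (by decide) (by decide))
  have q9 : 0 < br (L (1, false)) (L (2, true)) (L (5, true)) := (hb (1, false) (2, true) (5, true) (by decide) (by decide) (by decide) (by decide) (by decide))
  have q10 : 0 < br (L (3, false)) (L (4, true)) (L (5, true)) := (hb (3, false) (4, true) (5, true) (by decide) (by decide) (by decide) (by decide) (by decide))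
  have q11 : 0 < br (L (4, false)) (L (3, true)) (L (4, true)) := (hb (4, false) (3, true) (4, true) (by decide) (by decide) (by decide) (by decide) (by decide))
  have q12 : 0 < br (L (1, false)) (L (4, false)) (L (4, true)) := (hb (1, false) (4, false) (4, true) (by decide) (by decide) (by decide) (by decide) (by decide))
  have q13 : 0 < br (L (0, false)) (L (1, true)) (L (3, true)) := (hb (0, false) (1, true) (3, true) (by decide) (by decide) (by decide) (by decide) (by decide))
  have q14 : 0 < br (L (0, false)) (L (3, true)) (L (5, true)) := (hb (0, false) (3, true) (5, true) (by decide) (by decide) (by decide) (by decide) (by decide))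
  have q15 : 0 < br (L (0, false)) (L (4, false)) (L (3, true)) := (hb (0, false) (4, false) (3, true) (by decide) (by decide) (by decide) (by decide) (by decide))
  have q16 : 0 < br (L (0, true)) (L (3, true)) (L (4, true)) := (hb (0, true) (3, true) (4, true) (by decide) (by decide) (by decide) (by decide) (by decide))
  have q17 : 0 < br (L (0, false)) (L (0, true)) (L (3, true)) := (hb (0, false) (0, true) (3, true) (by decide) (by decide) (by decide) (by decide) (by decide))
  have q18 : 0 < br (L (0, true)) (L (3, true)) (L (5, true)) := (hb (0, true) (3, true) (5, true) (by decide) (by decide) (by decide) (by decide) (by decide))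
  have q19 : 0 < br (L (1, true)) (L (3, true)) (L (5, true)) := (hb (1, true) (3, true) (5, true) (by decide) (by decide) (by decide) (by decide) (by decide))
  generalize br (L (0, false)) (L (0, true)) (L (2, true)) = z0 at *
  generalize br (L (2, true)) (L (3, true)) (L (5, true)) = z1 at *
  generalize br (L (0, false)) (L (2, true)) (L (3, true)) = z2 at *
  generalize br (L (0, true)) (L (2, true)) (L (5, true)) = z3 at *
  generalize br (L (0, false)) (L (3, false)) (L (2, true)) = z4 at *
  generalize br (L (3, false)) (L (2, true)) (L (5, true)) = z5 at *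
  generalize br (L (3, false)) (L (1, true)) (L (4, true)) = z6 at *
  generalize br (L (1, true)) (L (3, true)) (L (4, true)) = z7 at *
  generalize br (L (1, false)) (L (4, true)) (L (5, true)) = z8 at *
  generalize br (L (1, false)) (L (2, true)) (L (5, true)) = z9 at *
  generalize br (L (3, false)) (L (4, true)) (L (5, true)) = z10 at *
  generalize br (L (4, false)) (L (3, true)) (L (4, true)) = z11 at *
  generalize br (L (1, false)) (L (4, false)) (L (4, true)) = z12 at *
  generalize br (L (0, false)) (L (1, true)) (L (3, true)) = z13 at *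
  generalize br (L (0, false)) (L (3, true)) (L (5, true)) = z14 at *
  generalize br (L (0, false)) (L (4, false)) (L (3, true)) = z15 at *
  generalize br (L (0, true)) (L (3, true)) (L (4, true)) = z16 at *
  generalize br (L (0, false)) (L (0, true)) (L (3, true)) = z17 at *
  generalize br (L (0, true)) (L (3, true)) (L (5, true)) = z18 at *
  generalize br (L (1, true)) (L (3, true)) (L (5, true)) = z19 at *
  have m0 := mul_lt_mul'' t0 t1 (le_of_lt (mul_pos q0 q1)) (le_of_lt (mul_pos q4 q3))
  have m1 := mul_lt_mul'' m0 t2 (le_of_lt (mul_pos (mul_pos q0 q1) (mul_pos q4 q3))) (le_of_lt (mul_pos q6 q2))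
  have m2 := mul_lt_mul'' m1 t3 (le_of_lt (mul_pos (mul_pos (mul_pos q0 q1) (mul_pos q4 q3)) (mul_pos q6 q2))) (le_of_lt (mul_pos q8 q5))
  have m3 := mul_lt_mul'' m2 t4 (le_of_lt (mul_pos (mul_pos (mul_pos (mul_pos q0 q1) (mul_pos q4 q3)) (mul_pos q6 q2)) (mul_pos q8 q5))) (le_of_lt (mul_pos q9 q11))
  have m4 := mul_lt_mul'' m3 t5 (le_of_lt (mul_pos (mul_pos (mul_pos (mul_pos (mul_pos q0 q1) (mul_pos q4 q3)) (mul_pos q6 q2)) (mul_pos q8 q5)) (mul_pos q9 q11))) (le_of_lt (mul_pos q13 q10))
  have m5 := mul_lt_mul'' m4 t6 (le_of_lt (mul_pos (mul_pos (mul_pos (mul_pos (mul_pos (mul_pos q0 q1) (mul_pos q4 q3)) (mul_pos q6 q2)) (mul_pos q8 q5)) (mul_pos q9 q11)) (mul_pos q13 q10))) (le_of_lt (mul_pos q12 q14))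
  have m6 := mul_lt_mul'' m5 t7 (le_of_lt (mul_pos (mul_pos (mul_pos (mul_pos (mul_pos (mul_pos (mul_pos q0 q1) (mul_pos q4 q3)) (mul_pos q6 q2)) (mul_pos q8 q5)) (mul_pos q9 q11)) (mul_pos q13 q10)) (mul_pos q12 q14))) (le_of_lt (mul_pos q15 q16))
  have m7 := mul_lt_mul'' m6 t8 (le_of_lt (mul_pos (mul_pos (mul_pos (mul_pos (mul_pos (mul_pos (mul_pos (mul_pos q0 q1) (mul_pos q4 q3)) (mul_pos q6 q2)) (mul_pos q8 q5)) (mul_pos q9 q11)) (mul_pos q13 q10)) (mul_pos q12 q14)) (mul_pos q15 q16))) (le_of_lt (mul_pos q18 q7))
  have m8 := mul_lt_mul'' m7 t9 (le_of_lt (mul_pos (mul_pos (mul_pos (mul_pos (mul_pos (mul_pos (mul_pos (mul_pos (mul_pos q0 q1) (mul_pos q4 q3)) (mul_pos q6 q2)) (mul_pos q8 q5)) (mul_pos q9 q11)) (mul_pos q13 q10)) (mul_pos q12 q14)) (mul_pos q15 q16)) (mul_pos q18 q7))) (le_of_lt (mul_pos q17 q19))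
  refine absurd m8 (not_lt_of_ge (le_of_eq ?_))
  ring

end Pool.KN
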