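import Pool.Agent.Helper89.KN.CaseB

set_option autoImplicit false

namespace Pool.KN

theorem cl_1 (L : Fin 12 × Bool → ℝ × ℝ) (hg : Generic L) (hh : Hom L) (hb : Conv L) (hn : NoCert L)
    (h11 : X11 L) :
    False := by
  have s0 : 0 < dd (L (1, false)) (L (5, true)) (L (0, false)) (L (4, true)) (L (2, false)) (L (6, true)) := ((hh ![0, 1, 2, 4, 5, 6] ![0, 1, 2, 3, 4, 5] (by decide) (by decide)).2 (1, false) (4, true) (0, false) (3, true) (2, false) (5, true)).2 h11
  have d0 : dd (L (2, false)) (L (6, true)) (L (0, false)) (L (4, true)) (L (1, false)) (L (5, true)) < 0 := by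
    have e : dd (L (2, false)) (L (6, true)) (L (0, false)) (L (4, true)) (L (1, false)) (L (5, true)) = - dd (L (1, false)) (L (5, true)) (L (0, false)) (L (4, true)) (L (2, false)) (L (6, true)) := by unfold dd br; ring
    linarith
  have d1 : dd (L (2, false)) (L (6, true)) (L (0, false)) (L (4, true)) (L (5, true)) (L (3, false)) < 0 := by
    have e : dd (L (2, false)) (L (6, true)) (L (0, false)) (L (4, true)) (L (5, true)) (L (3, false)) = - (br (L (0, false)) (L (4, true)) (L (6, true))) * (br (L (2, false)) (L (3, false)) (L (5, true))) + - (br (L (0, false)) (L (2, false)) (L (4, true))) * (br (L (3, false)) (L (5, true)) (L (6, true))) := by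
      unfold dd br; ring
    have p0 := mul_pos (hb (0, false) (4, true) (6, true) (by decide) (by decide) (by decide) (by decide) (by decide)) (hb (2, false) (3, false) (5, true) (by decide) (by decide) (by decide) (by decide) (by decide))
    have p1 := mul_pos (hb (0, false) (2, false) (4, true) (by decide) (by decide) (by decide) (by decide) (by decide)) (hb (3, false) (5, true) (6, true) (by decide) (by decide) (by decide) (by decide) (by decide))
    linarith
  have d2 : dd (L (2, false)) (L (6, true)) (L (0, false)) (L (4, true)) (L (3, false)) (L (1, false)) < 0 := by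
    have e : dd (L (2, false)) (L (6, true)) (L (0, false)) (L (4, true)) (L (3, false)) (L (1, false)) = - (br (L (0, false)) (L (2, false)) (L (6, true))) * (br (L (1, false)) (L (3, false)) (L (4, true))) + - (br (L (2, false)) (L (4, true)) (L (6, true))) * (br (L (0, false)) (L (1, false)) (L (3, false))) := by
      unfold dd br; ring
    have p0 := mul_pos (hb (0, false) (2, false) (6, true) (by decide) (by decide) (by decide) (by decide) (by decide)) (hb (1, false) (3, false) (4, true) (by decide) (by decide) (by decide) (by decide) (by decide))
    have p1 := mul_pos (hb (2, false) (4, true) (6, true) (by decide) (by decide) (by decide) (by decide) (by decide)) (hb (0, false) (1, false) (3, false) (by decide) (by decide) (by decide) (by decide) (by decide))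
    linarith
  have d3 : dd (L (2, false)) (L (6, true)) (L (0, false)) (L (4, true)) (L (5, true)) (L (3, true)) < 0 := by
    have e : dd (L (2, false)) (L (6, true)) (L (0, false)) (L (4, true)) (L (5, true)) (L (3, true)) = - (br (L (0, false)) (L (4, true)) (L (6, true))) * (br (L (2, false)) (L (3, true)) (L (5, true))) + - (br (L (0, false)) (L (2, false)) (L (4, true))) * (br (L (3, true)) (L (5, true)) (L (6, true))) := by
      unfold dd br; ring
    have p0 := mul_pos (hb (0, false) (4, true) (6, true) (by decide) (by decide) (by decide) (by decide) (by decide)) (hb (2, false) (3, true) (5, true) (by decide) (by decide) (by decide) (by decide) (by decide))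
    have p1 := mul_pos (hb (0, false) (2, false) (4, true) (by decide) (by decide) (by decide) (by decide) (by decide)) (hb (3, true) (5, true) (6, true) (by decide) (by decide) (by decide) (by decide) (by decide))
    linarith
  have d4 : dd (L (2, false)) (L (6, true)) (L (0, false)) (L (4, true)) (L (3, true)) (L (1, false)) < 0 := by
    have e : dd (L (2, false)) (L (6, true)) (L (0, false)) (L (4, true)) (L (3, true)) (L (1, false)) = - (br (L (0, false)) (L (2, false)) (L (6, true))) * (br (L (1, false)) (L (3, true)) (L (4, true))) + - (br (L (2, false)) (L (4, true)) (L (6, true))) * (br (L (0, false)) (L (1, false)) (L (3, true))) := by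
      unfold dd br; ring
    have p0 := mul_pos (hb (0, false) (2, false) (6, true) (by decide) (by decide) (by decide) (by decide) (by decide)) (hb (1, false) (3, true) (4, true) (by decide) (by decide) (by decide) (by decide) (by decide))
    have p1 := mul_pos (hb (2, false) (4, true) (6, true) (by decide) (by decide) (by decide) (by decide) (by decide)) (hb (0, false) (1, false) (3, true) (by decide) (by decide) (by decide) (by decide) (by decide))
    linarith
  refine hn.cross (0, false) (4, true) (2, false) (6, true) 1 5 3 false true (by decide) (by decide)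
    (by decide) ?_ (cert_cross_neg _ _ _ _ _ _ _ _ ?_ d0 d1 d2 d3 d4)
  all_goals
    have e1 : br (L (2, false)) (L (6, true)) (L (0, false)) = (br (L (0, false)) (L (2, false)) (L (6, true))) := by unfold br; ring
    have e2 : br (L (2, false)) (L (6, true)) (L (4, true)) = -(br (L (2, false)) (L (4, true)) (L (6, true))) := by unfold br; ring
    have g1 := (hb (0, false) (2, false) (6, true) (by decide) (by decide) (by decide) (by decide) (by decide))
    have g2 := (hb (2, false) (4, true) (6, true) (by decide) (by decide) (by decide) (by decide) (by decide))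
    rw [e1, e2]
    nlinarith [mul_pos g1 g2]

theorem cl_2 (L : Fin 12 × Bool → ℝ × ℝ) (hg : Generic L) (hh : Hom L) (hb : Conv L) (hn : NoCert L)
    (h14 : ¬ X14 L) :
    False := by
  have s0 : dd (L (1, true)) (L (5, false)) (L (0, true)) (L (3, true)) (L (2, true)) (L (6, false)) < 0 := by
    have hne := dd_ne_zero hg (1, true) (5, false) (0, true) (3, true) (2, true) (6, false) (by decide)
    have hi : ¬ 0 < dd (L (1, true)) (L (5, false)) (L (0, true)) (L (3, true)) (L (2, true)) (L (6, false)) := fun h => h14 (((hh ![0, 1, 2, 3, 5, 6] ![0, 1, 2, 3, 4, 5] (by decide) (by decide)).2 (1, true) (4, false) (0, true) (3, true) (2, true) (5, false)).1 h)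
    exact lt_of_le_of_ne (not_lt.1 hi) hne
  have d0 : dd (L (1, true)) (L (5, false)) (L (0, true)) (L (3, true)) (L (2, true)) (L (6, false)) < 0 := by
    have e : dd (L (1, true)) (L (5, false)) (L (0, true)) (L (3, true)) (L (2, true)) (L (6, false)) = dd (L (1, true)) (L (5, false)) (L (0, true)) (L (3, true)) (L (2, true)) (L (6, false)) := by unfold dd br; ring
    linarith
  have d1 : dd (L (1, true)) (L (5, false)) (L (0, true)) (L (3, true)) (L (6, false)) (L (4, false)) < 0 := by
    have e : dd (L (1, true)) (L (5, false)) (L (0, true)) (L (3, true)) (L (6, false)) (L (4, false)) = - (br (L (5, false)) (L (0, true)) (L (1, true))) * (br (L (4, false)) (L (6, false)) (L (3, true))) + - (br (L (5, false)) (L (1, true)) (L (3, true))) * (br (L (4, false)) (L (6, false)) (L (0, true))) := by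
      unfold dd br; ring
    have p0 := mul_pos (hb (5, false) (0, true) (1, true) (by decide) (by decide) (by decide) (by decide) (by decide)) (hb (4, false) (6, false) (3, true) (by decide) (by decide) (by decide) (by decide) (by decide))
    have p1 := mul_pos (hb (5, false) (1, true) (3, true) (by decide) (by decide) (by decide) (by decide) (by decide)) (hb (4, false) (6, false) (0, true) (by decide) (by decide) (by decide) (by decide) (by decide))
    linarith
  have d2 : dd (L (1, true)) (L (5, false)) (L (0, true)) (L (3, true)) (L (4, false)) (L (2, true)) < 0 := by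
    have e : dd (L (1, true)) (L (5, false)) (L (0, true)) (L (3, true)) (L (4, false)) (L (2, true)) = - (br (L (5, false)) (L (0, true)) (L (3, true))) * (br (L (4, false)) (L (1, true)) (L (2, true))) + - (br (L (0, true)) (L (1, true)) (L (3, true))) * (br (L (4, false)) (L (5, false)) (L (2, true))) := by
      unfold dd br; ring
    have p0 := mul_pos (hb (5, false) (0, true) (3, true) (by decide) (by decide) (by decide) (by decide) (by decide)) (hb (4, false) (1, true) (2, true) (by decide) (by decide) (by decide) (by decide) (by decide))
    have p1 := mul_pos (hb (0, true) (1, true) (3, true) (by decide) (by decide) (by decide) (by decide) (by decide)) (hb (4, false) (5, false) (2, true) (by decide) (by decide) (by decide) (by decide) (by decide))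
    linarith
  have d3 : dd (L (1, true)) (L (5, false)) (L (0, true)) (L (3, true)) (L (6, false)) (L (4, true)) < 0 := by
    have e : dd (L (1, true)) (L (5, false)) (L (0, true)) (L (3, true)) (L (6, false)) (L (4, true)) = - (br (L (5, false)) (L (0, true)) (L (1, true))) * (br (L (6, false)) (L (3, true)) (L (4, true))) + - (br (L (5, false)) (L (1, true)) (L (3, true))) * (br (L (6, false)) (L (0, true)) (L (4, true))) := by
      unfold dd br; ring
    have p0 := mul_pos (hb (5, false) (0, true) (1, true) (by decide) (by decide) (by decide) (by decide) (by decide)) (hb (6, false) (3, true) (4, true) (by decide) (by decide) (by decide) (by decide) (by decide))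
    have p1 := mul_pos (hb (5, false) (1, true) (3, true) (by decide) (by decide) (by decide) (by decide) (by decide)) (hb (6, false) (0, true) (4, true) (by decide) (by decide) (by decide) (by decide) (by decide))
    linarith
  have d4 : dd (L (1, true)) (L (5, false)) (L (0, true)) (L (3, true)) (L (4, true)) (L (2, true)) < 0 := by
    have e : dd (L (1, true)) (L (5, false)) (L (0, true)) (L (3, true)) (L (4, true)) (L (2, true)) = - (br (L (5, false)) (L (0, true)) (L (3, true))) * (br (L (1, true)) (L (2, true)) (L (4, true))) + - (br (L (0, true)) (L (1, true)) (L (3, true))) * (br (L (5, false)) (L (2, true)) (L (4, true))) := by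
      unfold dd br; ring
    have p0 := mul_pos (hb (5, false) (0, true) (3, true) (by decide) (by decide) (by decide) (by decide) (by decide)) (hb (1, true) (2, true) (4, true) (by decide) (by decide) (by decide) (by decide) (by decide))
    have p1 := mul_pos (hb (0, true) (1, true) (3, true) (by decide) (by decide) (by decide) (by decide) (by decide)) (hb (5, false) (2, true) (4, true) (by decide) (by decide) (by decide) (by decide) (by decide))
    linarith
  refine hn.cross (0, true) (3, true) (1, true) (5, false) 2 6 4 true false (by decide) (by decide)
    (by decide) ?_ (cert_cross_neg _ _ _ _ _ _ _ _ ?_ d0 d1 d2 d3 d4)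
  all_goals
    have e1 : br (L (1, true)) (L (5, false)) (L (0, true)) = (br (L (5, false)) (L (0, true)) (L (1, true))) := by unfold br; ring
    have e2 : br (L (1, true)) (L (5, false)) (L (3, true)) = -(br (L (5, false)) (L (1, true)) (L (3, true))) := by unfold br; ring
    have g1 := (hb (5, false) (0, true) (1, true) (by decide) (by decide) (by decide) (by decide) (by decide))
    have g2 := (hb (5, false) (1, true) (3, true) (by decide) (by decide) (by decide) (by decide) (by decide))
    rw [e1, e2]
    nlinarith [mul_pos g1 g2]

theorem cl_3 (L : Fin 12 × Bool → ℝ × ℝ) (hg : Generic L) (hh : Hom L) (hb : Conv L) (hn : NoCert L)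
    (h14 : X14 L) (h13 : X13 L) :
    False := by
  have d0 : dd (L (2, true)) (L (6, false)) (L (1, true)) (L (4, false)) (L (0, true)) (L (5, false)) < 0 := by
    have e : dd (L (2, true)) (L (6, false)) (L (1, true)) (L (4, false)) (L (0, true)) (L (5, false)) = - (br (L (6, false)) (L (1, true)) (L (2, true))) * (br (L (4, false)) (L (5, false)) (L (0, true))) + - (br (L (4, false)) (L (6, false)) (L (2, true))) * (br (L (5, false)) (L (0, true)) (L (1, true))) := by
      unfold dd br; ring
    have p0 := mul_pos (hb (6, false) (1, true) (2, true) (by decide) (by decide) (by decide) (by decide) (by decide)) (hb (4, false) (5, false) (0, true) (by decide) (by decide) (by decide) (by decide) (by decide))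
    have p1 := mul_pos (hb (4, false) (6, false) (2, true) (by decide) (by decide) (by decide) (by decide) (by decide)) (hb (5, false) (0, true) (1, true) (by decide) (by decide) (by decide) (by decide) (by decide))
    linarith
  have d1 : dd (L (2, true)) (L (6, false)) (L (1, true)) (L (4, false)) (L (5, false)) (L (3, false)) < 0 := by
    have e : dd (L (2, true)) (L (6, false)) (L (1, true)) (L (4, false)) (L (5, false)) (L (3, false)) = - (br (L (4, false)) (L (6, false)) (L (1, true))) * (br (L (3, false)) (L (5, false)) (L (2, true))) + - (br (L (4, false)) (L (1, true)) (L (2, true))) * (br (L (3, false)) (L (5, false)) (L (6, false))) := by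
      unfold dd br; ring
    have p0 := mul_pos (hb (4, false) (6, false) (1, true) (by decide) (by decide) (by decide) (by decide) (by decide)) (hb (3, false) (5, false) (2, true) (by decide) (by decide) (by decide) (by decide) (by decide))
    have p1 := mul_pos (hb (4, false) (1, true) (2, true) (by decide) (by decide) (by decide) (by decide) (by decide)) (hb (3, false) (5, false) (6, false) (by decide) (by decide) (by decide) (by decide) (by decide))
    linarith
  have s2 : 0 < dd (L (1, true)) (L (4, false)) (L (0, true)) (L (3, false)) (L (2, true)) (L (6, false)) := ((hh ![0, 1, 2, 3, 4, 6] ![0, 1, 2, 3, 4, 5] (by decide) (by decide)).2 (1, true) (4, false) (0, true) (3, false) (2, true) (5, false)).2 h13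
  have d2 : dd (L (2, true)) (L (6, false)) (L (1, true)) (L (4, false)) (L (3, false)) (L (0, true)) < 0 := by
    have e : dd (L (2, true)) (L (6, false)) (L (1, true)) (L (4, false)) (L (3, false)) (L (0, true)) = - dd (L (1, true)) (L (4, false)) (L (0, true)) (L (3, false)) (L (2, true)) (L (6, false)) := by unfold dd br; ring
    linarith
  have d3 : dd (L (2, true)) (L (6, false)) (L (1, true)) (L (4, false)) (L (5, false)) (L (3, true)) < 0 := by
    have e : dd (L (2, true)) (L (6, false)) (L (1, true)) (L (4, false)) (L (5, false)) (L (3, true)) = - (br (L (4, false)) (L (6, false)) (L (1, true))) * (br (L (5, false)) (L (2, true)) (L (3, true))) + - (br (L (4, false)) (L (1, true)) (L (2, true))) * (br (L (5, false)) (L (6, false)) (L (3, true))) := by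
      unfold dd br; ring
    have p0 := mul_pos (hb (4, false) (6, false) (1, true) (by decide) (by decide) (by decide) (by decide) (by decide)) (hb (5, false) (2, true) (3, true) (by decide) (by decide) (by decide) (by decide) (by decide))
    have p1 := mul_pos (hb (4, false) (1, true) (2, true) (by decide) (by decide) (by decide) (by decide) (by decide)) (hb (5, false) (6, false) (3, true) (by decide) (by decide) (by decide) (by decide) (by decide))
    linarith
  have s4 : 0 < dd (L (1, true)) (L (4, false)) (L (0, true)) (L (3, true)) (L (2, true)) (L (6, false)) := ((hh ![0, 1, 2, 3, 4, 6] ![0, 1, 2, 3, 4, 5] (by decide) (by decide)).2 (1, true) (4, false) (0, true) (3, true) (2, true) (5, false)).2 h14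
  have d4 : dd (L (2, true)) (L (6, false)) (L (1, true)) (L (4, false)) (L (3, true)) (L (0, true)) < 0 := by
    have e : dd (L (2, true)) (L (6, false)) (L (1, true)) (L (4, false)) (L (3, true)) (L (0, true)) = - dd (L (1, true)) (L (4, false)) (L (0, true)) (L (3, true)) (L (2, true)) (L (6, false)) := by unfold dd br; ring
    linarith
  refine hn.cross (1, true) (4, false) (2, true) (6, false) 0 5 3 true false (by decide) (by decide)
    (by decide) ?_ (cert_cross_neg _ _ _ _ _ _ _ _ ?_ d0 d1 d2 d3 d4)
  all_goals
    have e1 : br (L (2, true)) (L (6, false)) (L (1, true)) = (br (L (6, false)) (L (1, true)) (L (2, true))) := by unfold br; ring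
    have e2 : br (L (2, true)) (L (6, false)) (L (4, false)) = -(br (L (4, false)) (L (6, false)) (L (2, true))) := by unfold br; ring
    have g1 := (hb (6, false) (1, true) (2, true) (by decide) (by decide) (by decide) (by decide) (by decide))
    have g2 := (hb (4, false) (6, false) (2, true) (by decide) (by decide) (by decide) (by decide) (by decide))
    rw [e1, e2]
    nlinarith [mul_pos g1 g2]

theorem cl_4 (L : Fin 12 × Bool → ℝ × ℝ) (hg : Generic L) (hh : Hom L) (hb : Conv L) (hn : NoCert L)
    (h12 : X12 L) (h13 : ¬ X13 L) :
    False := by
  have d0 : dd (L (2, true)) (L (5, false)) (L (0, true)) (L (3, false)) (L (1, true)) (L (6, false)) < 0 := by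
    have e : dd (L (2, true)) (L (5, false)) (L (0, true)) (L (3, false)) (L (1, true)) (L (6, false)) = - (br (L (3, false)) (L (5, false)) (L (0, true))) * (br (L (6, false)) (L (1, true)) (L (2, true))) + - (br (L (3, false)) (L (0, true)) (L (2, true))) * (br (L (5, false)) (L (6, false)) (L (1, true))) := by
      unfold dd br; ring
    have p0 := mul_pos (hb (3, false) (5, false) (0, true) (by decide) (by decide) (by decide) (by decide) (by decide)) (hb (6, false) (1, true) (2, true) (by decide) (by decide) (by decide) (by decide) (by decide))
    have p1 := mul_pos (hb (3, false) (0, true) (2, true) (by decide) (by decide) (by decide) (by decide) (by decide)) (hb (5, false) (6, false) (1, true) (by decide) (by decide) (by decide) (by decide) (by decide))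
    linarith
  have d1 : dd (L (2, true)) (L (5, false)) (L (0, true)) (L (3, false)) (L (6, false)) (L (4, false)) < 0 := by
    have e : dd (L (2, true)) (L (5, false)) (L (0, true)) (L (3, false)) (L (6, false)) (L (4, false)) = - (br (L (5, false)) (L (0, true)) (L (2, true))) * (br (L (3, false)) (L (4, false)) (L (6, false))) + - (br (L (3, false)) (L (5, false)) (L (2, true))) * (br (L (4, false)) (L (6, false)) (L (0, true))) := by
      unfold dd br; ring
    have p0 := mul_pos (hb (5, false) (0, true) (2, true) (by decide) (by decide) (by decide) (by decide) (by decide)) (hb (3, false) (4, false) (6, false) (by decide) (by decide) (by decide) (by decide) (by decide))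
    have p1 := mul_pos (hb (3, false) (5, false) (2, true) (by decide) (by decide) (by decide) (by decide) (by decide)) (hb (4, false) (6, false) (0, true) (by decide) (by decide) (by decide) (by decide) (by decide))
    linarith
  have s2 : dd (L (1, true)) (L (4, false)) (L (0, true)) (L (3, false)) (L (2, true)) (L (5, false)) < 0 := by
    have hne := dd_ne_zero hg (1, true) (4, false) (0, true) (3, false) (2, true) (5, false) (by decide)
    have hi : ¬ 0 < dd (L (1, true)) (L (4, false)) (L (0, true)) (L (3, false)) (L (2, true)) (L (5, false)) := fun h => h13 (((hh ![0, 1, 2, 3, 4, 5] ![0, 1, 2, 3, 4, 5] (by decide) (by decide)).2 (1, true) (4, false) (0, true) (3, false) (2, true) (5, false)).1 h)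
    exact lt_of_le_of_ne (not_lt.1 hi) hne
  have d2 : dd (L (2, true)) (L (5, false)) (L (0, true)) (L (3, false)) (L (4, false)) (L (1, true)) < 0 := by
    have e : dd (L (2, true)) (L (5, false)) (L (0, true)) (L (3, false)) (L (4, false)) (L (1, true)) = dd (L (1, true)) (L (4, false)) (L (0, true)) (L (3, false)) (L (2, true)) (L (5, false)) := by unfold dd br; ring
    linarith
  have s3 : 0 < dd (L (2, true)) (L (5, false)) (L (0, true)) (L (3, false)) (L (4, true)) (L (6, false)) := ((hh ![0, 2, 3, 4, 5, 6] ![0, 1, 2, 3, 4, 5] (by decide) (by decide)).2 (1, true) (4, false) (0, true) (2, false) (3, true) (5, false)).2 h12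
  have d3 : dd (L (2, true)) (L (5, false)) (L (0, true)) (L (3, false)) (L (6, false)) (L (4, true)) < 0 := by
    have e : dd (L (2, true)) (L (5, false)) (L (0, true)) (L (3, false)) (L (6, false)) (L (4, true)) = - dd (L (2, true)) (L (5, false)) (L (0, true)) (L (3, false)) (L (4, true)) (L (6, false)) := by unfold dd br; ring
    linarith
  have d4 : dd (L (2, true)) (L (5, false)) (L (0, true)) (L (3, false)) (L (4, true)) (L (1, true)) < 0 := by
    have e : dd (L (2, true)) (L (5, false)) (L (0, true)) (L (3, false)) (L (4, true)) (L (1, true)) = - (br (L (5, false)) (L (0, true)) (L (2, true))) * (br (L (3, false)) (L (1, true)) (L (4, true))) + - (br (L (3, false)) (L (5, false)) (L (2, true))) * (br (L (0, true)) (L (1, true)) (L (4, true))) := by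
      unfold dd br; ring
    have p0 := mul_pos (hb (5, false) (0, true) (2, true) (by decide) (by decide) (by decide) (by decide) (by decide)) (hb (3, false) (1, true) (4, true) (by decide) (by decide) (by decide) (by decide) (by decide))
    have p1 := mul_pos (hb (3, false) (5, false) (2, true) (by decide) (by decide) (by decide) (by decide) (by decide)) (hb (0, true) (1, true) (4, true) (by decide) (by decide) (by decide) (by decide) (by decide))
    linarith
  refine hn.cross (0, true) (3, false) (2, true) (5, false) 1 6 4 true false (by decide) (by decide)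
    (by decide) ?_ (cert_cross_neg _ _ _ _ _ _ _ _ ?_ d0 d1 d2 d3 d4)
  all_goals
    have e1 : br (L (2, true)) (L (5, false)) (L (0, true)) = (br (L (5, false)) (L (0, true)) (L (2, true))) := by unfold br; ring
    have e2 : br (L (2, true)) (L (5, false)) (L (3, false)) = -(br (L (3, false)) (L (5, false)) (L (2, true))) := by unfold br; ring
    have g1 := (hb (5, false) (0, true) (2, true) (by decide) (by decide) (by decide) (by decide) (by decide))
    have g2 := (hb (3, false) (5, false) (2, true) (by decide) (by decide) (by decide) (by decide) (by decide))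
    rw [e1, e2]
    nlinarith [mul_pos g1 g2]

theorem cl_5 (L : Fin 12 × Bool → ℝ × ℝ) (hg : Generic L) (hh : Hom L) (hb : Conv L) (hn : NoCert L)
    (h10 : X10 L) (h11 : ¬ X11 L) :
    False := by
  have d0 : dd (L (2, false)) (L (5, true)) (L (0, false)) (L (3, true)) (L (1, false)) (L (6, true)) < 0 := by
    have e : dd (L (2, false)) (L (5, true)) (L (0, false)) (L (3, true)) (L (1, false)) (L (6, true)) = - (br (L (0, false)) (L (3, true)) (L (5, true))) * (br (L (1, false)) (L (2, false)) (L (6, true))) + - (br (L (0, false)) (L (2, false)) (L (3, true))) * (br (L (1, false)) (L (5, true)) (L (6, true))) := by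
      unfold dd br; ring
    have p0 := mul_pos (hb (0, false) (3, true) (5, true) (by decide) (by decide) (by decide) (by decide) (by decide)) (hb (1, false) (2, false) (6, true) (by decide) (by decide) (by decide) (by decide) (by decide))
    have p1 := mul_pos (hb (0, false) (2, false) (3, true) (by decide) (by decide) (by decide) (by decide) (by decide)) (hb (1, false) (5, true) (6, true) (by decide) (by decide) (by decide) (by decide) (by decide))
    linarith
  have s1 : 0 < dd (L (2, false)) (L (5, true)) (L (0, false)) (L (3, true)) (L (4, false)) (L (6, true)) := ((hh ![0, 2, 3, 4, 5, 6] ![0, 1, 2, 3, 4, 5] (by decide) (by decide)).2 (1, false) (4, true) (0, false) (2, true) (3, false) (5, true)).2 h10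
  have d1 : dd (L (2, false)) (L (5, true)) (L (0, false)) (L (3, true)) (L (6, true)) (L (4, false)) < 0 := by
    have e : dd (L (2, false)) (L (5, true)) (L (0, false)) (L (3, true)) (L (6, true)) (L (4, false)) = - dd (L (2, false)) (L (5, true)) (L (0, false)) (L (3, true)) (L (4, false)) (L (6, true)) := by unfold dd br; ring
    linarith
  have d2 : dd (L (2, false)) (L (5, true)) (L (0, false)) (L (3, true)) (L (4, false)) (L (1, false)) < 0 := by
    have e : dd (L (2, false)) (L (5, true)) (L (0, false)) (L (3, true)) (L (4, false)) (L (1, false)) = - (br (L (0, false)) (L (2, false)) (L (5, true))) * (br (L (1, false)) (L (4, false)) (L (3, true))) + - (br (L (2, false)) (L (3, true)) (L (5, true))) * (br (L (0, false)) (L (1, false)) (L (4, false))) := by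
      unfold dd br; ring
    have p0 := mul_pos (hb (0, false) (2, false) (5, true) (by decide) (by decide) (by decide) (by decide) (by decide)) (hb (1, false) (4, false) (3, true) (by decide) (by decide) (by decide) (by decide) (by decide))
    have p1 := mul_pos (hb (2, false) (3, true) (5, true) (by decide) (by decide) (by decide) (by decide) (by decide)) (hb (0, false) (1, false) (4, false) (by decide) (by decide) (by decide) (by decide) (by decide))
    linarith
  have d3 : dd (L (2, false)) (L (5, true)) (L (0, false)) (L (3, true)) (L (6, true)) (L (4, true)) < 0 := by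
    have e : dd (L (2, false)) (L (5, true)) (L (0, false)) (L (3, true)) (L (6, true)) (L (4, true)) = - (br (L (0, false)) (L (2, false)) (L (5, true))) * (br (L (3, true)) (L (4, true)) (L (6, true))) + - (br (L (2, false)) (L (3, true)) (L (5, true))) * (br (L (0, false)) (L (4, true)) (L (6, true))) := by
      unfold dd br; ring
    have p0 := mul_pos (hb (0, false) (2, false) (5, true) (by decide) (by decide) (by decide) (by decide) (by decide)) (hb (3, true) (4, true) (6, true) (by decide) (by decide) (by decide) (by decide) (by decide))
    have p1 := mul_pos (hb (2, false) (3, true) (5, true) (by decide) (by decide) (by decide) (by decide) (by decide)) (hb (0, false) (4, true) (6, true) (by decide) (by decide) (by decide) (by decide) (by decide))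
    linarith
  have s4 : dd (L (1, false)) (L (4, true)) (L (0, false)) (L (3, true)) (L (2, false)) (L (5, true)) < 0 := by
    have hne := dd_ne_zero hg (1, false) (4, true) (0, false) (3, true) (2, false) (5, true) (by decide)
    have hi : ¬ 0 < dd (L (1, false)) (L (4, true)) (L (0, false)) (L (3, true)) (L (2, false)) (L (5, true)) := fun h => h11 (((hh ![0, 1, 2, 3, 4, 5] ![0, 1, 2, 3, 4, 5] (by decide) (by decide)).2 (1, false) (4, true) (0, false) (3, true) (2, false) (5, true)).1 h)
    exact lt_of_le_of_ne (not_lt.1 hi) hne
  have d4 : dd (L (2, false)) (L (5, true)) (L (0, false)) (L (3, true)) (L (4, true)) (L (1, false)) < 0 := by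
    have e : dd (L (2, false)) (L (5, true)) (L (0, false)) (L (3, true)) (L (4, true)) (L (1, false)) = dd (L (1, false)) (L (4, true)) (L (0, false)) (L (3, true)) (L (2, false)) (L (5, true)) := by unfold dd br; ring
    linarith
  refine hn.cross (0, false) (3, true) (2, false) (5, true) 1 6 4 false true (by decide) (by decide)
    (by decide) ?_ (cert_cross_neg _ _ _ _ _ _ _ _ ?_ d0 d1 d2 d3 d4)
  all_goals
    have e1 : br (L (2, false)) (L (5, true)) (L (0, false)) = (br (L (0, false)) (L (2, false)) (L (5, true))) := by unfold br; ring
    have e2 : br (L (2, false)) (L (5, true)) (L (3, true)) = -(br (L (2, false)) (L (3, true)) (L (5, true))) := by unfold br; ring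
    have g1 := (hb (0, false) (2, false) (5, true) (by decide) (by decide) (by decide) (by decide) (by decide))
    have g2 := (hb (2, false) (3, true) (5, true) (by decide) (by decide) (by decide) (by decide) (by decide))
    rw [e1, e2]
    nlinarith [mul_pos g1 g2]

theorem cl_6 (L : Fin 12 × Bool → ℝ × ℝ) (hg : Generic L) (hh : Hom L) (hb : Conv L) (hn : NoCert L)
    (h9 : X9 L) (h5 : ¬ X5 L) :
    False := by
  have s0 : 0 < dd (L (2, true)) (L (5, true)) (L (1, true)) (L (4, true)) (L (3, false)) (L (3, true)) := ((hh ![1, 2, 3, 4, 5, 11] ![0, 1, 2, 3, 4, 11] (by decide) (by decide)).2 (1, true) (4, true) (0, true) (3, true) (2, false) (2, true)).2 h9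
  have d0 : dd (L (3, false)) (L (3, true)) (L (1, true)) (L (4, true)) (L (2, true)) (L (5, true)) < 0 := by
    have e : dd (L (3, false)) (L (3, true)) (L (1, true)) (L (4, true)) (L (2, true)) (L (5, true)) = - dd (L (2, true)) (L (5, true)) (L (1, true)) (L (4, true)) (L (3, false)) (L (3, true)) := by unfold dd br; ring
    linarith
  have d1 : dd (L (3, false)) (L (3, true)) (L (1, true)) (L (4, true)) (L (5, true)) (L (0, false)) < 0 := by
    have e : dd (L (3, false)) (L (3, true)) (L (1, true)) (L (4, true)) (L (5, true)) (L (0, false)) = - (br (L (1, true)) (L (3, true)) (L (4, true))) * (br (L (0, false)) (L (3, false)) (L (5, true))) + - (br (L (3, false)) (L (1, true)) (L (4, true))) * (br (L (0, false)) (L (3, true)) (L (5, true))) := by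
      unfold dd br; ring
    have p0 := mul_pos (hb (1, true) (3, true) (4, true) (by decide) (by decide) (by decide) (by decide) (by decide)) (hb (0, false) (3, false) (5, true) (by decide) (by decide) (by decide) (by decide) (by decide))
    have p1 := mul_pos (hb (3, false) (1, true) (4, true) (by decide) (by decide) (by decide) (by decide) (by decide)) (hb (0, false) (3, true) (5, true) (by decide) (by decide) (by decide) (by decide) (by decide))
    linarith
  have s2 : dd (L (1, true)) (L (4, true)) (L (0, false)) (L (2, true)) (L (3, false)) (L (3, true)) < 0 := by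
    have hne := dd_ne_zero hg (1, true) (4, true) (0, false) (2, true) (3, false) (3, true) (by decide)
    have hi : ¬ 0 < dd (L (1, true)) (L (4, true)) (L (0, false)) (L (2, true)) (L (3, false)) (L (3, true)) := fun h => h5 (((hh ![0, 1, 2, 3, 4, 11] ![0, 1, 2, 3, 4, 11] (by decide) (by decide)).2 (1, true) (4, true) (0, false) (2, true) (3, false) (3, true)).1 h)
    exact lt_of_le_of_ne (not_lt.1 hi) hne
  have d2 : dd (L (3, false)) (L (3, true)) (L (1, true)) (L (4, true)) (L (0, false)) (L (2, true)) < 0 := by
    have e : dd (L (3, false)) (L (3, true)) (L (1, true)) (L (4, true)) (L (0, false)) (L (2, true)) = dd (L (1, true)) (L (4, true)) (L (0, false)) (L (2, true)) (L (3, false)) (L (3, true)) := by unfold dd br; ring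
    linarith
  have d3 : dd (L (3, false)) (L (3, true)) (L (1, true)) (L (4, true)) (L (5, true)) (L (0, true)) < 0 := by
    have e : dd (L (3, false)) (L (3, true)) (L (1, true)) (L (4, true)) (L (5, true)) (L (0, true)) = - (br (L (3, false)) (L (1, true)) (L (3, true))) * (br (L (0, true)) (L (4, true)) (L (5, true))) + - (br (L (3, false)) (L (3, true)) (L (4, true))) * (br (L (0, true)) (L (1, true)) (L (5, true))) := by
      unfold dd br; ring
    have p0 := mul_pos (hb (3, false) (1, true) (3, true) (by decide) (by decide) (by decide) (by decide) (by decide)) (hb (0, true) (4, true) (5, true) (by decide) (by decide) (by decide) (by decide) (by decide))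
    have p1 := mul_pos (hb (3, false) (3, true) (4, true) (by decide) (by decide) (by decide) (by decide) (by decide)) (hb (0, true) (1, true) (5, true) (by decide) (by decide) (by decide) (by decide) (by decide))
    linarith
  have d4 : dd (L (3, false)) (L (3, true)) (L (1, true)) (L (4, true)) (L (0, true)) (L (2, true)) < 0 := by
    have e : dd (L (3, false)) (L (3, true)) (L (1, true)) (L (4, true)) (L (0, true)) (L (2, true)) = - (br (L (1, true)) (L (3, true)) (L (4, true))) * (br (L (3, false)) (L (0, true)) (L (2, true))) + - (br (L (3, false)) (L (1, true)) (L (4, true))) * (br (L (0, true)) (L (2, true)) (L (3, true))) := by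
      unfold dd br; ring
    have p0 := mul_pos (hb (1, true) (3, true) (4, true) (by decide) (by decide) (by decide) (by decide) (by decide)) (hb (3, false) (0, true) (2, true) (by decide) (by decide) (by decide) (by decide) (by decide))
    have p1 := mul_pos (hb (3, false) (1, true) (4, true) (by decide) (by decide) (by decide) (by decide) (by decide)) (hb (0, true) (2, true) (3, true) (by decide) (by decide) (by decide) (by decide) (by decide))
    linarith
  refine hn.cross (1, true) (4, true) (3, false) (3, true) 2 5 0 true true (by decide) (by decide)
    (by decide) ?_ (cert_cross_neg _ _ _ _ _ _ _ _ ?_ d0 d1 d2 d3 d4)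
  all_goals
    have e1 : br (L (3, false)) (L (3, true)) (L (1, true)) = -(br (L (3, false)) (L (1, true)) (L (3, true))) := by unfold br; ring
    have e2 : br (L (3, false)) (L (3, true)) (L (4, true)) = (br (L (3, false)) (L (3, true)) (L (4, true))) := by unfold br; ring
    have g1 := (hb (3, false) (1, true) (3, true) (by decide) (by decide) (by decide) (by decide) (by decide))
    have g2 := (hb (3, false) (3, true) (4, true) (by decide) (by decide) (by decide) (by decide) (by decide))
    rw [e1, e2]
    nlinarith [mul_pos g1 g2]

theorem cl_7 (L : Fin 12 × Bool → ℝ × ℝ) (hg : Generic L) (hh : Hom L) (hb : Conv L) (hn : NoCert L)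
    (h4 : X4 L) (h3 : ¬ X3 L) :
    False := by
  have d0 : 0 < dd (L (2, false)) (L (4, true)) (L (0, false)) (L (2, true)) (L (3, true)) (L (5, true)) := by
    have e : dd (L (2, false)) (L (4, true)) (L (0, false)) (L (2, true)) (L (3, true)) (L (5, true)) = (br (L (0, false)) (L (2, false)) (L (4, true))) * (br (L (2, true)) (L (3, true)) (L (5, true))) + (br (L (2, false)) (L (2, true)) (L (4, true))) * (br (L (0, false)) (L (3, true)) (L (5, true))) := by
      unfold dd br; ring
    have p0 := mul_pos (hb (0, false) (2, false) (4, true) (by decide) (by decide) (by decide) (by decide) (by decide)) (hb (2, true) (3, true) (5, true) (by decide) (by decide) (by decide) (by decide) (by decide))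
    have p1 := mul_pos (hb (2, false) (2, true) (4, true) (by decide) (by decide) (by decide) (by decide) (by decide)) (hb (0, false) (3, true) (5, true) (by decide) (by decide) (by decide) (by decide) (by decide))
    linarith
  have d1 : 0 < dd (L (2, false)) (L (4, true)) (L (0, false)) (L (2, true)) (L (5, true)) (L (1, false)) := by
    have e : dd (L (2, false)) (L (4, true)) (L (0, false)) (L (2, true)) (L (5, true)) (L (1, false)) = (br (L (0, false)) (L (2, true)) (L (4, true))) * (br (L (1, false)) (L (2, false)) (L (5, true))) + (br (L (0, false)) (L (2, false)) (L (2, true))) * (br (L (1, false)) (L (4, true)) (L (5, true))) := by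
      unfold dd br; ring
    have p0 := mul_pos (hb (0, false) (2, true) (4, true) (by decide) (by decide) (by decide) (by decide) (by decide)) (hb (1, false) (2, false) (5, true) (by decide) (by decide) (by decide) (by decide) (by decide))
    have p1 := mul_pos (hb (0, false) (2, false) (2, true) (by decide) (by decide) (by decide) (by decide) (by decide)) (hb (1, false) (4, true) (5, true) (by decide) (by decide) (by decide) (by decide) (by decide))
    linarith
  have s2 : dd (L (1, false)) (L (3, true)) (L (0, false)) (L (2, true)) (L (2, false)) (L (4, true)) < 0 := by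
    have hne := dd_ne_zero hg (1, false) (3, true) (0, false) (2, true) (2, false) (4, true) (by decide)
    have hi : ¬ 0 < dd (L (1, false)) (L (3, true)) (L (0, false)) (L (2, true)) (L (2, false)) (L (4, true)) := fun h => h3 (((hh ![0, 1, 2, 3, 4, 11] ![0, 1, 2, 3, 4, 11] (by decide) (by decide)).2 (1, false) (3, true) (0, false) (2, true) (2, false) (4, true)).1 h)
    exact lt_of_le_of_ne (not_lt.1 hi) hne
  have d2 : 0 < dd (L (2, false)) (L (4, true)) (L (0, false)) (L (2, true)) (L (1, false)) (L (3, true)) := by
    have e : dd (L (2, false)) (L (4, true)) (L (0, false)) (L (2, true)) (L (1, false)) (L (3, true)) = - dd (L (1, false)) (L (3, true)) (L (0, false)) (L (2, true)) (L (2, false)) (L (4, true)) := by unfold dd br; ring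
    linarith
  have s3 : 0 < dd (L (1, true)) (L (5, true)) (L (0, false)) (L (2, true)) (L (2, false)) (L (4, true)) := ((hh ![0, 1, 2, 4, 5, 11] ![0, 1, 2, 3, 4, 11] (by decide) (by decide)).2 (1, true) (4, true) (0, false) (2, true) (2, false) (3, true)).2 h4
  have d3 : 0 < dd (L (2, false)) (L (4, true)) (L (0, false)) (L (2, true)) (L (5, true)) (L (1, true)) := by
    have e : dd (L (2, false)) (L (4, true)) (L (0, false)) (L (2, true)) (L (5, true)) (L (1, true)) = dd (L (1, true)) (L (5, true)) (L (0, false)) (L (2, true)) (L (2, false)) (L (4, true)) := by unfold dd br; ring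
    linarith
  have d4 : 0 < dd (L (2, false)) (L (4, true)) (L (0, false)) (L (2, true)) (L (1, true)) (L (3, true)) := by
    have e : dd (L (2, false)) (L (4, true)) (L (0, false)) (L (2, true)) (L (1, true)) (L (3, true)) = (br (L (0, false)) (L (2, true)) (L (4, true))) * (br (L (2, false)) (L (1, true)) (L (3, true))) + (br (L (0, false)) (L (2, false)) (L (2, true))) * (br (L (1, true)) (L (3, true)) (L (4, true))) := by
      unfold dd br; ring
    have p0 := mul_pos (hb (0, false) (2, true) (4, true) (by decide) (by decide) (by decide) (by decide) (by decide)) (hb (2, false) (1, true) (3, true) (by decide) (by decide) (by decide) (by decide) (by decide))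
    have p1 := mul_pos (hb (0, false) (2, false) (2, true) (by decide) (by decide) (by decide) (by decide) (by decide)) (hb (1, true) (3, true) (4, true) (by decide) (by decide) (by decide) (by decide) (by decide))
    linarith
  refine hn.cross (0, false) (2, true) (2, false) (4, true) 3 5 1 true true (by decide) (by decide)
    (by decide) ?_ (cert_cross_pos _ _ _ _ _ _ _ _ ?_ d0 d1 d2 d3 d4)
  all_goals
    have e1 : br (L (2, false)) (L (4, true)) (L (0, false)) = (br (L (0, false)) (L (2, false)) (L (4, true))) := by unfold br; ring
    have e2 : br (L (2, false)) (L (4, true)) (L (2, true)) = -(br (L (2, false)) (L (2, true)) (L (4, true))) := by unfold br; ring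
    have g1 := (hb (0, false) (2, false) (4, true) (by decide) (by decide) (by decide) (by decide) (by decide))
    have g2 := (hb (2, false) (2, true) (4, true) (by decide) (by decide) (by decide) (by decide) (by decide))
    rw [e1, e2]
    nlinarith [mul_pos g1 g2]

theorem cl_8 (L : Fin 12 × Bool → ℝ × ℝ) (hg : Generic L) (hh : Hom L) (hb : Conv L) (hn : NoCert L)
    (h2 : X2 L) (h3 : ¬ X3 L) :
    False := by
  have d0 : dd (L (3, false)) (L (5, true)) (L (1, false)) (L (3, true)) (L (0, false)) (L (4, true)) < 0 := by
    have e : dd (L (3, false)) (L (5, true)) (L (1, false)) (L (3, true)) (L (0, false)) (L (4, true)) = - (br (L (1, false)) (L (3, false)) (L (5, true))) * (br (L (0, false)) (L (3, true)) (L (4, true))) + - (br (L (3, false)) (L (3, true)) (L (5, true))) * (br (L (0, false)) (L (1, false)) (L (4, true))) := by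
      unfold dd br; ring
    have p0 := mul_pos (hb (1, false) (3, false) (5, true) (by decide) (by decide) (by decide) (by decide) (by decide)) (hb (0, false) (3, true) (4, true) (by decide) (by decide) (by decide) (by decide) (by decide))
    have p1 := mul_pos (hb (3, false) (3, true) (5, true) (by decide) (by decide) (by decide) (by decide) (by decide)) (hb (0, false) (1, false) (4, true) (by decide) (by decide) (by decide) (by decide) (by decide))
    linarith
  have s1 : dd (L (2, false)) (L (4, true)) (L (1, false)) (L (3, true)) (L (3, false)) (L (5, true)) < 0 := by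
    have hne := dd_ne_zero hg (2, false) (4, true) (1, false) (3, true) (3, false) (5, true) (by decide)
    have hi : ¬ 0 < dd (L (2, false)) (L (4, true)) (L (1, false)) (L (3, true)) (L (3, false)) (L (5, true)) := fun h => h3 (((hh ![1, 2, 3, 4, 5, 11] ![0, 1, 2, 3, 4, 11] (by decide) (by decide)).2 (1, false) (3, true) (0, false) (2, true) (2, false) (4, true)).1 h)
    exact lt_of_le_of_ne (not_lt.1 hi) hne
  have d1 : dd (L (3, false)) (L (5, true)) (L (1, false)) (L (3, true)) (L (4, true)) (L (2, false)) < 0 := by
    have e : dd (L (3, false)) (L (5, true)) (L (1, false)) (L (3, true)) (L (4, true)) (L (2, false)) = dd (L (2, false)) (L (4, true)) (L (1, false)) (L (3, true)) (L (3, false)) (L (5, true)) := by unfold dd br; ring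
    linarith
  have d2 : dd (L (3, false)) (L (5, true)) (L (1, false)) (L (3, true)) (L (2, false)) (L (0, false)) < 0 := by
    have e : dd (L (3, false)) (L (5, true)) (L (1, false)) (L (3, true)) (L (2, false)) (L (0, false)) = - (br (L (1, false)) (L (3, true)) (L (5, true))) * (br (L (0, false)) (L (2, false)) (L (3, false))) + - (br (L (1, false)) (L (3, false)) (L (3, true))) * (br (L (0, false)) (L (2, false)) (L (5, true))) := by
      unfold dd br; ring
    have p0 := mul_pos (hb (1, false) (3, true) (5, true) (by decide) (by decide) (by decide) (by decide) (by decide)) (hb (0, false) (2, false) (3, false) (by decide) (by decide) (by decide) (by decide) (by decide))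
    have p1 := mul_pos (hb (1, false) (3, false) (3, true) (by decide) (by decide) (by decide) (by decide) (by decide)) (hb (0, false) (2, false) (5, true) (by decide) (by decide) (by decide) (by decide) (by decide))
    linarith
  have d3 : dd (L (3, false)) (L (5, true)) (L (1, false)) (L (3, true)) (L (4, true)) (L (2, true)) < 0 := by
    have e : dd (L (3, false)) (L (5, true)) (L (1, false)) (L (3, true)) (L (4, true)) (L (2, true)) = - (br (L (1, false)) (L (3, true)) (L (5, true))) * (br (L (3, false)) (L (2, true)) (L (4, true))) + - (br (L (1, false)) (L (3, false)) (L (3, true))) * (br (L (2, true)) (L (4, true)) (L (5, true))) := by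
      unfold dd br; ring
    have p0 := mul_pos (hb (1, false) (3, true) (5, true) (by decide) (by decide) (by decide) (by decide) (by decide)) (hb (3, false) (2, true) (4, true) (by decide) (by decide) (by decide) (by decide) (by decide))
    have p1 := mul_pos (hb (1, false) (3, false) (3, true) (by decide) (by decide) (by decide) (by decide) (by decide)) (hb (2, true) (4, true) (5, true) (by decide) (by decide) (by decide) (by decide) (by decide))
    linarith
  have s4 : 0 < dd (L (1, false)) (L (3, true)) (L (0, false)) (L (2, true)) (L (3, false)) (L (5, true)) := ((hh ![0, 1, 2, 3, 5, 11] ![0, 1, 2, 3, 4, 11] (by decide) (by decide)).2 (1, false) (3, true) (0, false) (2, true) (3, false) (4, true)).2 h2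
  have d4 : dd (L (3, false)) (L (5, true)) (L (1, false)) (L (3, true)) (L (2, true)) (L (0, false)) < 0 := by
    have e : dd (L (3, false)) (L (5, true)) (L (1, false)) (L (3, true)) (L (2, true)) (L (0, false)) = - dd (L (1, false)) (L (3, true)) (L (0, false)) (L (2, true)) (L (3, false)) (L (5, true)) := by unfold dd br; ring
    linarith
  refine hn.cross (1, false) (3, true) (3, false) (5, true) 0 4 2 false true (by decide) (by decide)
    (by decide) ?_ (cert_cross_neg _ _ _ _ _ _ _ _ ?_ d0 d1 d2 d3 d4)
  all_goals
    have e1 : br (L (3, false)) (L (5, true)) (L (1, false)) = (br (L (1, false)) (L (3, false)) (L (5, true))) := by unfold br; ring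
    have e2 : br (L (3, false)) (L (5, true)) (L (3, true)) = -(br (L (3, false)) (L (3, true)) (L (5, true))) := by unfold br; ring
    have g1 := (hb (1, false) (3, false) (5, true) (by decide) (by decide) (by decide) (by decide) (by decide))
    have g2 := (hb (3, false) (3, true) (5, true) (by decide) (by decide) (by decide) (by decide) (by decide))
    rw [e1, e2]
    nlinarith [mul_pos g1 g2]

theorem cl_9 (L : Fin 12 × Bool → ℝ × ℝ) (hg : Generic L) (hh : Hom L) (hb : Conv L) (hn : NoCert L)
    (h1 : ¬ X1 L) (h9 : ¬ X9 L) :
    False := by
  have s0 : dd (L (1, true)) (L (4, true)) (L (0, true)) (L (3, true)) (L (2, false)) (L (2, true)) < 0 := by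
    have hne := dd_ne_zero hg (1, true) (4, true) (0, true) (3, true) (2, false) (2, true) (by decide)
    have hi : ¬ 0 < dd (L (1, true)) (L (4, true)) (L (0, true)) (L (3, true)) (L (2, false)) (L (2, true)) := fun h => h9 (((hh ![0, 1, 2, 3, 4, 11] ![0, 1, 2, 3, 4, 11] (by decide) (by decide)).2 (1, true) (4, true) (0, true) (3, true) (2, false) (2, true)).1 h)
    exact lt_of_le_of_ne (not_lt.1 hi) hne
  have d0 : dd (L (2, false)) (L (2, true)) (L (1, true)) (L (4, true)) (L (0, true)) (L (3, true)) < 0 := by
    have e : dd (L (2, false)) (L (2, true)) (L (1, true)) (L (4, true)) (L (0, true)) (L (3, true)) = dd (L (1, true)) (L (4, true)) (L (0, true)) (L (3, true)) (L (2, false)) (L (2, true)) := by unfold dd br; ring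
    linarith
  have s1 : dd (L (2, false)) (L (2, true)) (L (1, true)) (L (4, true)) (L (3, true)) (L (5, false)) < 0 := by
    have hne := dd_ne_zero hg (2, false) (2, true) (1, true) (4, true) (3, true) (5, false) (by decide)
    have hi : ¬ 0 < dd (L (2, false)) (L (2, true)) (L (1, true)) (L (4, true)) (L (3, true)) (L (5, false)) := fun h => h1 (((hh ![1, 2, 3, 4, 5, 11] ![0, 1, 2, 3, 4, 11] (by decide) (by decide)).2 (1, false) (1, true) (0, true) (3, true) (2, true) (4, false)).1 h)
    exact lt_of_le_of_ne (not_lt.1 hi) hne
  have d1 : dd (L (2, false)) (L (2, true)) (L (1, true)) (L (4, true)) (L (3, true)) (L (5, false)) < 0 := by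
    have e : dd (L (2, false)) (L (2, true)) (L (1, true)) (L (4, true)) (L (3, true)) (L (5, false)) = dd (L (2, false)) (L (2, true)) (L (1, true)) (L (4, true)) (L (3, true)) (L (5, false)) := by unfold dd br; ring
    linarith
  have d2 : dd (L (2, false)) (L (2, true)) (L (1, true)) (L (4, true)) (L (5, false)) (L (0, true)) < 0 := by
    have e : dd (L (2, false)) (L (2, true)) (L (1, true)) (L (4, true)) (L (5, false)) (L (0, true)) = - (br (L (1, true)) (L (2, true)) (L (4, true))) * (br (L (2, false)) (L (5, false)) (L (0, true))) + - (br (L (2, false)) (L (1, true)) (L (4, true))) * (br (L (5, false)) (L (0, true)) (L (2, true))) := by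
      unfold dd br; ring
    have p0 := mul_pos (hb (1, true) (2, true) (4, true) (by decide) (by decide) (by decide) (by decide) (by decide)) (hb (2, false) (5, false) (0, true) (by decide) (by decide) (by decide) (by decide) (by decide))
    have p1 := mul_pos (hb (2, false) (1, true) (4, true) (by decide) (by decide) (by decide) (by decide) (by decide)) (hb (5, false) (0, true) (2, true) (by decide) (by decide) (by decide) (by decide) (by decide))
    linarith
  have d3 : dd (L (2, false)) (L (2, true)) (L (1, true)) (L (4, true)) (L (3, true)) (L (5, true)) < 0 := by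
    have e : dd (L (2, false)) (L (2, true)) (L (1, true)) (L (4, true)) (L (3, true)) (L (5, true)) = - (br (L (1, true)) (L (2, true)) (L (4, true))) * (br (L (2, false)) (L (3, true)) (L (5, true))) + - (br (L (2, false)) (L (1, true)) (L (4, true))) * (br (L (2, true)) (L (3, true)) (L (5, true))) := by
      unfold dd br; ring
    have p0 := mul_pos (hb (1, true) (2, true) (4, true) (by decide) (by decide) (by decide) (by decide) (by decide)) (hb (2, false) (3, true) (5, true) (by decide) (by decide) (by decide) (by decide) (by decide))
    have p1 := mul_pos (hb (2, false) (1, true) (4, true) (by decide) (by decide) (by decide) (by decide) (by decide)) (hb (2, true) (3, true) (5, true) (by decide) (by decide) (by decide) (by decide) (by decide))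
    linarith
  have d4 : dd (L (2, false)) (L (2, true)) (L (1, true)) (L (4, true)) (L (5, true)) (L (0, true)) < 0 := by
    have e : dd (L (2, false)) (L (2, true)) (L (1, true)) (L (4, true)) (L (5, true)) (L (0, true)) = - (br (L (2, false)) (L (1, true)) (L (2, true))) * (br (L (0, true)) (L (4, true)) (L (5, true))) + - (br (L (2, false)) (L (2, true)) (L (4, true))) * (br (L (0, true)) (L (1, true)) (L (5, true))) := by
      unfold dd br; ring
    have p0 := mul_pos (hb (2, false) (1, true) (2, true) (by decide) (by decide) (by decide) (by decide) (by decide)) (hb (0, true) (4, true) (5, true) (by decide) (by decide) (by decide) (by decide) (by decide))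
    have p1 := mul_pos (hb (2, false) (2, true) (4, true) (by decide) (by decide) (by decide) (by decide) (by decide)) (hb (0, true) (1, true) (5, true) (by decide) (by decide) (by decide) (by decide) (by decide))
    linarith
  refine hn.cross (1, true) (4, true) (2, false) (2, true) 0 3 5 true true (by decide) (by decide)
    (by decide) ?_ (cert_cross_neg _ _ _ _ _ _ _ _ ?_ d0 d1 d2 d3 d4)
  all_goals
    have e1 : br (L (2, false)) (L (2, true)) (L (1, true)) = -(br (L (2, false)) (L (1, true)) (L (2, true))) := by unfold br; ring
    have e2 : br (L (2, false)) (L (2, true)) (L (4, true)) = (br (L (2, false)) (L (2, true)) (L (4, true))) := by unfold br; ring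
    have g1 := (hb (2, false) (1, true) (2, true) (by decide) (by decide) (by decide) (by decide) (by decide))
    have g2 := (hb (2, false) (2, true) (4, true) (by decide) (by decide) (by decide) (by decide) (by decide))
    rw [e1, e2]
    nlinarith [mul_pos g1 g2]

theorem cl_10 (L : Fin 12 × Bool → ℝ × ℝ) (hg : Generic L) (hh : Hom L) (hb : Conv L) (hn : NoCert L)
    (h6 : ¬ X6 L) (h7 : ¬ X7 L) :
    False := by
  have d0 : 0 < dd (L (3, true)) (L (5, false)) (L (1, true)) (L (3, false)) (L (0, true)) (L (2, true)) := by
    have e : dd (L (3, true)) (L (5, false)) (L (1, true)) (L (3, false)) (L (0, true)) (L (2, true)) = (br (L (3, false)) (L (5, false)) (L (1, true))) * (br (L (0, true)) (L (2, true)) (L (3, true))) + (br (L (3, false)) (L (1, true)) (L (3, true))) * (br (L (5, false)) (L (0, true)) (L (2, true))) := by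
      unfold dd br; ring
    have p0 := mul_pos (hb (3, false) (5, false) (1, true) (by decide) (by decide) (by decide) (by decide) (by decide)) (hb (0, true) (2, true) (3, true) (by decide) (by decide) (by decide) (by decide) (by decide))
    have p1 := mul_pos (hb (3, false) (1, true) (3, true) (by decide) (by decide) (by decide) (by decide) (by decide)) (hb (5, false) (0, true) (2, true) (by decide) (by decide) (by decide) (by decide) (by decide))
    linarith
  have s1 : dd (L (2, true)) (L (4, false)) (L (1, true)) (L (3, false)) (L (3, true)) (L (5, false)) < 0 := by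
    have hne := dd_ne_zero hg (2, true) (4, false) (1, true) (3, false) (3, true) (5, false) (by decide)
    have hi : ¬ 0 < dd (L (2, true)) (L (4, false)) (L (1, true)) (L (3, false)) (L (3, true)) (L (5, false)) := fun h => h7 (((hh ![1, 2, 3, 4, 5, 11] ![0, 1, 2, 3, 4, 11] (by decide) (by decide)).2 (1, true) (3, false) (0, true) (2, false) (2, true) (4, false)).1 h)
    exact lt_of_le_of_ne (not_lt.1 hi) hne
  have d1 : 0 < dd (L (3, true)) (L (5, false)) (L (1, true)) (L (3, false)) (L (2, true)) (L (4, false)) := by
    have e : dd (L (3, true)) (L (5, false)) (L (1, true)) (L (3, false)) (L (2, true)) (L (4, false)) = - dd (L (2, true)) (L (4, false)) (L (1, true)) (L (3, false)) (L (3, true)) (L (5, false)) := by unfold dd br; ring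
    linarith
  have d2 : 0 < dd (L (3, true)) (L (5, false)) (L (1, true)) (L (3, false)) (L (4, false)) (L (0, true)) := by
    have e : dd (L (3, true)) (L (5, false)) (L (1, true)) (L (3, false)) (L (4, false)) (L (0, true)) = (br (L (5, false)) (L (1, true)) (L (3, true))) * (br (L (3, false)) (L (4, false)) (L (0, true))) + (br (L (3, false)) (L (5, false)) (L (3, true))) * (br (L (4, false)) (L (0, true)) (L (1, true))) := by
      unfold dd br; ring
    have p0 := mul_pos (hb (5, false) (1, true) (3, true) (by decide) (by decide) (by decide) (by decide) (by decide)) (hb (3, false) (4, false) (0, true) (by decide) (by decide) (by decide) (by decide) (by decide))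
    have p1 := mul_pos (hb (3, false) (5, false) (3, true) (by decide) (by decide) (by decide) (by decide) (by decide)) (hb (4, false) (0, true) (1, true) (by decide) (by decide) (by decide) (by decide) (by decide))
    linarith
  have d3 : 0 < dd (L (3, true)) (L (5, false)) (L (1, true)) (L (3, false)) (L (2, true)) (L (4, true)) := by
    have e : dd (L (3, true)) (L (5, false)) (L (1, true)) (L (3, false)) (L (2, true)) (L (4, true)) = (br (L (5, false)) (L (1, true)) (L (3, true))) * (br (L (3, false)) (L (2, true)) (L (4, true))) + (br (L (3, false)) (L (5, false)) (L (3, true))) * (br (L (1, true)) (L (2, true)) (L (4, true))) := by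
      unfold dd br; ring
    have p0 := mul_pos (hb (5, false) (1, true) (3, true) (by decide) (by decide) (by decide) (by decide) (by decide)) (hb (3, false) (2, true) (4, true) (by decide) (by decide) (by decide) (by decide) (by decide))
    have p1 := mul_pos (hb (3, false) (5, false) (3, true) (by decide) (by decide) (by decide) (by decide) (by decide)) (hb (1, true) (2, true) (4, true) (by decide) (by decide) (by decide) (by decide) (by decide))
    linarith
  have s4 : dd (L (1, true)) (L (3, false)) (L (0, true)) (L (4, true)) (L (3, true)) (L (5, false)) < 0 := by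
    have hne := dd_ne_zero hg (1, true) (3, false) (0, true) (4, true) (3, true) (5, false) (by decide)
    have hi : ¬ 0 < dd (L (1, true)) (L (3, false)) (L (0, true)) (L (4, true)) (L (3, true)) (L (5, false)) := fun h => h6 (((hh ![0, 1, 3, 4, 5, 11] ![0, 1, 2, 3, 4, 11] (by decide) (by decide)).2 (1, true) (2, false) (0, true) (3, true) (2, true) (4, false)).1 h)
    exact lt_of_le_of_ne (not_lt.1 hi) hne
  have d4 : 0 < dd (L (3, true)) (L (5, false)) (L (1, true)) (L (3, false)) (L (4, true)) (L (0, true)) := by
    have e : dd (L (3, true)) (L (5, false)) (L (1, true)) (L (3, false)) (L (4, true)) (L (0, true)) = - dd (L (1, true)) (L (3, false)) (L (0, true)) (L (4, true)) (L (3, true)) (L (5, false)) := by unfold dd br; ring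
    linarith
  refine hn.cross (1, true) (3, false) (3, true) (5, false) 0 2 4 true true (by decide) (by decide)
    (by decide) ?_ (cert_cross_pos _ _ _ _ _ _ _ _ ?_ d0 d1 d2 d3 d4)
  all_goals
    have e1 : br (L (3, true)) (L (5, false)) (L (1, true)) = (br (L (5, false)) (L (1, true)) (L (3, true))) := by unfold br; ring
    have e2 : br (L (3, true)) (L (5, false)) (L (3, false)) = -(br (L (3, false)) (L (5, false)) (L (3, true))) := by unfold br; ring
    have g1 := (hb (5, false) (1, true) (3, true) (by decide) (by decide) (by decide) (by decide) (by decide))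
    have g2 := (hb (3, false) (5, false) (3, true) (by decide) (by decide) (by decide) (by decide) (by decide))
    rw [e1, e2]
    nlinarith [mul_pos g1 g2]

theorem caseC (L : Fin 12 × Bool → ℝ × ℝ) (hg : Generic L) (hh : Hom L) (hb : Conv L)
    (hn : NoCert L) : False := by
  have c1 : ¬ (X11 L) := fun h => cl_1 L hg hh hb hn h
  have c2 : ¬ (¬ X14 L) := fun h => cl_2 L hg hh hb hn h
  have c3 : ¬ (X14 L ∧ X13 L) := fun h => cl_3 L hg hh hb hn h.1 h.2
  have c4 : ¬ (X12 L ∧ ¬ X13 L) := fun h => cl_4 L hg hh hb hn h.1 h.2
  have c5 : ¬ (X10 L ∧ ¬ X11 L) := fun h => cl_5 L hg hh hb hn h.1 h.2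
  have c6 : ¬ (X9 L ∧ ¬ X5 L) := fun h => cl_6 L hg hh hb hn h.1 h.2
  have c7 : ¬ (X4 L ∧ ¬ X3 L) := fun h => cl_7 L hg hh hb hn h.1 h.2
  have c8 : ¬ (X2 L ∧ ¬ X3 L) := fun h => cl_8 L hg hh hb hn h.1 h.2
  have c9 : ¬ (¬ X1 L ∧ ¬ X9 L) := fun h => cl_9 L hg hh hb hn h.1 h.2
  have c10 : ¬ (¬ X6 L ∧ ¬ X7 L) := fun h => cl_10 L hg hh hb hn h.1 h.2
  have l1 : ¬ (X7 L ∧ ¬ X8 L) := fun h => lem_7_8 L hg hh hb h.1 h.2
  have l2 : ¬ (X8 L ∧ ¬ X12 L) := fun h => lem_8_12 L hg hh hb h.1 h.2
  have l3 : ¬ (X3 L ∧ ¬ X10 L) := fun h => lem_3_10 L hg hh hb h.1 h.2
  have l4 : ¬ (X6 L ∧ X1 L ∧ ¬ X8 L) := fun h => lem_6_1_8 L hg hh hb h.1 h.2.1 h.2.2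
  have l5 : ¬ (X5 L ∧ ¬ X2 L ∧ ¬ X4 L) := fun h => lem_5_2_4 L hg hh hb h.1 h.2.1 h.2.2
  tauto

end Pool.KN
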