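import Pool.Agent.Helper89.KN.Finite
import Pool.Agent.Helper40.KN.Averaging
import Pool.Agent.Helper26.KN.Grouping
import Pool.Agent.Helper31.KN_Pierce

set_option autoImplicit false

namespace Pool.KN

open Finset

theorem dd_ne_zero_gen {M : ℕ} {L : Fin M × Bool → ℝ × ℝ} (hg : Generic L)
    (r s p q u v : Fin M × Bool) (h : [r, s, p, q, u, v].Nodup) :
    dd (L r) (L s) (L p) (L q) (L u) (L v) ≠ 0 := by
  have := hg.2 r s p q u v h
  intro h0
  apply this
  unfold dd at h0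
  linarith

/-- Three points from a fixed centre and a positive fraction of certificates. -/
theorem pierce_of_dense (γ : ℝ) (hγ : 0 < γ) :
    ∃ r : ℕ, 0 < r ∧ ∃ M₀ : ℕ, ∀ M : ℕ, M₀ ≤ M → ∀ (lab : Fin M × Bool → ℝ × ℝ), Generic lab →
      ∀ (t : CType) (a : Fin 4 → Fin M), γ * (M : ℝ) ^ 3 ≤ (Nat.card {v : Fin 3 → Fin M // Rel lab t a v} : ℝ) →
      ∀ (μ : ℕ), r * μ ≤ M →
      ∀ (κ : Type) [Finite κ] (B : κ → Set (ℝ × ℝ)), (∀ k, Convex ℝ (B k)) → (∀ k, IsOpen (B k)) →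
      (∀ k, Nat.card {t : Fin M // Misses lab (B k) t} ≤ μ) →
      ∃ x y z : ℝ × ℝ, ∀ k, x ∈ B k ∨ y ∈ B k ∨ z ∈ B k := by
  classical
  obtain ⟨η, hη, M₂, hgr⟩ := Pool.Agent.Helper26.KN.grouping γ hγ
  obtain ⟨r1, hr1⟩ := exists_nat_gt (26 / γ)
  obtain ⟨r2, hr2⟩ := exists_nat_gt (6 / η)
  obtain ⟨M3, hM3⟩ := exists_nat_gt (4 / γ)
  refine ⟨r1 + r2 + 1, by omega, M₂ + M3 + 1, ?_⟩
  intro M hM lab hg t a hcard μ hμ κ _ B hconv hopen hmiss
  have hMpos : (0 : ℝ) < M := by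
    have : 0 < M := by omega
    exact_mod_cast this
  have hμ' : ((r1 : ℝ) + r2 + 1) * μ ≤ M := by exact_mod_cast hμ
  have hμ0 : (0 : ℝ) ≤ μ := Nat.cast_nonneg μ
  have hr1' : 26 < γ * r1 := by
    rw [div_lt_iff₀ hγ] at hr1
    linarith
  have hr2' : 6 < η * r2 := by
    rw [div_lt_iff₀ hη] at hr2
    linarith
  have hM3' : 4 < γ * M := by
    rw [div_lt_iff₀ hγ] at hM3
    have : (M3 : ℝ) ≤ M := by
      have : M3 ≤ M := by omega
      exact_mod_cast this
    nlinarith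
  have hr10 : (0 : ℝ) ≤ r1 := Nat.cast_nonneg _
  have hr20 : (0 : ℝ) ≤ r2 := Nat.cast_nonneg _
  -- 26 μ ≤ γ M and 6 μ ≤ η M
  have h26 : 26 * (μ : ℝ) ≤ γ * M := by
    have h1 : (r1 : ℝ) * μ ≤ M := by nlinarith
    have h2 : 26 * (μ : ℝ) ≤ (γ * r1) * μ := by nlinarith
    nlinarith
  have h6 : 6 * (μ : ℝ) ≤ η * M := by
    have h1 : (r2 : ℝ) * μ ≤ M := by nlinarith
    have h2 : 6 * (μ : ℝ) ≤ (η * r2) * μ := by nlinarith
    nlinarith
  let T : Finset (Fin 3 → Fin M) := univ.filter (fun v => Rel lab t a v)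
  have hT : γ * (M : ℝ) ^ 3 ≤ (T.card : ℝ) := by
    have : Nat.card {v : Fin 3 → Fin M // Rel lab t a v} = T.card := by
      rw [Nat.card_eq_fintype_card, Fintype.card_subtype]
    rw [← this]; exact hcard
  have hηM : 0 < η * M := mul_pos hη hMpos
  -- the generic grouping argument
  have main : ∀ c : ℝ × ℝ,
      (∀ z z' : Fin M × Bool, z ≠ z' → z.1 ∉ univ.image a → z'.1 ∉ univ.image a →
        br (lab z) (lab z') c ≠ 0) →
      (∀ v ∈ T, Function.Injective v ∧ (∀ i, v i ∉ univ.image a) ∧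
        Cert c (lab (v 0, t.2.2.1)) (lab (v 1, t.2.2.2)) (lab (v 2, false)) (lab (v 2, true))) →
      ∃ x y z : ℝ × ℝ, ∀ k, x ∈ B k ∨ y ∈ B k ∨ z ∈ B k := by
    intro c hc hv
    obtain ⟨E, F, S, hE, hF, hS, hEFS⟩ := hgr M (by omega) lab c (univ.image a) t.2.2.1 t.2.2.2 hc T hT hv
    refine pierce_of_groups lab c t.2.2.1 t.2.2.2 E F S μ hEFS ?_ ?_ ?_ B hconv hopen hmiss
    · have : (μ : ℝ) < S.card := by nlinarith
      exact_mod_cast this
    · have : (3 * μ : ℝ) < E.card := by nlinarith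
      exact_mod_cast this
    · have : (3 * μ : ℝ) < F.card := by nlinarith
      exact_mod_cast this
  have h3 : t.1 = 0 ∨ t.1 = 1 ∨ t.1 = 2 := by
    have h2 : ∀ x : Fin 3, x = 0 ∨ x = 1 ∨ x = 2 := by decide
    exact h2 t.1
  rcases h3 with h0 | h1 | h2
  · -- line certificate
    have hR : ∀ v ∈ T, (0 < br (lab (a 0, t.2.1 0)) (lab (a 1, t.2.1 1)) (lab (v 0, false)) ∧
        0 < br (lab (a 0, t.2.1 0)) (lab (a 1, t.2.1 1)) (lab (v 0, true)) ∧
        br (lab (a 0, t.2.1 0)) (lab (a 1, t.2.1 1)) (lab (v 1, false)) < 0 ∧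
        br (lab (a 0, t.2.1 0)) (lab (a 1, t.2.1 1)) (lab (v 1, true)) < 0) := by
      intro v hv
      rcases (mem_filter.1 hv).2 with h | h | h
      · exact h.2
      · rw [h0] at h; exact absurd h.1 (by decide)
      · rw [h0] at h; exact absurd h.1 (by decide)
    let U : Finset (Fin M) := univ.filter (fun i =>
      ∀ b : Bool, 0 < br (lab (a 0, t.2.1 0)) (lab (a 1, t.2.1 1)) (lab (i, b)))
    let D : Finset (Fin M) := univ.filter (fun i =>
      ∀ b : Bool, br (lab (a 0, t.2.1 0)) (lab (a 1, t.2.1 1)) (lab (i, b)) < 0)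
    have hTUD : T.card ≤ U.card * D.card * M := by
      have hsub : T.card ≤ ((U ×ˢ D) ×ˢ (univ : Finset (Fin M))).card := by
        refine card_le_card_of_injOn (fun v => ((v 0, v 1), v 2)) ?_ ?_
        · intro v hv
          have hv' := hR v hv
          simp only [U, D, coe_product, Set.mem_prod, mem_coe, mem_filter, mem_univ, true_and,
            Bool.forall_bool, and_true, coe_univ, Set.mem_univ]
          exact ⟨⟨hv'.1, hv'.2.1⟩, ⟨hv'.2.2.1, hv'.2.2.2⟩⟩
        · intro v _ v' _ h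
          simp only [Prod.mk.injEq] at h
          funext i
          fin_cases i
          · exact h.1.1
          · exact h.1.2
          · exact h.2
      simpa [card_product] using hsub
    have hTUD' : (T.card : ℝ) ≤ U.card * D.card * M := by exact_mod_cast hTUD
    have hUM : (U.card : ℝ) ≤ M := by
      have : U.card ≤ M := by simpa using card_le_univ U
      exact_mod_cast this
    have hDM : (D.card : ℝ) ≤ M := by
      have : D.card ≤ M := by simpa using card_le_univ D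
      exact_mod_cast this
    have hU0 : (0 : ℝ) ≤ U.card := Nat.cast_nonneg _
    have hD0 : (0 : ℝ) ≤ D.card := Nat.cast_nonneg _
    have hM2 : (0 : ℝ) < (M : ℝ) ^ 2 := by positivity
    have hU : γ * M ≤ U.card := by
      have h1 : γ * (M : ℝ) ^ 3 ≤ U.card * (M : ℝ) ^ 2 := by
        calc γ * (M : ℝ) ^ 3 ≤ U.card * D.card * M := hT.trans hTUD'
          _ ≤ U.card * M * M := by
            have := mul_le_mul_of_nonneg_left hDM hU0
            exact mul_le_mul_of_nonneg_right this hMpos.le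
          _ = U.card * (M : ℝ) ^ 2 := by ring
      have h2 : (γ * M) * (M : ℝ) ^ 2 ≤ U.card * (M : ℝ) ^ 2 := by
        calc (γ * M) * (M : ℝ) ^ 2 = γ * (M : ℝ) ^ 3 := by ring
          _ ≤ _ := h1
      exact le_of_mul_le_mul_right h2 hM2
    have hD : γ * M ≤ D.card := by
      have h1 : γ * (M : ℝ) ^ 3 ≤ D.card * (M : ℝ) ^ 2 := by
        calc γ * (M : ℝ) ^ 3 ≤ U.card * D.card * M := hT.trans hTUD'
          _ ≤ M * D.card * M := by
            have := mul_le_mul_of_nonneg_right hUM hD0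
            exact mul_le_mul_of_nonneg_right this hMpos.le
          _ = D.card * (M : ℝ) ^ 2 := by ring
      have h2 : (γ * M) * (M : ℝ) ^ 2 ≤ D.card * (M : ℝ) ^ 2 := by
        calc (γ * M) * (M : ℝ) ^ 2 = γ * (M : ℝ) ^ 3 := by ring
          _ ≤ _ := h1
      exact le_of_mul_le_mul_right h2 hM2
    refine pierce_of_line lab (lab (a 0, t.2.1 0)) (lab (a 1, t.2.1 1)) U D μ (6 * μ + 1)
      (fun i hi b => (mem_filter.1 hi).2 b) (fun i hi b => (mem_filter.1 hi).2 b) (by omega) ?_ ?_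
      B hconv hopen hmiss
    · have : ((2 * (6 * μ + 1) + μ : ℕ) : ℝ) < U.card := by
        push_cast
        nlinarith
      exact_mod_cast this
    · have : ((2 * (6 * μ + 1) + μ : ℕ) : ℝ) < D.card := by
        push_cast
        nlinarith
      exact_mod_cast this
  · -- centre is a label
    refine main (lab (a 0, t.2.1 0)) ?_ ?_
    · intro z z' hzz hz hz'
      refine hg.1 z z' (a 0, t.2.1 0) ?_
      have e1 : z ≠ (a 0, t.2.1 0) := by
        rintro rfl; exact hz (mem_image_of_mem _ (mem_univ _))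
      have e2 : z' ≠ (a 0, t.2.1 0) := by
        rintro rfl; exact hz' (mem_image_of_mem _ (mem_univ _))
      simp [hzz, e1, e2]
    · intro v hv
      rcases (mem_filter.1 hv).2 with h | h | h
      · rw [h1] at h; exact absurd h.1 (by decide)
      · refine ⟨h.2.1, fun i hi => ?_, h.2.2.2⟩
        obtain ⟨j, -, hj⟩ := mem_image.1 hi
        exact h.2.2.1 i j hj.symm
      · rw [h1] at h; exact absurd h.1 (by decide)
  · -- centre is a crossing point
    have hTne : T.Nonempty := by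
      rw [← card_pos]
      have : (0 : ℝ) < T.card := lt_of_lt_of_le (by positivity) hT
      exact_mod_cast this
    have hR : ∀ v ∈ T, (Function.Injective v ∧ (∀ i j, v i ≠ a j) ∧
        [(a 0, t.2.1 0), (a 1, t.2.1 1), (a 2, t.2.1 2), (a 3, t.2.1 3)].Nodup ∧
        br (lab (a 2, t.2.1 2)) (lab (a 3, t.2.1 3)) (lab (a 0, t.2.1 0)) *
          br (lab (a 2, t.2.1 2)) (lab (a 3, t.2.1 3)) (lab (a 1, t.2.1 1)) < 0 ∧
        Cert (crossPt (lab (a 0, t.2.1 0)) (lab (a 1, t.2.1 1)) (lab (a 2, t.2.1 2))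
            (lab (a 3, t.2.1 3)))
          (lab (v 0, t.2.2.1)) (lab (v 1, t.2.2.2)) (lab (v 2, false)) (lab (v 2, true))) := by
      intro v hv
      rcases (mem_filter.1 hv).2 with h | h | h
      · rw [h2] at h; exact absurd h.1 (by decide)
      · rw [h2] at h; exact absurd h.1 (by decide)
      · exact h.2
    obtain ⟨v0, hv0⟩ := hTne
    obtain ⟨-, -, hnd, hneg, -⟩ := hR v0 hv0
    refine main (crossPt (lab (a 0, t.2.1 0)) (lab (a 1, t.2.1 1)) (lab (a 2, t.2.1 2))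
            (lab (a 3, t.2.1 3))) ?_ ?_
    · intro z z' hzz hz hz'
      have hden : br (lab (a 2, t.2.1 2)) (lab (a 3, t.2.1 3)) (lab (a 0, t.2.1 0)) -
          br (lab (a 2, t.2.1 2)) (lab (a 3, t.2.1 3)) (lab (a 1, t.2.1 1)) ≠ 0 := by
        intro h
        have h' : br (lab (a 2, t.2.1 2)) (lab (a 3, t.2.1 3)) (lab (a 0, t.2.1 0)) =
          br (lab (a 2, t.2.1 2)) (lab (a 3, t.2.1 3)) (lab (a 1, t.2.1 1)) := by linarith
        rw [h'] at hneg
        nlinarith [mul_self_nonneg (br (lab (a 2, t.2.1 2)) (lab (a 3, t.2.1 3)) (lab (a 1, t.2.1 1)))]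
      rw [br_crossPt _ _ _ _ _ _ hden]
      refine div_ne_zero (dd_ne_zero_gen hg _ _ _ _ _ _ ?_) hden
      have e : ∀ j, z ≠ (a j, t.2.1 j) := by
        rintro j rfl; exact hz (mem_image_of_mem _ (mem_univ _))
      have e' : ∀ j, z' ≠ (a j, t.2.1 j) := by
        rintro j rfl; exact hz' (mem_image_of_mem _ (mem_univ _))
      have f := fun j => (e j).symm
      have f' := fun j => (e' j).symm
      simp only [List.nodup_cons, List.mem_cons, List.not_mem_nil, or_false, not_or,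
        not_false_eq_true, List.nodup_nil, and_true] at hnd ⊢
      obtain ⟨⟨n01, n02, n03⟩, ⟨n12, n13⟩, n23⟩ := hnd
      exact ⟨⟨n23, fun h => n02 h.symm, fun h => n12 h.symm, f 2, f' 2⟩,
        ⟨fun h => n03 h.symm, fun h => n13 h.symm, f 3, f' 3⟩, ⟨n01, f 0, f' 0⟩, ⟨f 1, f' 1⟩, hzz⟩
    · intro v hv
      have h := hR v hv
      refine ⟨h.1, fun i hi => ?_, h.2.2.2.2⟩
      obtain ⟨j, -, hj⟩ := mem_image.1 hi
      exact h.2.1 i j hj.symm

/-- The core statement. -/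
theorem core : ∃ r : ℕ, 0 < r ∧ ∃ M₀ : ℕ, ∀ M : ℕ, M₀ ≤ M →
      ∀ lab : Fin M × Bool → ℝ × ℝ, Generic lab →
      ∀ (κ : Type) [Finite κ] (B : κ → Set (ℝ × ℝ)), (∀ k, Convex ℝ (B k)) → (∀ k, IsOpen (B k)) →
      (∀ k, r * Nat.card {t : Fin M // Misses lab (B k) t} ≤ M) →
      ∃ x y z : ℝ × ℝ, ∀ k, x ∈ B k ∨ y ∈ B k ∨ z ∈ B k := by
  obtain ⟨N, hN⟩ := finite_core
  obtain ⟨γ, hγ, M₁, hav⟩ := averaging N CType
  obtain ⟨r, hr, M₂, hpd⟩ := pierce_of_dense γ hγ
  refine ⟨r, hr, M₁ + M₂, ?_⟩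
  intro M hM lab hg κ _ B hconv hopen hmiss
  obtain ⟨t, a, hta⟩ := hav M (by omega) (fun t a v => Rel lab t a v) (by
    intro g hginj
    have hgen : Generic (fun z : Fin N × Bool => lab (g z.1, z.2)) := by
      refine hg.comp (fun z : Fin N × Bool => (g z.1, z.2)) ?_
      rintro ⟨i, x⟩ ⟨j, y⟩ hxy
      simp only [Prod.mk.injEq] at hxy
      rw [hginj hxy.1, hxy.2]
    obtain ⟨t, a, v, hv, hva, hR⟩ := hN _ hgen
    exact ⟨t, a, v, hv, hva, hR.map hginj⟩)
  refine hpd M (by omega) lab hg t a hta (M / r) (Nat.mul_div_le M r) κ B hconv hopen ?_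
  intro k
  rw [Nat.le_div_iff_mul_le hr, mul_comm]
  exact hmiss k

end Pool.KN
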