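import Pool.Agent.Helper89.KN.HomCore
import Pool.Agent.Helper54.KN.Ramsey

set_option autoImplicit false

namespace Pool.KN

/-- Types of certificates. -/
abbrev CType : Type := Fin 3 × (Fin 4 → Bool) × Bool × Bool

/-- The certificate relation. -/
def Rel {M : ℕ} (lab : Fin M × Bool → ℝ × ℝ) (t : CType) (a : Fin 4 → Fin M) (v : Fin 3 → Fin M) :
    Prop :=
  (t.1 = 0 ∧ 0 < br (lab (a 0, t.2.1 0)) (lab (a 1, t.2.1 1)) (lab (v 0, false)) ∧
    0 < br (lab (a 0, t.2.1 0)) (lab (a 1, t.2.1 1)) (lab (v 0, true)) ∧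
    br (lab (a 0, t.2.1 0)) (lab (a 1, t.2.1 1)) (lab (v 1, false)) < 0 ∧
    br (lab (a 0, t.2.1 0)) (lab (a 1, t.2.1 1)) (lab (v 1, true)) < 0) ∨
  (t.1 = 1 ∧ Function.Injective v ∧ (∀ i j, v i ≠ a j) ∧
    Cert (lab (a 0, t.2.1 0)) (lab (v 0, t.2.2.1)) (lab (v 1, t.2.2.2)) (lab (v 2, false))
      (lab (v 2, true))) ∨
  (t.1 = 2 ∧ Function.Injective v ∧ (∀ i j, v i ≠ a j) ∧
    [(a 0, t.2.1 0), (a 1, t.2.1 1), (a 2, t.2.1 2), (a 3, t.2.1 3)].Nodup ∧
    br (lab (a 2, t.2.1 2)) (lab (a 3, t.2.1 3)) (lab (a 0, t.2.1 0)) *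
      br (lab (a 2, t.2.1 2)) (lab (a 3, t.2.1 3)) (lab (a 1, t.2.1 1)) < 0 ∧
    Cert (crossPt (lab (a 0, t.2.1 0)) (lab (a 1, t.2.1 1)) (lab (a 2, t.2.1 2))
        (lab (a 3, t.2.1 3)))
      (lab (v 0, t.2.2.1)) (lab (v 1, t.2.2.2)) (lab (v 2, false)) (lab (v 2, true)))

theorem Rel.map {M N : ℕ} {lab : Fin M × Bool → ℝ × ℝ} {g : Fin N → Fin M}
    (hg : Function.Injective g) {t : CType} {a : Fin 4 → Fin N} {v : Fin 3 → Fin N}
    (h : Rel (fun z : Fin N × Bool => lab (g z.1, z.2)) t a v) : Rel lab t (g ∘ a) (g ∘ v) := by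
  rcases h with h | ⟨h1, h2, h3, h4⟩ | ⟨h1, h2, h3, h4, h5, h6⟩
  · exact Or.inl h
  · exact Or.inr (Or.inl ⟨h1, hg.comp h2, fun i j hij => h3 i j (hg hij), h4⟩)
  · refine Or.inr (Or.inr ⟨h1, hg.comp h2, fun i j hij => h3 i j (hg hij), ?_, h5, h6⟩)
    have hinj : Function.Injective (fun z : Fin N × Bool => (g z.1, z.2)) := by
      rintro ⟨i, x⟩ ⟨j, y⟩ hxy
      simp only [Prod.mk.injEq] at hxy
      rw [hg hxy.1, hxy.2]
    simpa using h4.map hinj

theorem noCert_of_no_rel (L : Fin 12 × Bool → ℝ × ℝ)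
    (h : ∀ (t : CType) (a : Fin 4 → Fin 12) (v : Fin 3 → Fin 12), Function.Injective v →
      (∀ i j, v i ≠ a j) → ¬ Rel L t a v) : NoCert L := by
  refine ⟨?_, ?_, ?_⟩
  · intro p q i j hpq hij h1 h2 h3 h4 hc
    obtain ⟨k, hk⟩ : ∃ k : Fin 12, k ∉ ({i, j, p.1, q.1} : Finset (Fin 12)) := by
      by_contra hcon
      push Not at hcon
      have h12 : (Finset.univ : Finset (Fin 12)) ⊆ {i, j, p.1, q.1} := fun x _ => hcon x
      have hcard := Finset.card_le_card h12
      have : ({i, j, p.1, q.1} : Finset (Fin 12)).card ≤ 4 := Finset.card_le_four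
      simp only [Finset.card_univ, Fintype.card_fin] at hcard
      omega
    simp only [Finset.mem_insert, Finset.mem_singleton, not_or] at hk
    refine h (0, ![p.2, q.2, false, false], false, false) ![p.1, q.1, p.1, p.1] ![i, j, k] ?_ ?_
      (Or.inl ⟨rfl, hc.1, hc.2.1, hc.2.2.1, hc.2.2.2⟩)
    · intro x y hxy
      fin_cases x <;> fin_cases y <;> simp_all
    · intro x y
      fin_cases x <;> fin_cases y <;> simp <;> tauto
  · intro c e f s x y h1 h2 h3 h4 h5 h6 hc
    refine h (1, fun _ => c.2, x, y) (fun _ => c.1) ![e, f, s] ?_ ?_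
      (Or.inr (Or.inl ⟨rfl, ?_, ?_, hc⟩))
    · intro x y hxy
      fin_cases x <;> fin_cases y <;> simp_all
    · intro x y
      fin_cases x <;> simp <;> tauto
    · intro x y hxy
      fin_cases x <;> fin_cases y <;> simp_all
    · intro x y
      fin_cases x <;> simp <;> tauto
  · intro p q r t e f s x y hnd hefs hne hneg hc
    have hv : Function.Injective (![e, f, s] : Fin 3 → Fin 12) := by
      intro x y hxy
      simp only [List.nodup_cons, List.mem_cons, List.not_mem_nil, or_false, not_or,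
        not_false_eq_true, List.nodup_nil, and_true] at hefs
      fin_cases x <;> fin_cases y <;> simp_all
    have ha : ∀ i j, (![e, f, s] : Fin 3 → Fin 12) i ≠ (![p.1, q.1, r.1, t.1] : Fin 4 → Fin 12) j := by
      intro i j
      have := hne
      simp only [List.mem_cons, List.not_mem_nil, or_false, forall_eq_or_imp, forall_eq] at this
      fin_cases i <;> fin_cases j <;> simp <;> tauto
    refine h (2, ![p.2, q.2, r.2, t.2], x, y) ![p.1, q.1, r.1, t.1] ![e, f, s] hv ha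
      (Or.inr (Or.inr ⟨rfl, hv, ha, ?_, hneg, hc⟩))
    simpa using hnd

/-- **Finite core**: there is `N` such that every generic family of `N` pairs has a certificate. -/
theorem finite_core : ∃ N : ℕ, ∀ lab : Fin N × Bool → ℝ × ℝ, Generic lab →
    ∃ (t : CType) (a : Fin 4 → Fin N) (v : Fin 3 → Fin N),
      Function.Injective v ∧ (∀ i j, v i ≠ a j) ∧ Rel lab t a v := by
  classical
  obtain ⟨N, hN⟩ := ramsey 6 (((Fin 3 → Fin 6 × Bool) → Prop) × ((Fin 6 → Fin 6 × Bool) → Prop)) 12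
  refine ⟨N, fun lab hg => ?_⟩
  -- extension to ℕ
  let labN : ℕ × Bool → ℝ × ℝ := fun z => if h : z.1 < N then lab (⟨z.1, h⟩, z.2) else 0
  let col : (Fin 6 → ℕ) → (((Fin 3 → Fin 6 × Bool) → Prop) × ((Fin 6 → Fin 6 × Bool) → Prop)) := fun w =>
    (fun x => 0 < br (labN (w (x 0).1, (x 0).2)) (labN (w (x 1).1, (x 1).2))
        (labN (w (x 2).1, (x 2).2)),
     fun x => 0 < dd (labN (w (x 0).1, (x 0).2)) (labN (w (x 1).1, (x 1).2))
       (labN (w (x 2).1, (x 2).2)) (labN (w (x 3).1, (x 3).2)) (labN (w (x 4).1, (x 4).2))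
       (labN (w (x 5).1, (x 5).2)))
  let fcol : Finset ℕ → (((Fin 3 → Fin 6 × Bool) → Prop) × ((Fin 6 → Fin 6 × Bool) → Prop)) := fun U => if h : U.card = 6 then col (U.orderEmbOfFin h) else col (fun _ => 0)
  obtain ⟨T, hTS, hTc, c, hc⟩ := hN (Finset.range N) (by simp) fcol
  let w : Fin 12 ↪o ℕ := T.orderEmbOfFin hTc
  have hwT : ∀ i, w i ∈ T := fun i => T.orderEmbOfFin_mem hTc i
  have hwN : ∀ i, w i < N := fun i => Finset.mem_range.1 (hTS (hwT i))
  let g : Fin 12 → Fin N := fun i => ⟨w i, hwN i⟩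
  have hginj : Function.Injective g := by
    intro i j hij
    have : w i = w j := congrArg Fin.val hij
    exact w.injective this
  let L : Fin 12 × Bool → ℝ × ℝ := fun z => lab (g z.1, z.2)
  have hLN : ∀ z : Fin 12 × Bool, labN (w z.1, z.2) = L z := by
    intro z
    simp only [labN, L, g, hwN z.1, dif_pos]
  have hgL : Generic L := by
    refine hg.comp (fun z : Fin 12 × Bool => (g z.1, z.2)) ?_
    rintro ⟨i, x⟩ ⟨j, y⟩ hxy
    simp only [Prod.mk.injEq] at hxy
    rw [hginj hxy.1, hxy.2]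
  have hcol : ∀ u : Fin 6 → Fin 12, StrictMono u → col (fun i => w (u i)) = c := by
    intro u hu
    have hm : StrictMono (fun i => w (u i)) := w.strictMono.comp hu
    let U : Finset ℕ := Finset.univ.image (fun i => w (u i))
    have hUc : U.card = 6 := by
      rw [Finset.card_image_of_injective _ hm.injective]; simp
    have hUT : U ⊆ T := by
      intro x hx
      obtain ⟨i, -, rfl⟩ := Finset.mem_image.1 hx
      exact hwT _
    have h1 := hc U hUT hUc
    have h2 : (fun i => w (u i)) = U.orderEmbOfFin hUc :=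
      Finset.orderEmbOfFin_unique hUc (fun i => Finset.mem_image_of_mem _ (Finset.mem_univ i)) hm
    rw [← h1]
    simp only [fcol, hUc, dif_pos]
    rw [h2]
  have hhL : Hom L := by
    intro u u' hu hu'
    have h := (hcol u hu).trans (hcol u' hu').symm
    have h1 := congrArg Prod.fst h
    have h2 := congrArg Prod.snd h
    refine ⟨fun x y z => ?_, fun a b c d e f => ?_⟩
    · have h3 : (0 < br (labN (w (u x.1), x.2)) (labN (w (u y.1), y.2)) (labN (w (u z.1), z.2))) =
          (0 < br (labN (w (u' x.1), x.2)) (labN (w (u' y.1), y.2)) (labN (w (u' z.1), z.2))) :=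
        congrFun h1 ![x, y, z]
      rw [hLN (u x.1, x.2), hLN (u y.1, y.2), hLN (u z.1, z.2), hLN (u' x.1, x.2),
        hLN (u' y.1, y.2), hLN (u' z.1, z.2)] at h3
      exact iff_of_eq h3
    · have h3 : (0 < dd (labN (w (u a.1), a.2)) (labN (w (u b.1), b.2)) (labN (w (u c.1), c.2))
          (labN (w (u d.1), d.2)) (labN (w (u e.1), e.2)) (labN (w (u f.1), f.2))) =
          (0 < dd (labN (w (u' a.1), a.2)) (labN (w (u' b.1), b.2)) (labN (w (u' c.1), c.2))
          (labN (w (u' d.1), d.2)) (labN (w (u' e.1), e.2)) (labN (w (u' f.1), f.2))) :=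
        congrFun h2 ![a, b, c, d, e, f]
      rw [hLN (u a.1, a.2), hLN (u b.1, b.2), hLN (u c.1, c.2), hLN (u d.1, d.2),
        hLN (u e.1, e.2), hLN (u f.1, f.2), hLN (u' a.1, a.2), hLN (u' b.1, b.2),
        hLN (u' c.1, c.2), hLN (u' d.1, d.2), hLN (u' e.1, e.2), hLN (u' f.1, f.2)] at h3
      exact iff_of_eq h3
  by_contra hcon
  apply hom_core L hgL hhL
  apply noCert_of_no_rel
  intro t a v hv hva hR
  exact hcon ⟨t, g ∘ a, g ∘ v, hginj.comp hv, fun i j hij => hva i j (hginj hij), hR.map hginj⟩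

end Pool.KN
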