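import Pool.Agent.Helper89.KN.HomTab

set_option autoImplicit false

namespace Pool.KN

theorem cb_of_case {L : Fin 12 × Bool → ℝ × ℝ} (ht : Tab L)
    (h : ¬ V1 L ∧ V2 L ∧ V3 L ∧ ¬ V4 L ∧ V6 L ∧ ¬ V7 L ∧ V8 L ∧ V9 L ∧ ¬ V10 L ∧ V11 L) : CB L := by
  obtain ⟨h1, h2, h3, h4, h6, h7, h8, h9, h10, h11⟩ := h
  exact ⟨fun i j hi hj => ht.n2a i j false hi hj h1, fun i j hi hj => ht.p2a i j true hi hj h2,
    fun i j hi hj => ht.p2b i j false hi hj h3, fun i j hi hj => ht.n2b i j true hi hj h4,
    fun i j k hi hj hk => ht.p3 i j k false false true hi hj hk h6,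
    fun i j k hi hj hk => ht.n3 i j k false true false hi hj hk h7,
    fun i j k hi hj hk => ht.p3 i j k false true true hi hj hk h8,
    fun i j k hi hj hk => ht.p3 i j k true false false hi hj hk h9,
    fun i j k hi hj hk => ht.n3 i j k true false true hi hj hk h10,
    fun i j k hi hj hk => ht.p3 i j k true true false hi hj hk h11⟩

theorem conv_of_cb {L : Fin 12 × Bool → ℝ × ℝ} (hc : CB L)
    (hp : ∀ i j k : Fin 12, i < j → j < k → k ≤ 8 →
      0 < br (L (i, false)) (L (j, false)) (L (k, false)))
    (hq : ∀ i j k : Fin 12, i < j → j < k → k ≤ 8 →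
      0 < br (L (i, true)) (L (j, true)) (L (k, true))) : Conv L := by
  rintro ⟨i, x⟩ ⟨j, y⟩ ⟨k, z⟩ hi hj hk h1 h2
  simp only at hi hj hk
  have li := i.2
  have lj := j.2
  have lk := k.2
  cases x <;> cases y <;> cases z <;> simp only [pos, if_true, if_false, Bool.false_eq_true, add_zero] at h1 h2
  · -- PPP
    exact hp i j k h1 h2 hk
  · -- PPQ, i < j, k arbitrary
    have hij : i < j := h1
    rcases lt_trichotomy k i with hki | hki | hki
    · have := hc.qpp k i j hki hij hj
      have e : br (L (i, false)) (L (j, false)) (L (k, true)) = br (L (k, true)) (L (i, false)) (L (j, false)) := by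
        unfold br; ring
      rw [e]; exact this
    · subst hki
      have := hc.a1 k j hij hj
      have e : br (L (k, false)) (L (j, false)) (L (k, true)) = - br (L (k, false)) (L (k, true)) (L (j, false)) := by
        unfold br; ring
      rw [e]; linarith
    · rcases lt_trichotomy k j with hkj | hkj | hkj
      · have := hc.pqp i k j hki hkj hj
        have e : br (L (i, false)) (L (j, false)) (L (k, true)) = - br (L (i, false)) (L (k, true)) (L (j, false)) := by
          unfold br; ring
        rw [e]; linarith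
      · subst hkj
        exact hc.a3 i k hij hk
      · exact hc.ppq i j k hij hkj hk
  · -- PQP impossible
    omega
  · -- PQQ : j < k
    have hjk : j < k := by
      rw [Fin.lt_def]; omega
    rcases lt_trichotomy i j with hij | hij | hij
    · exact hc.pqq i j k hij hjk hk
    · subst hij
      exact hc.a2 i k hjk hk
    · rcases lt_trichotomy i k with hik | hik | hik
      · have := hc.qpq j i k hij hik hk
        have e : br (L (i, false)) (L (j, true)) (L (k, true)) = - br (L (j, true)) (L (i, false)) (L (k, true)) := by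
          unfold br; ring
        rw [e]; linarith
      · subst hik
        have := hc.a4 j i hij hi
        have e : br (L (i, false)) (L (j, true)) (L (i, true)) = - br (L (j, true)) (L (i, false)) (L (i, true)) := by
          unfold br; ring
        rw [e]; linarith
      · have := hc.qqp j k i hjk hik hi
        have e : br (L (i, false)) (L (j, true)) (L (k, true)) = br (L (j, true)) (L (k, true)) (L (i, false)) := by
          unfold br; ring
        rw [e]; exact this
  · omega
  · omega
  · omega
  · -- QQQ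
    have hij : i < j := by rw [Fin.lt_def]; omega
    have hjk : j < k := by rw [Fin.lt_def]; omega
    exact hq i j k hij hjk hk

/-- Relabelling by an injective map keeps general position. -/
theorem Generic.comp {α β : Type*} {L : β → ℝ × ℝ} (hg : Generic L) (f : α → β)
    (hf : Function.Injective f) : Generic (fun a => L (f a)) := by
  refine ⟨fun a b c h => hg.1 _ _ _ ?_, fun a b c d e f' h => hg.2 _ _ _ _ _ _ ?_⟩
  · simpa using h.map hf
  · simpa using h.map hf

theorem Cert.symm {c x y p q : ℝ × ℝ} (h : Cert c x y p q) : Cert c x y q p := by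
  rcases h with ⟨h1, h2, h3, h4, h5⟩ | ⟨h1, h2, h3, h4, h5⟩
  · exact Or.inl ⟨h1, h4, h5, h2, h3⟩
  · exact Or.inr ⟨h1, h4, h5, h2, h3⟩

/-- swap of the two labels -/
def sw (z : Fin 12 × Bool) : Fin 12 × Bool := (z.1, !z.2)

theorem sw_inj : Function.Injective sw := by
  rintro ⟨i, x⟩ ⟨j, y⟩ h
  simp only [sw, Prod.mk.injEq] at h
  obtain ⟨rfl, h2⟩ := h
  cases x <;> cases y <;> simp_all

theorem Hom.swap {L : Fin 12 × Bool → ℝ × ℝ} (hh : Hom L) : Hom (fun z => L (sw z)) := by
  intro u u' hu hu'
  refine ⟨fun x y z => ?_, fun a b c d e f => ?_⟩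
  · exact (hh u u' hu hu').1 (x.1, !x.2) (y.1, !y.2) (z.1, !z.2)
  · exact (hh u u' hu hu').2 (a.1, !a.2) (b.1, !b.2) (c.1, !c.2) (d.1, !d.2) (e.1, !e.2) (f.1, !f.2)

theorem NoCert.swap {L : Fin 12 × Bool → ℝ × ℝ} (hn : NoCert L) : NoCert (fun z => L (sw z)) := by
  refine ⟨?_, ?_, ?_⟩
  · intro p q i j hpq hij h1 h2 h3 h4 h
    exact hn.line (sw p) (sw q) i j (fun h => hpq (sw_inj h)) hij h1 h2 h3 h4
      ⟨h.2.1, h.1, h.2.2.2, h.2.2.1⟩
  · intro c e f s x y h1 h2 h3 h4 h5 h6 h
    exact hn.point (sw c) e f s (!x) (!y) h1 h2 h3 h4 h5 h6 h.symm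
  · intro p q r t e f s x y hnd hefs hne hneg h
    refine hn.cross (sw p) (sw q) (sw r) (sw t) e f s (!x) (!y) ?_ hefs ?_ hneg h.symm
    · simpa using hnd.map sw_inj
    · intro i hi l hl
      simp only [List.mem_cons, List.not_mem_nil, or_false] at hl
      rcases hl with rfl | rfl | rfl | rfl
      · exact hne i hi p (by simp)
      · exact hne i hi q (by simp)
      · exact hne i hi r (by simp)
      · exact hne i hi t (by simp)

/-- reversal of the order of the pairs -/
def rv (z : Fin 12 × Bool) : Fin 12 × Bool := (Fin.rev z.1, z.2)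

theorem rv_inj : Function.Injective rv := by
  rintro ⟨i, x⟩ ⟨j, y⟩ h
  simp only [rv, Prod.mk.injEq, Fin.rev_inj] at h
  simp [h.1, h.2]

theorem Hom.reverse {L : Fin 12 × Bool → ℝ × ℝ} (hh : Hom L) : Hom (fun z => L (rv z)) := by
  intro u u' hu hu'
  have hm : ∀ w : Fin 6 → Fin 12, StrictMono w → StrictMono (fun i => Fin.rev (w (Fin.rev i))) := by
    intro w hw i j hij
    exact Fin.rev_lt_rev.2 (hw (Fin.rev_lt_rev.2 hij))
  have key := hh _ _ (hm u hu) (hm u' hu')
  refine ⟨fun x y z => ?_, fun a b c d e f => ?_⟩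
  · have := key.1 (Fin.rev x.1, x.2) (Fin.rev y.1, y.2) (Fin.rev z.1, z.2)
    simpa only [Fin.rev_rev, rv] using this
  · have := key.2 (Fin.rev a.1, a.2) (Fin.rev b.1, b.2) (Fin.rev c.1, c.2) (Fin.rev d.1, d.2)
      (Fin.rev e.1, e.2) (Fin.rev f.1, f.2)
    simpa only [Fin.rev_rev, rv] using this

theorem NoCert.reverse {L : Fin 12 × Bool → ℝ × ℝ} (hn : NoCert L) :
    NoCert (fun z => L (rv z)) := by
  have hr : ∀ {i j : Fin 12}, i ≠ j → Fin.rev i ≠ Fin.rev j := fun h h' => h (Fin.rev_inj.1 h')
  refine ⟨?_, ?_, ?_⟩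
  · intro p q i j hpq hij h1 h2 h3 h4 h
    exact hn.line (rv p) (rv q) (Fin.rev i) (Fin.rev j) (fun h => hpq (rv_inj h)) (hr hij)
      (hr h1) (hr h2) (hr h3) (hr h4) h
  · intro c e f s x y h1 h2 h3 h4 h5 h6 h
    exact hn.point (rv c) (Fin.rev e) (Fin.rev f) (Fin.rev s) x y (hr h1) (hr h2) (hr h3) (hr h4)
      (hr h5) (hr h6) h
  · intro p q r t e f s x y hnd hefs hne hneg h
    refine hn.cross (rv p) (rv q) (rv r) (rv t) (Fin.rev e) (Fin.rev f) (Fin.rev s) x y ?_ ?_ ?_ hneg h
    · simpa using hnd.map rv_inj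
    · simpa using hefs.map Fin.rev_injective
    · intro i hi l hl
      simp only [List.mem_cons, List.not_mem_nil, or_false] at hl hi
      have : ∀ a ∈ [e, f, s], ∀ b ∈ [p, q, r, t], Fin.rev a ≠ (rv b).1 := fun a ha b hb =>
        hr (hne a ha b hb)
      rcases hi with rfl | rfl | rfl <;> rcases hl with rfl | rfl | rfl | rfl <;>
        exact this _ (by simp) _ (by simp)

/-- the canonical crossing case is contradictory -/
theorem core_of_case {L : Fin 12 × Bool → ℝ × ℝ} (hg : Generic L) (hh : Hom L) (hn : NoCert L)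
    (h : ¬ V1 L ∧ V2 L ∧ V3 L ∧ ¬ V4 L ∧ V6 L ∧ ¬ V7 L ∧ V8 L ∧ V9 L ∧ ¬ V10 L ∧ V11 L) : False := by
  have ht := tab_of_hom hg hh
  have hc := cb_of_case ht h
  by_cases h5 : V5 L
  · by_cases h12 : V12 L
    · exact caseC L hg hh (conv_of_cb hc (fun i j k hi hj hk => ht.p3 i j k _ _ _ hi hj hk h5)
        (fun i j k hi hj hk => ht.p3 i j k _ _ _ hi hj hk h12)) hn
    · refine caseA (fun z => L (sw z)) (hg.comp sw sw_inj) hh.swap hn.swap ?_
        (fun i j k hi hj hk => ht.n3 i j k true true true hi hj hk h12)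
      refine ⟨fun i j hi hj => ?_, fun i j hi hj => ?_, fun i j hi hj => ?_, fun i j hi hj => ?_,
        fun i j k hi hj hk => hc.qqp i j k hi hj hk, fun i j k hi hj hk => hc.qpq i j k hi hj hk,
        fun i j k hi hj hk => hc.qpp i j k hi hj hk, fun i j k hi hj hk => hc.pqq i j k hi hj hk,
        fun i j k hi hj hk => hc.pqp i j k hi hj hk, fun i j k hi hj hk => hc.ppq i j k hi hj hk⟩
      · have := hc.a2 i j hi hj
        have e : br (L (i, true)) (L (i, false)) (L (j, true)) = - br (L (i, false)) (L (i, true)) (L (j, true)) := by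
          unfold br; ring
        show br (L (i, true)) (L (i, false)) (L (j, true)) < 0
        rw [e]; linarith
      · have := hc.a1 i j hi hj
        have e : br (L (i, true)) (L (i, false)) (L (j, false)) = - br (L (i, false)) (L (i, true)) (L (j, false)) := by
          unfold br; ring
        show 0 < br (L (i, true)) (L (i, false)) (L (j, false))
        rw [e]; linarith
      · have := hc.a4 i j hi hj
        have e : br (L (i, true)) (L (j, true)) (L (j, false)) = - br (L (i, true)) (L (j, false)) (L (j, true)) := by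
          unfold br; ring
        show 0 < br (L (i, true)) (L (j, true)) (L (j, false))
        rw [e]; linarith
      · have := hc.a3 i j hi hj
        have e : br (L (i, false)) (L (j, true)) (L (j, false)) = - br (L (i, false)) (L (j, false)) (L (j, true)) := by
          unfold br; ring
        show br (L (i, false)) (L (j, true)) (L (j, false)) < 0
        rw [e]; linarith
  · exact caseA L hg hh hn hc (fun i j k hi hj hk => ht.n3 i j k _ _ _ hi hj hk h5)

/-- **The combinatorial core**: a homogeneous generic family of twelve pairs has a certificate. -/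
theorem hom_core (L : Fin 12 × Bool → ℝ × ℝ) (hg : Generic L) (hh : Hom L) : ¬ NoCert L := by
  intro hn
  have ht := tab_of_hom hg hh
  rcases table L hn ht with h | h
  · exact core_of_case hg hh hn h
  · have hg' : Generic (fun z => L (rv z)) := hg.comp rv rv_inj
    have hh' := hh.reverse
    have hn' := hn.reverse
    rcases table _ hn' (tab_of_hom hg' hh') with h' | h'
    · exact core_of_case hg' hh' hn' h'
    · exfalso
      have h3 : ¬ V3 L := h.2.2.1
      apply h3
      have h1 : 0 < br (L (11, false)) (L (11, true)) (L (10, false)) := h'.1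
      have e : br (L (11, false)) (L (11, true)) (L (10, false)) =
          br (L (10, false)) (L (11, false)) (L (11, true)) := by unfold br; ring
      rw [e] at h1
      have k1 := (hh ![6, 7, 8, 9, 10, 11] ![0, 1, 2, 3, 4, 5] (by decide) (by decide)).1
        (4, false) (5, false) (5, true)
      have h2 : 0 < br (L (4, false)) (L (5, false)) (L (5, true)) := k1.1 h1
      by_contra h3'
      have := ht.n2b 4 5 false (by decide) (by decide) h3'
      linarith

end Pool.KN
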