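import Pool.Agent.Helper89.KN.Table

set_option autoImplicit false

namespace Pool.KN

theorem strictMono_vec (i j k : Fin 12) (h1 : i < j) (h2 : j < k) (h3 : k ≤ 8) :
    StrictMono (![i, j, k, 9, 10, 11] : Fin 6 → Fin 12) := by
  rw [Fin.strictMono_iff_lt_succ]
  intro a
  have h3' : k < 9 := lt_of_le_of_lt h3 (by decide)
  fin_cases a
  · exact h1
  · exact h2
  · exact h3'
  · exact (by decide : (9 : Fin 12) < 10)
  · exact (by decide : (10 : Fin 12) < 11)

theorem tab_of_hom {L : Fin 12 × Bool → ℝ × ℝ} (hg : Generic L) (hh : Hom L) : Tab L := by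
  have key3 : ∀ (i j k : Fin 12) (x y z : Bool), i < j → j < k → k ≤ 8 →
      (0 < br (L (i, x)) (L (j, y)) (L (k, z)) ↔ 0 < br (L (0, x)) (L (1, y)) (L (2, z))) := by
    intro i j k x y z h1 h2 h3
    exact (hh ![i, j, k, 9, 10, 11] ![0, 1, 2, 9, 10, 11] (strictMono_vec i j k h1 h2 h3)
      (strictMono_vec 0 1 2 (by decide) (by decide) (by decide))).1 (0, x) (1, y) (2, z)
  have key2a : ∀ (i j : Fin 12) (z : Bool), i < j → j ≤ 8 →
      (0 < br (L (i, false)) (L (i, true)) (L (j, z)) ↔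
        0 < br (L (0, false)) (L (0, true)) (L (1, z))) := by
    intro i j z h1 h2
    rcases lt_or_eq_of_le h2 with h3 | h3
    · exact (hh ![i, j, 8, 9, 10, 11] ![0, 1, 8, 9, 10, 11] (strictMono_vec i j 8 h1 h3 le_rfl)
        (strictMono_vec 0 1 8 (by decide) (by decide) le_rfl)).1 (0, false) (0, true) (1, z)
    · subst h3
      have hm : StrictMono (![i, 8, 9, 10, 11, 11] : Fin 6 → Fin 12) → False := fun h =>
        absurd (h (show (4 : Fin 6) < 5 by decide)) (lt_irrefl _)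
      by_cases hi : 0 < i
      · exact (hh ![0, i, 8, 9, 10, 11] ![0, 1, 2, 9, 10, 11] (strictMono_vec 0 i 8 hi h1 le_rfl)
          (strictMono_vec 0 1 2 (by decide) (by decide) (by decide))).1 (1, false) (1, true) (2, z)
          |>.trans ((hh ![0, 1, 2, 9, 10, 11] ![0, 1, 2, 9, 10, 11] (strictMono_vec 0 1 2 (by decide) (by decide) (by decide))
          (strictMono_vec 0 1 2 (by decide) (by decide) (by decide))).1 (1, false) (1, true) (2, z))
          |>.trans ((hh ![1, 2, 8, 9, 10, 11] ![0, 1, 8, 9, 10, 11] (strictMono_vec 1 2 8 (by decide) (by decide) le_rfl)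
          (strictMono_vec 0 1 8 (by decide) (by decide) le_rfl)).1 (0, false) (0, true) (1, z))
      · have hi0 : i = 0 := by
          by_contra h
          exact hi (Fin.pos_of_ne_zero h)
        subst hi0
        -- (0, 8): use positions (0,1) of [0,8,9,10,11,?] is impossible; use (0,2) of [0,1,8,9,10,11]
        have e1 := (hh ![0, 1, 8, 9, 10, 11] ![0, 1, 2, 9, 10, 11] (strictMono_vec 0 1 8 (by decide) (by decide) le_rfl)
          (strictMono_vec 0 1 2 (by decide) (by decide) (by decide))).1 (0, false) (0, true) (2, z)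
        have e2 := (hh ![0, 2, 8, 9, 10, 11] ![0, 1, 8, 9, 10, 11] (strictMono_vec 0 2 8 (by decide) (by decide) le_rfl)
          (strictMono_vec 0 1 8 (by decide) (by decide) le_rfl)).1 (0, false) (0, true) (1, z)
        exact e1.trans e2
  have key2b : ∀ (i j : Fin 12) (x : Bool), i < j → j ≤ 8 →
      (0 < br (L (i, x)) (L (j, false)) (L (j, true)) ↔
        0 < br (L (0, x)) (L (1, false)) (L (1, true))) := by
    intro i j x h1 h2
    rcases lt_or_eq_of_le h2 with h3 | h3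
    · exact (hh ![i, j, 8, 9, 10, 11] ![0, 1, 8, 9, 10, 11] (strictMono_vec i j 8 h1 h3 le_rfl)
        (strictMono_vec 0 1 8 (by decide) (by decide) le_rfl)).1 (0, x) (1, false) (1, true)
    · subst h3
      by_cases hi : 0 < i
      · exact ((hh ![0, i, 8, 9, 10, 11] ![0, 1, 2, 9, 10, 11] (strictMono_vec 0 i 8 hi h1 le_rfl)
          (strictMono_vec 0 1 2 (by decide) (by decide) (by decide))).1 (1, x) (2, false) (2, true)).trans
          ((hh ![1, 2, 8, 9, 10, 11] ![0, 1, 8, 9, 10, 11] (strictMono_vec 1 2 8 (by decide) (by decide) le_rfl)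
          (strictMono_vec 0 1 8 (by decide) (by decide) le_rfl)).1 (0, x) (1, false) (1, true))
      · have hi0 : i = 0 := by
          by_contra h
          exact hi (Fin.pos_of_ne_zero h)
        subst hi0
        have e1 := (hh ![0, 1, 8, 9, 10, 11] ![0, 1, 2, 9, 10, 11] (strictMono_vec 0 1 8 (by decide) (by decide) le_rfl)
          (strictMono_vec 0 1 2 (by decide) (by decide) (by decide))).1 (0, x) (2, false) (2, true)
        have e2 := (hh ![0, 2, 8, 9, 10, 11] ![0, 1, 8, 9, 10, 11] (strictMono_vec 0 2 8 (by decide) (by decide) le_rfl)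
          (strictMono_vec 0 1 8 (by decide) (by decide) le_rfl)).1 (0, x) (1, false) (1, true)
        exact e1.trans e2
  refine ⟨fun i j k x y z h1 h2 h3 h => (key3 i j k x y z h1 h2 h3).2 h,
    fun i j k x y z h1 h2 h3 h => ?_, fun i j z h1 h2 h => (key2a i j z h1 h2).2 h,
    fun i j z h1 h2 h => ?_, fun i j x h1 h2 h => (key2b i j x h1 h2).2 h,
    fun i j x h1 h2 h => ?_⟩
  · have hne := hg.1 (i, x) (j, y) (k, z) (by
      have := h1.ne; have := h2.ne; have := (h1.trans h2).ne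
      simp [*])
    rw [← key3 i j k x y z h1 h2 h3] at h
    exact lt_of_le_of_ne (not_lt.1 h) hne
  · have hne := hg.1 (i, false) (i, true) (j, z) (by
      have := h1.ne
      simp [*])
    rw [← key2a i j z h1 h2] at h
    exact lt_of_le_of_ne (not_lt.1 h) hne
  · have hne := hg.1 (i, x) (j, false) (j, true) (by
      have := h1.ne
      simp [*])
    rw [← key2b i j x h1 h2] at h
    exact lt_of_le_of_ne (not_lt.1 h) hne

theorem table (L : Fin 12 × Bool → ℝ × ℝ) (hn : NoCert L) (ht : Tab L) :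
    (¬ V1 L ∧ V2 L ∧ V3 L ∧ ¬ V4 L ∧ V6 L ∧ ¬ V7 L ∧ V8 L ∧ V9 L ∧ ¬ V10 L ∧ V11 L) ∨
    (V1 L ∧ ¬ V2 L ∧ ¬ V3 L ∧ V4 L ∧ ¬ V6 L ∧ V7 L ∧ ¬ V8 L ∧ ¬ V9 L ∧ V10 L ∧ ¬ V11 L) := by
  classical
  have key := prop12 (decide (V1 L)) (decide (V2 L)) (decide (V3 L)) (decide (V4 L)) (decide (V5 L))
    (decide (V6 L)) (decide (V7 L)) (decide (V8 L)) (decide (V9 L)) (decide (V10 L))
    (decide (V11 L)) (decide (V12 L)) ?_
  · simpa [and_assoc] using key
  · simp only [Bool.and_eq_true]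
    refine ⟨⟨⟨⟨⟨⟨⟨⟨⟨⟨⟨⟨⟨⟨⟨⟨⟨⟨⟨⟨⟨⟨⟨⟨⟨⟨⟨⟨⟨⟨⟨⟨⟨⟨⟨⟨⟨⟨⟨⟨⟨⟨⟨⟨⟨⟨⟨⟨⟨⟨⟨⟨⟨⟨⟨⟨?_, ?_⟩, ?_⟩, ?_⟩, ?_⟩, ?_⟩, ?_⟩, ?_⟩, ?_⟩, ?_⟩, ?_⟩, ?_⟩, ?_⟩, ?_⟩, ?_⟩, ?_⟩, ?_⟩, ?_⟩, ?_⟩, ?_⟩, ?_⟩, ?_⟩, ?_⟩, ?_⟩, ?_⟩, ?_⟩, ?_⟩, ?_⟩, ?_⟩, ?_⟩, ?_⟩, ?_⟩, ?_⟩, ?_⟩, ?_⟩, ?_⟩, ?_⟩, ?_⟩, ?_⟩, ?_⟩, ?_⟩, ?_⟩, ?_⟩, ?_⟩, ?_⟩, ?_⟩, ?_⟩, ?_⟩, ?_⟩, ?_⟩, ?_⟩, ?_⟩, ?_⟩, ?_⟩, ?_⟩, ?_⟩, ?_⟩
    · by_contra hc
      simp only [Bool.or_eq_true, decide_eq_true_eq, Bool.not_eq_true', decide_eq_false_iff_not, not_or, not_not] at hc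
      exact tc_0 L hn ht hc.1.2 hc.1.1.2 hc.2 hc.1.1.1
    · by_contra hc
      simp only [Bool.or_eq_true, decide_eq_true_eq, Bool.not_eq_true', decide_eq_false_iff_not, not_or, not_not] at hc
      exact tc_1 L hn ht hc.1.1.2 hc.1.2 hc.2 hc.1.1.1
    · by_contra hc
      simp only [Bool.or_eq_true, decide_eq_true_eq, Bool.not_eq_true', decide_eq_false_iff_not, not_or, not_not] at hc
      exact tc_2 L hn ht hc.1.2 hc.1.1.2 hc.2 hc.1.1.1
    · by_contra hc
      simp only [Bool.or_eq_true, decide_eq_true_eq, Bool.not_eq_true', decide_eq_false_iff_not, not_or, not_not] at hc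
      exact tc_3 L hn ht hc.1.2 hc.1.1.2 hc.1.1.1 hc.2
    · by_contra hc
      simp only [Bool.or_eq_true, decide_eq_true_eq, Bool.not_eq_true', decide_eq_false_iff_not, not_or, not_not] at hc
      exact tc_4 L hn ht hc.1.2 hc.1.1.2 hc.2 hc.1.1.1
    · by_contra hc
      simp only [Bool.or_eq_true, decide_eq_true_eq, Bool.not_eq_true', decide_eq_false_iff_not, not_or, not_not] at hc
      exact tc_5 L hn ht hc.1.1.2 hc.1.2 hc.1.1.1 hc.2
    · by_contra hc
      simp only [Bool.or_eq_true, decide_eq_true_eq, Bool.not_eq_true', decide_eq_false_iff_not, not_or, not_not] at hc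
      exact tc_6 L hn ht hc.2 hc.1.2 hc.1.1.2 hc.1.1.1
    · by_contra hc
      simp only [Bool.or_eq_true, decide_eq_true_eq, Bool.not_eq_true', decide_eq_false_iff_not, not_or, not_not] at hc
      exact tc_7 L hn ht hc.1.2 hc.1.1.2 hc.2 hc.1.1.1
    · by_contra hc
      simp only [Bool.or_eq_true, decide_eq_true_eq, Bool.not_eq_true', decide_eq_false_iff_not, not_or, not_not] at hc
      exact tc_8 L hn ht hc.1.2 hc.1.1.2 hc.2 hc.1.1.1
    · by_contra hc
      simp only [Bool.or_eq_true, decide_eq_true_eq, Bool.not_eq_true', decide_eq_false_iff_not, not_or, not_not] at hc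
      exact tc_9 L hn ht hc.1.2 hc.2 hc.1.1.2 hc.1.1.1
    · by_contra hc
      simp only [Bool.or_eq_true, decide_eq_true_eq, Bool.not_eq_true', decide_eq_false_iff_not, not_or, not_not] at hc
      exact tc_10 L hn ht hc.1.1.2 hc.1.2 hc.1.1.1 hc.2
    · by_contra hc
      simp only [Bool.or_eq_true, decide_eq_true_eq, Bool.not_eq_true', decide_eq_false_iff_not, not_or, not_not] at hc
      exact tc_11 L hn ht hc.1.1.2 hc.1.2 hc.1.1.1 hc.2
    · by_contra hc
      simp only [Bool.or_eq_true, decide_eq_true_eq, Bool.not_eq_true', decide_eq_false_iff_not, not_or, not_not] at hc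
      exact tc_12 L hn ht hc.1.1.1 hc.1.1.2 hc.1.2 hc.2
    · by_contra hc
      simp only [Bool.or_eq_true, decide_eq_true_eq, Bool.not_eq_true', decide_eq_false_iff_not, not_or, not_not] at hc
      exact tc_13 L hn ht hc.1.1.2 hc.1.2 hc.2 hc.1.1.1
    · by_contra hc
      simp only [Bool.or_eq_true, decide_eq_true_eq, Bool.not_eq_true', decide_eq_false_iff_not, not_or, not_not] at hc
      exact tc_14 L hn ht hc.1.2 hc.1.1.2 hc.2 hc.1.1.1
    · by_contra hc
      simp only [Bool.or_eq_true, decide_eq_true_eq, Bool.not_eq_true', decide_eq_false_iff_not, not_or, not_not] at hc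
      exact tc_15 L hn ht hc.1.2 hc.1.1.2 hc.1.1.1 hc.2
    · by_contra hc
      simp only [Bool.or_eq_true, decide_eq_true_eq, Bool.not_eq_true', decide_eq_false_iff_not, not_or, not_not] at hc
      exact tc_16 L hn ht hc.1.1.2 hc.1.2 hc.2 hc.1.1.1
    · by_contra hc
      simp only [Bool.or_eq_true, decide_eq_true_eq, Bool.not_eq_true', decide_eq_false_iff_not, not_or, not_not] at hc
      exact tc_17 L hn ht hc.1.1.2 hc.1.1.1 hc.1.2 hc.2
    · by_contra hc
      simp only [Bool.or_eq_true, decide_eq_true_eq, Bool.not_eq_true', decide_eq_false_iff_not, not_or, not_not] at hc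
      exact tc_18 L hn ht hc.1.2 hc.1.1.2 hc.1.1.1 hc.2
    · by_contra hc
      simp only [Bool.or_eq_true, decide_eq_true_eq, Bool.not_eq_true', decide_eq_false_iff_not, not_or, not_not] at hc
      exact tc_19 L hn ht hc.1.1.2 hc.1.1.1 hc.1.2 hc.2
    · by_contra hc
      simp only [Bool.or_eq_true, decide_eq_true_eq, Bool.not_eq_true', decide_eq_false_iff_not, not_or, not_not] at hc
      exact tc_20 L hn ht hc.1.2 hc.1.1.2 hc.1.1.1.2 hc.2 hc.1.1.1.1
    · by_contra hc
      simp only [Bool.or_eq_true, decide_eq_true_eq, Bool.not_eq_true', decide_eq_false_iff_not, not_or, not_not] at hc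
      exact tc_21 L hn ht hc.1.1.1.2 hc.1.1.2 hc.1.2 hc.2 hc.1.1.1.1
    · by_contra hc
      simp only [Bool.or_eq_true, decide_eq_true_eq, Bool.not_eq_true', decide_eq_false_iff_not, not_or, not_not] at hc
      exact tc_22 L hn ht hc.1.1.1.2 hc.1.1.2 hc.1.2 hc.2 hc.1.1.1.1
    · by_contra hc
      simp only [Bool.or_eq_true, decide_eq_true_eq, Bool.not_eq_true', decide_eq_false_iff_not, not_or, not_not] at hc
      exact tc_23 L hn ht hc.1.2 hc.1.1.2 hc.2 hc.1.1.1.2 hc.1.1.1.1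
    · by_contra hc
      simp only [Bool.or_eq_true, decide_eq_true_eq, Bool.not_eq_true', decide_eq_false_iff_not, not_or, not_not] at hc
      exact tc_24 L hn ht hc.1.2 hc.1.1.2 hc.1.1.1.2 hc.2 hc.1.1.1.1
    · by_contra hc
      simp only [Bool.or_eq_true, decide_eq_true_eq, Bool.not_eq_true', decide_eq_false_iff_not, not_or, not_not] at hc
      exact tc_25 L hn ht hc.1.2 hc.1.1.2 hc.1.1.1.2 hc.2 hc.1.1.1.1
    · by_contra hc
      simp only [Bool.or_eq_true, decide_eq_true_eq, Bool.not_eq_true', decide_eq_false_iff_not, not_or, not_not] at hc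
      exact tc_26 L hn ht hc.1.1.1.2 hc.1.1.2 hc.1.2 hc.2 hc.1.1.1.1
    · by_contra hc
      simp only [Bool.or_eq_true, decide_eq_true_eq, Bool.not_eq_true', decide_eq_false_iff_not, not_or, not_not] at hc
      exact tc_27 L hn ht hc.1.2 hc.1.1.2 hc.2 hc.1.1.1.2 hc.1.1.1.1
    · by_contra hc
      simp only [Bool.or_eq_true, decide_eq_true_eq, Bool.not_eq_true', decide_eq_false_iff_not, not_or, not_not] at hc
      exact tc_28 L hn ht hc.1.2 hc.1.1.2 hc.1.1.1.2 hc.1.1.1.1 hc.2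
    · by_contra hc
      simp only [Bool.or_eq_true, decide_eq_true_eq, Bool.not_eq_true', decide_eq_false_iff_not, not_or, not_not] at hc
      exact tc_29 L hn ht hc.1.1.1.2 hc.1.1.2 hc.1.2 hc.2 hc.1.1.1.1
    · by_contra hc
      simp only [Bool.or_eq_true, decide_eq_true_eq, Bool.not_eq_true', decide_eq_false_iff_not, not_or, not_not] at hc
      exact tc_30 L hn ht hc.1.2 hc.1.1.2 hc.2 hc.1.1.1.2 hc.1.1.1.1
    · by_contra hc
      simp only [Bool.or_eq_true, decide_eq_true_eq, Bool.not_eq_true', decide_eq_false_iff_not, not_or, not_not] at hc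
      exact tc_31 L hn ht hc.1.1.2 hc.1.2 hc.1.1.1.2 hc.2 hc.1.1.1.1
    · by_contra hc
      simp only [Bool.or_eq_true, decide_eq_true_eq, Bool.not_eq_true', decide_eq_false_iff_not, not_or, not_not] at hc
      exact tc_32 L hn ht hc.1.1.1.2 hc.1.1.2 hc.1.1.1.1 hc.1.2 hc.2
    · by_contra hc
      simp only [Bool.or_eq_true, decide_eq_true_eq, Bool.not_eq_true', decide_eq_false_iff_not, not_or, not_not] at hc
      exact tc_33 L hn ht hc.1.1.2 hc.1.1.1.2 hc.1.2 hc.2 hc.1.1.1.1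
    · by_contra hc
      simp only [Bool.or_eq_true, decide_eq_true_eq, Bool.not_eq_true', decide_eq_false_iff_not, not_or, not_not] at hc
      exact tc_34 L hn ht hc.1.1.1.2 hc.1.1.2 hc.1.2 hc.2 hc.1.1.1.1
    · by_contra hc
      simp only [Bool.or_eq_true, decide_eq_true_eq, Bool.not_eq_true', decide_eq_false_iff_not, not_or, not_not] at hc
      exact tc_35 L hn ht hc.1.2 hc.1.1.2 hc.1.1.1.2 hc.1.1.1.1 hc.2
    · by_contra hc
      simp only [Bool.or_eq_true, decide_eq_true_eq, Bool.not_eq_true', decide_eq_false_iff_not, not_or, not_not] at hc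
      exact tc_36 L hn ht hc.1.1.1.2 hc.1.1.2 hc.1.2 hc.1.1.1.1 hc.2
    · by_contra hc
      simp only [Bool.or_eq_true, decide_eq_true_eq, Bool.not_eq_true', decide_eq_false_iff_not, not_or, not_not] at hc
      exact tc_37 L hn ht hc.1.1.2 hc.1.1.1.2 hc.1.1.1.1 hc.1.2 hc.2
    · by_contra hc
      simp only [Bool.or_eq_true, decide_eq_true_eq, Bool.not_eq_true', decide_eq_false_iff_not, not_or, not_not] at hc
      exact tc_38 L hn ht hc.1.2 hc.2 hc.1.1.2 hc.1.1.1
    · by_contra hc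
      simp only [Bool.or_eq_true, decide_eq_true_eq, Bool.not_eq_true', decide_eq_false_iff_not, not_or, not_not] at hc
      exact tc_39 L hn ht hc.1.2 hc.1.1.2 hc.2 hc.1.1.1
    · by_contra hc
      simp only [Bool.or_eq_true, decide_eq_true_eq, Bool.not_eq_true', decide_eq_false_iff_not, not_or, not_not] at hc
      exact tc_40 L hn ht hc.1.1.2 hc.1.2 hc.1.1.1 hc.2
    · by_contra hc
      simp only [Bool.or_eq_true, decide_eq_true_eq, Bool.not_eq_true', decide_eq_false_iff_not, not_or, not_not] at hc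
      exact tc_41 L hn ht hc.1.2 hc.2 hc.1.1.2 hc.1.1.1
    · by_contra hc
      simp only [Bool.or_eq_true, decide_eq_true_eq, Bool.not_eq_true', decide_eq_false_iff_not, not_or, not_not] at hc
      exact tc_42 L hn ht hc.1.2 hc.1.1.2 hc.2 hc.1.1.1
    · by_contra hc
      simp only [Bool.or_eq_true, decide_eq_true_eq, Bool.not_eq_true', decide_eq_false_iff_not, not_or, not_not] at hc
      exact tc_43 L hn ht hc.1.1.2 hc.1.2 hc.1.1.1 hc.2
    · by_contra hc
      simp only [Bool.or_eq_true, decide_eq_true_eq, Bool.not_eq_true', decide_eq_false_iff_not, not_or, not_not] at hc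
      exact tc_44 L hn ht hc.1.1.2 hc.1.1.1 hc.1.2 hc.2
    · by_contra hc
      simp only [Bool.or_eq_true, decide_eq_true_eq, Bool.not_eq_true', decide_eq_false_iff_not, not_or, not_not] at hc
      exact tc_45 L hn ht hc.1.1.2 hc.1.1.1 hc.1.2 hc.2
    · by_contra hc
      simp only [Bool.or_eq_true, decide_eq_true_eq, Bool.not_eq_true', decide_eq_false_iff_not, not_or, not_not] at hc
      exact tc_46 L hn ht hc.2 hc.1.2 hc.1.1
    · by_contra hc
      simp only [Bool.or_eq_true, decide_eq_true_eq, Bool.not_eq_true', decide_eq_false_iff_not, not_or, not_not] at hc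
      exact tc_47 L hn ht hc.2 hc.1.2 hc.1.1
    · by_contra hc
      simp only [Bool.or_eq_true, decide_eq_true_eq, Bool.not_eq_true', decide_eq_false_iff_not, not_or, not_not] at hc
      exact tc_48 L hn ht hc.2 hc.1.2 hc.1.1
    · by_contra hc
      simp only [Bool.or_eq_true, decide_eq_true_eq, Bool.not_eq_true', decide_eq_false_iff_not, not_or, not_not] at hc
      exact tc_49 L hn ht hc.2 hc.1.2 hc.1.1
    · by_contra hc
      simp only [Bool.or_eq_true, decide_eq_true_eq, Bool.not_eq_true', decide_eq_false_iff_not, not_or, not_not] at hc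
      exact tc_50 L hn ht hc.2 hc.1.2 hc.1.1
    · by_contra hc
      simp only [Bool.or_eq_true, decide_eq_true_eq, Bool.not_eq_true', decide_eq_false_iff_not, not_or, not_not] at hc
      exact tc_51 L hn ht hc.1.1 hc.1.2 hc.2
    · by_contra hc
      simp only [Bool.or_eq_true, decide_eq_true_eq, Bool.not_eq_true', decide_eq_false_iff_not, not_or, not_not] at hc
      exact tc_52 L hn ht hc.1.1 hc.1.2 hc.2
    · by_contra hc
      simp only [Bool.or_eq_true, decide_eq_true_eq, Bool.not_eq_true', decide_eq_false_iff_not, not_or, not_not] at hc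
      exact tc_53 L hn ht hc.1.1 hc.1.2 hc.2
    · by_contra hc
      simp only [Bool.or_eq_true, decide_eq_true_eq, Bool.not_eq_true', decide_eq_false_iff_not, not_or, not_not] at hc
      exact tc_54 L hn ht hc.1.1 hc.1.2 hc.2
    · by_contra hc
      simp only [Bool.or_eq_true, decide_eq_true_eq, Bool.not_eq_true', decide_eq_false_iff_not, not_or, not_not] at hc
      exact tc_55 L hn ht hc.1.2 hc.1.1.2 hc.1.1.1 hc.2
    · by_contra hc
      simp only [Bool.or_eq_true, decide_eq_true_eq, Bool.not_eq_true', decide_eq_false_iff_not, not_or, not_not] at hc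
      exact tc_56 L hn ht hc.1.1.2 hc.1.1.1 hc.1.2 hc.2

end Pool.KN
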