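import Pool.Agent.Helper89.KN.CaseC

set_option autoImplicit false

namespace Pool.KN

/-- Sign table of a homogeneous family. -/
structure Tab (L : Fin 12 × Bool → ℝ × ℝ) : Prop where
  p3 : ∀ (i j k : Fin 12) (x y z : Bool), i < j → j < k → k ≤ 8 →
    0 < br (L (0, x)) (L (1, y)) (L (2, z)) → 0 < br (L (i, x)) (L (j, y)) (L (k, z))
  n3 : ∀ (i j k : Fin 12) (x y z : Bool), i < j → j < k → k ≤ 8 →
    ¬ 0 < br (L (0, x)) (L (1, y)) (L (2, z)) → br (L (i, x)) (L (j, y)) (L (k, z)) < 0
  p2a : ∀ (i j : Fin 12) (z : Bool), i < j → j ≤ 8 →
    0 < br (L (0, false)) (L (0, true)) (L (1, z)) → 0 < br (L (i, false)) (L (i, true)) (L (j, z))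
  n2a : ∀ (i j : Fin 12) (z : Bool), i < j → j ≤ 8 →
    ¬ 0 < br (L (0, false)) (L (0, true)) (L (1, z)) → br (L (i, false)) (L (i, true)) (L (j, z)) < 0
  p2b : ∀ (i j : Fin 12) (x : Bool), i < j → j ≤ 8 →
    0 < br (L (0, x)) (L (1, false)) (L (1, true)) → 0 < br (L (i, x)) (L (j, false)) (L (j, true))
  n2b : ∀ (i j : Fin 12) (x : Bool), i < j → j ≤ 8 →
    ¬ 0 < br (L (0, x)) (L (1, false)) (L (1, true)) → br (L (i, x)) (L (j, false)) (L (j, true)) < 0

def V1 (L : Fin 12 × Bool → ℝ × ℝ) : Prop := 0 < br (L (0, false)) (L (0, true)) (L (1, false))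
def V2 (L : Fin 12 × Bool → ℝ × ℝ) : Prop := 0 < br (L (0, false)) (L (0, true)) (L (1, true))
def V3 (L : Fin 12 × Bool → ℝ × ℝ) : Prop := 0 < br (L (0, false)) (L (1, false)) (L (1, true))
def V4 (L : Fin 12 × Bool → ℝ × ℝ) : Prop := 0 < br (L (0, true)) (L (1, false)) (L (1, true))
def V5 (L : Fin 12 × Bool → ℝ × ℝ) : Prop := 0 < br (L (0, false)) (L (1, false)) (L (2, false))
def V6 (L : Fin 12 × Bool → ℝ × ℝ) : Prop := 0 < br (L (0, false)) (L (1, false)) (L (2, true))
def V7 (L : Fin 12 × Bool → ℝ × ℝ) : Prop := 0 < br (L (0, false)) (L (1, true)) (L (2, false))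
def V8 (L : Fin 12 × Bool → ℝ × ℝ) : Prop := 0 < br (L (0, false)) (L (1, true)) (L (2, true))
def V9 (L : Fin 12 × Bool → ℝ × ℝ) : Prop := 0 < br (L (0, true)) (L (1, false)) (L (2, false))
def V10 (L : Fin 12 × Bool → ℝ × ℝ) : Prop := 0 < br (L (0, true)) (L (1, false)) (L (2, true))
def V11 (L : Fin 12 × Bool → ℝ × ℝ) : Prop := 0 < br (L (0, true)) (L (1, true)) (L (2, false))
def V12 (L : Fin 12 × Bool → ℝ × ℝ) : Prop := 0 < br (L (0, true)) (L (1, true)) (L (2, true))

theorem tc_0 (L : Fin 12 × Bool → ℝ × ℝ) (hn : NoCert L) (ht : Tab L) (h2 : ¬ V2 L) (h4 : V4 L) (h10 : ¬ V10 L) (h12 : V12 L) : False := by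
  have e : (br (L (1, false)) (L (1, true)) (L (2, true))) + -(br (L (0, true)) (L (1, true)) (L (2, true))) + (br (L (0, true)) (L (1, false)) (L (2, true))) + -(br (L (0, true)) (L (1, false)) (L (1, true))) = 0 := by unfold br; ring
  have f0 := (ht.n2a 1 2 true (by decide) (by decide) h2)
  have f1 := (ht.p3 0 1 2 true true true (by decide) (by decide) (by decide) h12)
  have f2 := (ht.n3 0 1 2 true false true (by decide) (by decide) (by decide) h10)
  have f3 := (ht.p2b 0 1 true (by decide) (by decide) h4)
  linarith

theorem tc_1 (L : Fin 12 × Bool → ℝ × ℝ) (hn : NoCert L) (ht : Tab L) (h1 : V1 L) (h2 : ¬ V2 L) (h7 : ¬ V7 L) (h11 : V11 L) : False := by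
  have e : (br (L (0, true)) (L (1, true)) (L (2, false))) + -(br (L (0, false)) (L (1, true)) (L (2, false))) + (br (L (0, false)) (L (0, true)) (L (2, false))) + -(br (L (0, false)) (L (0, true)) (L (1, true))) = 0 := by unfold br; ring
  have f0 := (ht.p3 0 1 2 true true false (by decide) (by decide) (by decide) h11)
  have f1 := (ht.n3 0 1 2 false true false (by decide) (by decide) (by decide) h7)
  have f2 := (ht.p2a 0 2 false (by decide) (by decide) h1)
  have f3 := (ht.n2a 0 1 true (by decide) (by decide) h2)
  linarith

theorem tc_2 (L : Fin 12 × Bool → ℝ × ℝ) (hn : NoCert L) (ht : Tab L) (h1 : ¬ V1 L) (h2 : V2 L) (h6 : ¬ V6 L) (h10 : V10 L) : False := by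
  have e : (br (L (0, true)) (L (1, false)) (L (2, true))) + -(br (L (0, false)) (L (1, false)) (L (2, true))) + (br (L (0, false)) (L (0, true)) (L (2, true))) + -(br (L (0, false)) (L (0, true)) (L (1, false))) = 0 := by unfold br; ring
  have f0 := (ht.p3 0 1 2 true false true (by decide) (by decide) (by decide) h10)
  have f1 := (ht.n3 0 1 2 false false true (by decide) (by decide) (by decide) h6)
  have f2 := (ht.p2a 0 2 true (by decide) (by decide) h2)
  have f3 := (ht.n2a 0 1 false (by decide) (by decide) h1)
  linarith

theorem tc_3 (L : Fin 12 × Bool → ℝ × ℝ) (hn : NoCert L) (ht : Tab L) (h3 : ¬ V3 L) (h4 : V4 L) (h9 : V9 L) (h10 : ¬ V10 L) : False := by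
  have e : (br (L (1, false)) (L (2, false)) (L (2, true))) + -(br (L (0, true)) (L (2, false)) (L (2, true))) + (br (L (0, true)) (L (1, false)) (L (2, true))) + -(br (L (0, true)) (L (1, false)) (L (2, false))) = 0 := by unfold br; ring
  have f0 := (ht.n2b 1 2 false (by decide) (by decide) h3)
  have f1 := (ht.p2b 0 2 true (by decide) (by decide) h4)
  have f2 := (ht.n3 0 1 2 true false true (by decide) (by decide) (by decide) h10)
  have f3 := (ht.p3 0 1 2 true false false (by decide) (by decide) (by decide) h9)
  linarith

theorem tc_4 (L : Fin 12 × Bool → ℝ × ℝ) (hn : NoCert L) (ht : Tab L) (h1 : ¬ V1 L) (h3 : V3 L) (h5 : ¬ V5 L) (h7 : V7 L) : False := by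
  have e : (br (L (1, false)) (L (1, true)) (L (2, false))) + -(br (L (0, false)) (L (1, true)) (L (2, false))) + (br (L (0, false)) (L (1, false)) (L (2, false))) + -(br (L (0, false)) (L (1, false)) (L (1, true))) = 0 := by unfold br; ring
  have f0 := (ht.n2a 1 2 false (by decide) (by decide) h1)
  have f1 := (ht.p3 0 1 2 false true false (by decide) (by decide) (by decide) h7)
  have f2 := (ht.n3 0 1 2 false false false (by decide) (by decide) (by decide) h5)
  have f3 := (ht.p2b 0 1 false (by decide) (by decide) h3)
  linarith

theorem tc_5 (L : Fin 12 × Bool → ℝ × ℝ) (hn : NoCert L) (ht : Tab L) (h3 : V3 L) (h4 : ¬ V4 L) (h7 : V7 L) (h8 : ¬ V8 L) : False := by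
  have e : (br (L (1, true)) (L (2, false)) (L (2, true))) + -(br (L (0, false)) (L (2, false)) (L (2, true))) + (br (L (0, false)) (L (1, true)) (L (2, true))) + -(br (L (0, false)) (L (1, true)) (L (2, false))) = 0 := by unfold br; ring
  have f0 := (ht.n2b 1 2 true (by decide) (by decide) h4)
  have f1 := (ht.p2b 0 2 false (by decide) (by decide) h3)
  have f2 := (ht.n3 0 1 2 false true true (by decide) (by decide) (by decide) h8)
  have f3 := (ht.p3 0 1 2 false true false (by decide) (by decide) (by decide) h7)
  linarith

theorem tc_6 (L : Fin 12 × Bool → ℝ × ℝ) (hn : NoCert L) (ht : Tab L) (h9 : ¬ V9 L) (h10 : V10 L) (h11 : V11 L) (h12 : V12 L) : False := by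
  have e : (br (L (0, true)) (L (1, false)) (L (2, true))) * (br (L (0, true)) (L (3, false)) (L (4, true))) + -(br (L (0, true)) (L (1, false)) (L (3, false))) * (br (L (0, true)) (L (2, true)) (L (4, true))) + (br (L (0, true)) (L (1, false)) (L (4, true))) * (br (L (0, true)) (L (2, true)) (L (3, false))) = 0 := by unfold br; ring
  have f0 := mul_pos (ht.p3 0 1 2 true false true (by decide) (by decide) (by decide) h10) (ht.p3 0 3 4 true false true (by decide) (by decide) (by decide) h10)
  have f1 := mul_neg_of_neg_of_pos (ht.n3 0 1 3 true false false (by decide) (by decide) (by decide) h9) (ht.p3 0 2 4 true true true (by decide) (by decide) (by decide) h12)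
  have f2 := mul_pos (ht.p3 0 1 4 true false true (by decide) (by decide) (by decide) h10) (ht.p3 0 2 3 true true false (by decide) (by decide) (by decide) h11)
  linarith

theorem tc_7 (L : Fin 12 × Bool → ℝ × ℝ) (hn : NoCert L) (ht : Tab L) (h2 : ¬ V2 L) (h8 : V8 L) (h10 : ¬ V10 L) (h12 : V12 L) : False := by
  have e : -(br (L (0, true)) (L (1, false)) (L (2, true))) * (br (L (1, true)) (L (2, true)) (L (3, true))) + (br (L (0, true)) (L (1, true)) (L (2, true))) * (br (L (1, false)) (L (2, true)) (L (3, true))) + -(br (L (0, true)) (L (2, true)) (L (3, true))) * (br (L (1, false)) (L (1, true)) (L (2, true))) = 0 := by unfold br; ring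
  have f0 := mul_neg_of_neg_of_pos (ht.n3 0 1 2 true false true (by decide) (by decide) (by decide) h10) (ht.p3 1 2 3 true true true (by decide) (by decide) (by decide) h12)
  have f1 := mul_pos (ht.p3 0 1 2 true true true (by decide) (by decide) (by decide) h12) (ht.p3 1 2 3 false true true (by decide) (by decide) (by decide) h8)
  have f2 := mul_neg_of_pos_of_neg (ht.p3 0 2 3 true true true (by decide) (by decide) (by decide) h12) (ht.n2a 1 2 true (by decide) (by decide) h2)
  linarith

theorem tc_8 (L : Fin 12 × Bool → ℝ × ℝ) (hn : NoCert L) (ht : Tab L) (h4 : V4 L) (h9 : V9 L) (h10 : ¬ V10 L) (h11 : V11 L) : False := by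
  have e : (br (L (0, true)) (L (1, false)) (L (2, false))) * (br (L (0, true)) (L (2, true)) (L (3, false))) + -(br (L (0, true)) (L (1, false)) (L (2, true))) * (br (L (0, true)) (L (2, false)) (L (3, false))) + (br (L (0, true)) (L (1, false)) (L (3, false))) * (br (L (0, true)) (L (2, false)) (L (2, true))) = 0 := by unfold br; ring
  have f0 := mul_pos (ht.p3 0 1 2 true false false (by decide) (by decide) (by decide) h9) (ht.p3 0 2 3 true true false (by decide) (by decide) (by decide) h11)
  have f1 := mul_neg_of_neg_of_pos (ht.n3 0 1 2 true false true (by decide) (by decide) (by decide) h10) (ht.p3 0 2 3 true false false (by decide) (by decide) (by decide) h9)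
  have f2 := mul_pos (ht.p3 0 1 3 true false false (by decide) (by decide) (by decide) h9) (ht.p2b 0 2 true (by decide) (by decide) h4)
  linarith

theorem tc_9 (L : Fin 12 × Bool → ℝ × ℝ) (hn : NoCert L) (ht : Tab L) (h1 : V1 L) (h7 : ¬ V7 L) (h9 : V9 L) (h11 : V11 L) : False := by
  have e : (br (L (0, true)) (L (1, false)) (L (3, false))) * (br (L (1, true)) (L (2, true)) (L (3, false))) + -(br (L (0, true)) (L (1, true)) (L (3, false))) * (br (L (1, false)) (L (2, true)) (L (3, false))) + (br (L (0, true)) (L (2, true)) (L (3, false))) * (br (L (1, false)) (L (1, true)) (L (3, false))) = 0 := by unfold br; ring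
  have f0 := mul_pos (ht.p3 0 1 3 true false false (by decide) (by decide) (by decide) h9) (ht.p3 1 2 3 true true false (by decide) (by decide) (by decide) h11)
  have f1 := mul_neg_of_pos_of_neg (ht.p3 0 1 3 true true false (by decide) (by decide) (by decide) h11) (ht.n3 1 2 3 false true false (by decide) (by decide) (by decide) h7)
  have f2 := mul_pos (ht.p3 0 2 3 true true false (by decide) (by decide) (by decide) h11) (ht.p2a 1 3 false (by decide) (by decide) h1)
  linarith

theorem tc_10 (L : Fin 12 × Bool → ℝ × ℝ) (hn : NoCert L) (ht : Tab L) (h2 : V2 L) (h8 : ¬ V8 L) (h10 : V10 L) (h12 : ¬ V12 L) : False := by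
  have e : -(br (L (0, true)) (L (1, false)) (L (2, true))) * (br (L (1, true)) (L (2, true)) (L (3, true))) + (br (L (0, true)) (L (1, true)) (L (2, true))) * (br (L (1, false)) (L (2, true)) (L (3, true))) + -(br (L (0, true)) (L (2, true)) (L (3, true))) * (br (L (1, false)) (L (1, true)) (L (2, true))) = 0 := by unfold br; ring
  have f0 := mul_neg_of_pos_of_neg (ht.p3 0 1 2 true false true (by decide) (by decide) (by decide) h10) (ht.n3 1 2 3 true true true (by decide) (by decide) (by decide) h12)
  have f1 := mul_pos_of_neg_of_neg (ht.n3 0 1 2 true true true (by decide) (by decide) (by decide) h12) (ht.n3 1 2 3 false true true (by decide) (by decide) (by decide) h8)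
  have f2 := mul_neg_of_neg_of_pos (ht.n3 0 2 3 true true true (by decide) (by decide) (by decide) h12) (ht.p2a 1 2 true (by decide) (by decide) h2)
  linarith

theorem tc_11 (L : Fin 12 × Bool → ℝ × ℝ) (hn : NoCert L) (ht : Tab L) (h4 : ¬ V4 L) (h9 : ¬ V9 L) (h10 : V10 L) (h11 : ¬ V11 L) : False := by
  have e : (br (L (0, true)) (L (1, false)) (L (2, false))) * (br (L (0, true)) (L (2, true)) (L (3, false))) + -(br (L (0, true)) (L (1, false)) (L (2, true))) * (br (L (0, true)) (L (2, false)) (L (3, false))) + (br (L (0, true)) (L (1, false)) (L (3, false))) * (br (L (0, true)) (L (2, false)) (L (2, true))) = 0 := by unfold br; ring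
  have f0 := mul_pos_of_neg_of_neg (ht.n3 0 1 2 true false false (by decide) (by decide) (by decide) h9) (ht.n3 0 2 3 true true false (by decide) (by decide) (by decide) h11)
  have f1 := mul_neg_of_pos_of_neg (ht.p3 0 1 2 true false true (by decide) (by decide) (by decide) h10) (ht.n3 0 2 3 true false false (by decide) (by decide) (by decide) h9)
  have f2 := mul_pos_of_neg_of_neg (ht.n3 0 1 3 true false false (by decide) (by decide) (by decide) h9) (ht.n2b 0 2 true (by decide) (by decide) h4)
  linarith

theorem tc_12 (L : Fin 12 × Bool → ℝ × ℝ) (hn : NoCert L) (ht : Tab L) (h9 : V9 L) (h10 : ¬ V10 L) (h11 : ¬ V11 L) (h12 : ¬ V12 L) : False := by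
  have e : (br (L (0, true)) (L (1, false)) (L (2, true))) * (br (L (0, true)) (L (3, false)) (L (4, true))) + -(br (L (0, true)) (L (1, false)) (L (3, false))) * (br (L (0, true)) (L (2, true)) (L (4, true))) + (br (L (0, true)) (L (1, false)) (L (4, true))) * (br (L (0, true)) (L (2, true)) (L (3, false))) = 0 := by unfold br; ring
  have f0 := mul_pos_of_neg_of_neg (ht.n3 0 1 2 true false true (by decide) (by decide) (by decide) h10) (ht.n3 0 3 4 true false true (by decide) (by decide) (by decide) h10)
  have f1 := mul_neg_of_pos_of_neg (ht.p3 0 1 3 true false false (by decide) (by decide) (by decide) h9) (ht.n3 0 2 4 true true true (by decide) (by decide) (by decide) h12)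
  have f2 := mul_pos_of_neg_of_neg (ht.n3 0 1 4 true false true (by decide) (by decide) (by decide) h10) (ht.n3 0 2 3 true true false (by decide) (by decide) (by decide) h11)
  linarith

theorem tc_13 (L : Fin 12 × Bool → ℝ × ℝ) (hn : NoCert L) (ht : Tab L) (h5 : ¬ V5 L) (h6 : ¬ V6 L) (h7 : ¬ V7 L) (h8 : V8 L) : False := by
  have e : (br (L (0, false)) (L (1, false)) (L (2, true))) * (br (L (0, false)) (L (3, false)) (L (4, true))) + -(br (L (0, false)) (L (1, false)) (L (3, false))) * (br (L (0, false)) (L (2, true)) (L (4, true))) + (br (L (0, false)) (L (1, false)) (L (4, true))) * (br (L (0, false)) (L (2, true)) (L (3, false))) = 0 := by unfold br; ring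
  have f0 := mul_pos_of_neg_of_neg (ht.n3 0 1 2 false false true (by decide) (by decide) (by decide) h6) (ht.n3 0 3 4 false false true (by decide) (by decide) (by decide) h6)
  have f1 := mul_neg_of_neg_of_pos (ht.n3 0 1 3 false false false (by decide) (by decide) (by decide) h5) (ht.p3 0 2 4 false true true (by decide) (by decide) (by decide) h8)
  have f2 := mul_pos_of_neg_of_neg (ht.n3 0 1 4 false false true (by decide) (by decide) (by decide) h6) (ht.n3 0 2 3 false true false (by decide) (by decide) (by decide) h7)
  linarith

theorem tc_14 (L : Fin 12 × Bool → ℝ × ℝ) (hn : NoCert L) (ht : Tab L) (h3 : V3 L) (h5 : V5 L) (h6 : ¬ V6 L) (h7 : V7 L) : False := by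
  have e : (br (L (0, false)) (L (1, false)) (L (2, false))) * (br (L (0, false)) (L (2, true)) (L (3, false))) + -(br (L (0, false)) (L (1, false)) (L (2, true))) * (br (L (0, false)) (L (2, false)) (L (3, false))) + (br (L (0, false)) (L (1, false)) (L (3, false))) * (br (L (0, false)) (L (2, false)) (L (2, true))) = 0 := by unfold br; ring
  have f0 := mul_pos (ht.p3 0 1 2 false false false (by decide) (by decide) (by decide) h5) (ht.p3 0 2 3 false true false (by decide) (by decide) (by decide) h7)
  have f1 := mul_neg_of_neg_of_pos (ht.n3 0 1 2 false false true (by decide) (by decide) (by decide) h6) (ht.p3 0 2 3 false false false (by decide) (by decide) (by decide) h5)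
  have f2 := mul_pos (ht.p3 0 1 3 false false false (by decide) (by decide) (by decide) h5) (ht.p2b 0 2 false (by decide) (by decide) h3)
  linarith

theorem tc_15 (L : Fin 12 × Bool → ℝ × ℝ) (hn : NoCert L) (ht : Tab L) (h3 : V3 L) (h5 : V5 L) (h7 : V7 L) (h8 : ¬ V8 L) : False := by
  have e : (br (L (0, false)) (L (1, true)) (L (2, false))) * (br (L (0, false)) (L (2, true)) (L (3, false))) + -(br (L (0, false)) (L (1, true)) (L (2, true))) * (br (L (0, false)) (L (2, false)) (L (3, false))) + (br (L (0, false)) (L (1, true)) (L (3, false))) * (br (L (0, false)) (L (2, false)) (L (2, true))) = 0 := by unfold br; ring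
  have f0 := mul_pos (ht.p3 0 1 2 false true false (by decide) (by decide) (by decide) h7) (ht.p3 0 2 3 false true false (by decide) (by decide) (by decide) h7)
  have f1 := mul_neg_of_neg_of_pos (ht.n3 0 1 2 false true true (by decide) (by decide) (by decide) h8) (ht.p3 0 2 3 false false false (by decide) (by decide) (by decide) h5)
  have f2 := mul_pos (ht.p3 0 1 3 false true false (by decide) (by decide) (by decide) h7) (ht.p2b 0 2 false (by decide) (by decide) h3)
  linarith

theorem tc_16 (L : Fin 12 × Bool → ℝ × ℝ) (hn : NoCert L) (ht : Tab L) (h3 : V3 L) (h5 : ¬ V5 L) (h6 : ¬ V6 L) (h7 : V7 L) : False := by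
  have e : (br (L (0, false)) (L (1, false)) (L (2, false))) * (br (L (0, false)) (L (2, true)) (L (3, false))) + -(br (L (0, false)) (L (1, false)) (L (2, true))) * (br (L (0, false)) (L (2, false)) (L (3, false))) + (br (L (0, false)) (L (1, false)) (L (3, false))) * (br (L (0, false)) (L (2, false)) (L (2, true))) = 0 := by unfold br; ring
  have f0 := mul_neg_of_neg_of_pos (ht.n3 0 1 2 false false false (by decide) (by decide) (by decide) h5) (ht.p3 0 2 3 false true false (by decide) (by decide) (by decide) h7)
  have f1 := mul_pos_of_neg_of_neg (ht.n3 0 1 2 false false true (by decide) (by decide) (by decide) h6) (ht.n3 0 2 3 false false false (by decide) (by decide) (by decide) h5)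
  have f2 := mul_neg_of_neg_of_pos (ht.n3 0 1 3 false false false (by decide) (by decide) (by decide) h5) (ht.p2b 0 2 false (by decide) (by decide) h3)
  linarith

theorem tc_17 (L : Fin 12 × Bool → ℝ × ℝ) (hn : NoCert L) (ht : Tab L) (h1 : ¬ V1 L) (h7 : V7 L) (h9 : ¬ V9 L) (h11 : ¬ V11 L) : False := by
  have e : (br (L (0, true)) (L (1, false)) (L (3, false))) * (br (L (1, true)) (L (2, true)) (L (3, false))) + -(br (L (0, true)) (L (1, true)) (L (3, false))) * (br (L (1, false)) (L (2, true)) (L (3, false))) + (br (L (0, true)) (L (2, true)) (L (3, false))) * (br (L (1, false)) (L (1, true)) (L (3, false))) = 0 := by unfold br; ring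
  have f0 := mul_pos_of_neg_of_neg (ht.n3 0 1 3 true false false (by decide) (by decide) (by decide) h9) (ht.n3 1 2 3 true true false (by decide) (by decide) (by decide) h11)
  have f1 := mul_neg_of_neg_of_pos (ht.n3 0 1 3 true true false (by decide) (by decide) (by decide) h11) (ht.p3 1 2 3 false true false (by decide) (by decide) (by decide) h7)
  have f2 := mul_pos_of_neg_of_neg (ht.n3 0 2 3 true true false (by decide) (by decide) (by decide) h11) (ht.n2a 1 3 false (by decide) (by decide) h1)
  linarith

theorem tc_18 (L : Fin 12 × Bool → ℝ × ℝ) (hn : NoCert L) (ht : Tab L) (h3 : ¬ V3 L) (h5 : V5 L) (h6 : V6 L) (h8 : ¬ V8 L) : False := by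
  have e : (br (L (0, false)) (L (1, false)) (L (2, false))) * (br (L (0, false)) (L (2, true)) (L (3, true))) + -(br (L (0, false)) (L (1, false)) (L (2, true))) * (br (L (0, false)) (L (2, false)) (L (3, true))) + (br (L (0, false)) (L (1, false)) (L (3, true))) * (br (L (0, false)) (L (2, false)) (L (2, true))) = 0 := by unfold br; ring
  have f0 := mul_neg_of_pos_of_neg (ht.p3 0 1 2 false false false (by decide) (by decide) (by decide) h5) (ht.n3 0 2 3 false true true (by decide) (by decide) (by decide) h8)
  have f1 := mul_pos (ht.p3 0 1 2 false false true (by decide) (by decide) (by decide) h6) (ht.p3 0 2 3 false false true (by decide) (by decide) (by decide) h6)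
  have f2 := mul_neg_of_pos_of_neg (ht.p3 0 1 3 false false true (by decide) (by decide) (by decide) h6) (ht.n2b 0 2 false (by decide) (by decide) h3)
  linarith

theorem tc_19 (L : Fin 12 × Bool → ℝ × ℝ) (hn : NoCert L) (ht : Tab L) (h2 : ¬ V2 L) (h6 : V6 L) (h10 : ¬ V10 L) (h12 : ¬ V12 L) : False := by
  have e : (br (L (0, true)) (L (1, false)) (L (3, true))) * (br (L (1, true)) (L (2, false)) (L (3, true))) + -(br (L (0, true)) (L (1, true)) (L (3, true))) * (br (L (1, false)) (L (2, false)) (L (3, true))) + (br (L (0, true)) (L (2, false)) (L (3, true))) * (br (L (1, false)) (L (1, true)) (L (3, true))) = 0 := by unfold br; ring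
  have f0 := mul_pos_of_neg_of_neg (ht.n3 0 1 3 true false true (by decide) (by decide) (by decide) h10) (ht.n3 1 2 3 true false true (by decide) (by decide) (by decide) h10)
  have f1 := mul_neg_of_neg_of_pos (ht.n3 0 1 3 true true true (by decide) (by decide) (by decide) h12) (ht.p3 1 2 3 false false true (by decide) (by decide) (by decide) h6)
  have f2 := mul_pos_of_neg_of_neg (ht.n3 0 2 3 true false true (by decide) (by decide) (by decide) h10) (ht.n2a 1 3 true (by decide) (by decide) h2)
  linarith

theorem tc_20 (L : Fin 12 × Bool → ℝ × ℝ) (hn : NoCert L) (ht : Tab L) (h1 : V1 L) (h2 : V2 L) (h4 : V4 L) (h11 : ¬ V11 L) (h12 : V12 L) : False := by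
  have e : (br (L (0, true)) (L (1, false)) (L (1, true))) * (br (L (1, true)) (L (2, false)) (L (2, true))) + -(br (L (0, true)) (L (1, true)) (L (2, false))) * (br (L (1, false)) (L (1, true)) (L (2, true))) + (br (L (0, true)) (L (1, true)) (L (2, true))) * (br (L (1, false)) (L (1, true)) (L (2, false))) = 0 := by unfold br; ring
  have f0 := mul_pos (ht.p2b 0 1 true (by decide) (by decide) h4) (ht.p2b 1 2 true (by decide) (by decide) h4)
  have f1 := mul_neg_of_neg_of_pos (ht.n3 0 1 2 true true false (by decide) (by decide) (by decide) h11) (ht.p2a 1 2 true (by decide) (by decide) h2)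
  have f2 := mul_pos (ht.p3 0 1 2 true true true (by decide) (by decide) (by decide) h12) (ht.p2a 1 2 false (by decide) (by decide) h1)
  linarith

theorem tc_21 (L : Fin 12 × Bool → ℝ × ℝ) (hn : NoCert L) (ht : Tab L) (h2 : ¬ V2 L) (h3 : ¬ V3 L) (h4 : ¬ V4 L) (h8 : ¬ V8 L) (h12 : V12 L) : False := by
  have e : -(br (L (0, false)) (L (0, true)) (L (1, true))) * (br (L (1, false)) (L (1, true)) (L (2, true))) + (br (L (0, false)) (L (1, false)) (L (1, true))) * (br (L (0, true)) (L (1, true)) (L (2, true))) + -(br (L (0, false)) (L (1, true)) (L (2, true))) * (br (L (0, true)) (L (1, false)) (L (1, true))) = 0 := by unfold br; ring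
  have f0 := mul_pos_of_neg_of_neg (ht.n2a 0 1 true (by decide) (by decide) h2) (ht.n2a 1 2 true (by decide) (by decide) h2)
  have f1 := mul_neg_of_neg_of_pos (ht.n2b 0 1 false (by decide) (by decide) h3) (ht.p3 0 1 2 true true true (by decide) (by decide) (by decide) h12)
  have f2 := mul_pos_of_neg_of_neg (ht.n3 0 1 2 false true true (by decide) (by decide) (by decide) h8) (ht.n2b 0 1 true (by decide) (by decide) h4)
  linarith

theorem tc_22 (L : Fin 12 × Bool → ℝ × ℝ) (hn : NoCert L) (ht : Tab L) (h4 : ¬ V4 L) (h7 : ¬ V7 L) (h8 : ¬ V8 L) (h11 : ¬ V11 L) (h12 : V12 L) : False := by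
  have e : -(br (L (0, false)) (L (1, true)) (L (2, true))) * (br (L (1, true)) (L (3, false)) (L (3, true))) + (br (L (0, false)) (L (1, true)) (L (3, false))) * (br (L (1, true)) (L (2, true)) (L (3, true))) + -(br (L (0, false)) (L (1, true)) (L (3, true))) * (br (L (1, true)) (L (2, true)) (L (3, false))) = 0 := by unfold br; ring
  have f0 := mul_pos_of_neg_of_neg (ht.n3 0 1 2 false true true (by decide) (by decide) (by decide) h8) (ht.n2b 1 3 true (by decide) (by decide) h4)
  have f1 := mul_neg_of_neg_of_pos (ht.n3 0 1 3 false true false (by decide) (by decide) (by decide) h7) (ht.p3 1 2 3 true true true (by decide) (by decide) (by decide) h12)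
  have f2 := mul_pos_of_neg_of_neg (ht.n3 0 1 3 false true true (by decide) (by decide) (by decide) h8) (ht.n3 1 2 3 true true false (by decide) (by decide) (by decide) h11)
  linarith

theorem tc_23 (L : Fin 12 × Bool → ℝ × ℝ) (hn : NoCert L) (ht : Tab L) (h1 : ¬ V1 L) (h6 : V6 L) (h9 : ¬ V9 L) (h10 : V10 L) (h11 : V11 L) : False := by
  have e : -(br (L (0, true)) (L (1, false)) (L (2, false))) * (br (L (1, true)) (L (2, false)) (L (3, true))) + (br (L (0, true)) (L (1, true)) (L (2, false))) * (br (L (1, false)) (L (2, false)) (L (3, true))) + -(br (L (0, true)) (L (2, false)) (L (3, true))) * (br (L (1, false)) (L (1, true)) (L (2, false))) = 0 := by unfold br; ring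
  have f0 := mul_neg_of_neg_of_pos (ht.n3 0 1 2 true false false (by decide) (by decide) (by decide) h9) (ht.p3 1 2 3 true false true (by decide) (by decide) (by decide) h10)
  have f1 := mul_pos (ht.p3 0 1 2 true true false (by decide) (by decide) (by decide) h11) (ht.p3 1 2 3 false false true (by decide) (by decide) (by decide) h6)
  have f2 := mul_neg_of_pos_of_neg (ht.p3 0 2 3 true false true (by decide) (by decide) (by decide) h10) (ht.n2a 1 2 false (by decide) (by decide) h1)
  linarith

theorem tc_24 (L : Fin 12 × Bool → ℝ × ℝ) (hn : NoCert L) (ht : Tab L) (h4 : V4 L) (h7 : V7 L) (h8 : V8 L) (h9 : ¬ V9 L) (h11 : V11 L) : False := by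
  have e : -(br (L (0, false)) (L (1, true)) (L (2, false))) * (br (L (1, true)) (L (2, true)) (L (3, false))) + (br (L (0, false)) (L (1, true)) (L (2, true))) * (br (L (1, true)) (L (2, false)) (L (3, false))) + -(br (L (0, false)) (L (1, true)) (L (3, false))) * (br (L (1, true)) (L (2, false)) (L (2, true))) = 0 := by unfold br; ring
  have f0 := mul_pos (ht.p3 0 1 2 false true false (by decide) (by decide) (by decide) h7) (ht.p3 1 2 3 true true false (by decide) (by decide) (by decide) h11)
  have f1 := mul_neg_of_pos_of_neg (ht.p3 0 1 2 false true true (by decide) (by decide) (by decide) h8) (ht.n3 1 2 3 true false false (by decide) (by decide) (by decide) h9)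
  have f2 := mul_pos (ht.p3 0 1 3 false true false (by decide) (by decide) (by decide) h7) (ht.p2b 1 2 true (by decide) (by decide) h4)
  linarith

theorem tc_25 (L : Fin 12 × Bool → ℝ × ℝ) (hn : NoCert L) (ht : Tab L) (h1 : V1 L) (h2 : V2 L) (h4 : V4 L) (h9 : ¬ V9 L) (h11 : V11 L) : False := by
  have e : -(br (L (0, false)) (L (0, true)) (L (1, false))) * (br (L (0, true)) (L (1, true)) (L (2, false))) + (br (L (0, false)) (L (0, true)) (L (1, true))) * (br (L (0, true)) (L (1, false)) (L (2, false))) + -(br (L (0, false)) (L (0, true)) (L (2, false))) * (br (L (0, true)) (L (1, false)) (L (1, true))) = 0 := by unfold br; ring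
  have f0 := mul_pos (ht.p2a 0 1 false (by decide) (by decide) h1) (ht.p3 0 1 2 true true false (by decide) (by decide) (by decide) h11)
  have f1 := mul_neg_of_pos_of_neg (ht.p2a 0 1 true (by decide) (by decide) h2) (ht.n3 0 1 2 true false false (by decide) (by decide) (by decide) h9)
  have f2 := mul_pos (ht.p2a 0 2 false (by decide) (by decide) h1) (ht.p2b 0 1 true (by decide) (by decide) h4)
  linarith

theorem tc_26 (L : Fin 12 × Bool → ℝ × ℝ) (hn : NoCert L) (ht : Tab L) (h1 : ¬ V1 L) (h3 : ¬ V3 L) (h4 : ¬ V4 L) (h9 : ¬ V9 L) (h11 : V11 L) : False := by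
  have e : -(br (L (0, true)) (L (1, false)) (L (2, false))) * (br (L (1, true)) (L (2, false)) (L (2, true))) + (br (L (0, true)) (L (1, true)) (L (2, false))) * (br (L (1, false)) (L (2, false)) (L (2, true))) + -(br (L (0, true)) (L (2, false)) (L (2, true))) * (br (L (1, false)) (L (1, true)) (L (2, false))) = 0 := by unfold br; ring
  have f0 := mul_pos_of_neg_of_neg (ht.n3 0 1 2 true false false (by decide) (by decide) (by decide) h9) (ht.n2b 1 2 true (by decide) (by decide) h4)
  have f1 := mul_neg_of_pos_of_neg (ht.p3 0 1 2 true true false (by decide) (by decide) (by decide) h11) (ht.n2b 1 2 false (by decide) (by decide) h3)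
  have f2 := mul_pos_of_neg_of_neg (ht.n2b 0 2 true (by decide) (by decide) h4) (ht.n2a 1 2 false (by decide) (by decide) h1)
  linarith

theorem tc_27 (L : Fin 12 × Bool → ℝ × ℝ) (hn : NoCert L) (ht : Tab L) (h3 : ¬ V3 L) (h6 : V6 L) (h8 : ¬ V8 L) (h9 : V9 L) (h10 : V10 L) : False := by
  have e : -(br (L (0, true)) (L (1, false)) (L (2, false))) * (br (L (1, false)) (L (2, true)) (L (3, true))) + (br (L (0, true)) (L (1, false)) (L (2, true))) * (br (L (1, false)) (L (2, false)) (L (3, true))) + -(br (L (0, true)) (L (1, false)) (L (3, true))) * (br (L (1, false)) (L (2, false)) (L (2, true))) = 0 := by unfold br; ring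
  have f0 := mul_neg_of_pos_of_neg (ht.p3 0 1 2 true false false (by decide) (by decide) (by decide) h9) (ht.n3 1 2 3 false true true (by decide) (by decide) (by decide) h8)
  have f1 := mul_pos (ht.p3 0 1 2 true false true (by decide) (by decide) (by decide) h10) (ht.p3 1 2 3 false false true (by decide) (by decide) (by decide) h6)
  have f2 := mul_neg_of_pos_of_neg (ht.p3 0 1 3 true false true (by decide) (by decide) (by decide) h10) (ht.n2b 1 2 false (by decide) (by decide) h3)
  linarith

theorem tc_28 (L : Fin 12 × Bool → ℝ × ℝ) (hn : NoCert L) (ht : Tab L) (h1 : V1 L) (h3 : V3 L) (h4 : V4 L) (h9 : V9 L) (h11 : ¬ V11 L) : False := by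
  have e : -(br (L (0, true)) (L (1, false)) (L (2, false))) * (br (L (1, true)) (L (2, false)) (L (2, true))) + (br (L (0, true)) (L (1, true)) (L (2, false))) * (br (L (1, false)) (L (2, false)) (L (2, true))) + -(br (L (0, true)) (L (2, false)) (L (2, true))) * (br (L (1, false)) (L (1, true)) (L (2, false))) = 0 := by unfold br; ring
  have f0 := mul_pos (ht.p3 0 1 2 true false false (by decide) (by decide) (by decide) h9) (ht.p2b 1 2 true (by decide) (by decide) h4)
  have f1 := mul_neg_of_neg_of_pos (ht.n3 0 1 2 true true false (by decide) (by decide) (by decide) h11) (ht.p2b 1 2 false (by decide) (by decide) h3)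
  have f2 := mul_pos (ht.p2b 0 2 true (by decide) (by decide) h4) (ht.p2a 1 2 false (by decide) (by decide) h1)
  linarith

theorem tc_29 (L : Fin 12 × Bool → ℝ × ℝ) (hn : NoCert L) (ht : Tab L) (h1 : ¬ V1 L) (h3 : ¬ V3 L) (h4 : ¬ V4 L) (h5 : ¬ V5 L) (h9 : V9 L) : False := by
  have e : (br (L (0, false)) (L (0, true)) (L (1, false))) * (br (L (1, false)) (L (1, true)) (L (2, false))) + -(br (L (0, false)) (L (1, false)) (L (1, true))) * (br (L (0, true)) (L (1, false)) (L (2, false))) + (br (L (0, false)) (L (1, false)) (L (2, false))) * (br (L (0, true)) (L (1, false)) (L (1, true))) = 0 := by unfold br; ring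
  have f0 := mul_pos_of_neg_of_neg (ht.n2a 0 1 false (by decide) (by decide) h1) (ht.n2a 1 2 false (by decide) (by decide) h1)
  have f1 := mul_neg_of_neg_of_pos (ht.n2b 0 1 false (by decide) (by decide) h3) (ht.p3 0 1 2 true false false (by decide) (by decide) (by decide) h9)
  have f2 := mul_pos_of_neg_of_neg (ht.n3 0 1 2 false false false (by decide) (by decide) (by decide) h5) (ht.n2b 0 1 true (by decide) (by decide) h4)
  linarith

theorem tc_30 (L : Fin 12 × Bool → ℝ × ℝ) (hn : NoCert L) (ht : Tab L) (h1 : ¬ V1 L) (h2 : V2 L) (h3 : ¬ V3 L) (h6 : V6 L) (h8 : V8 L) : False := by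
  have e : (br (L (0, false)) (L (0, true)) (L (1, false))) * (br (L (0, false)) (L (1, true)) (L (2, true))) + -(br (L (0, false)) (L (0, true)) (L (1, true))) * (br (L (0, false)) (L (1, false)) (L (2, true))) + (br (L (0, false)) (L (0, true)) (L (2, true))) * (br (L (0, false)) (L (1, false)) (L (1, true))) = 0 := by unfold br; ring
  have f0 := mul_neg_of_neg_of_pos (ht.n2a 0 1 false (by decide) (by decide) h1) (ht.p3 0 1 2 false true true (by decide) (by decide) (by decide) h8)
  have f1 := mul_pos (ht.p2a 0 1 true (by decide) (by decide) h2) (ht.p3 0 1 2 false false true (by decide) (by decide) (by decide) h6)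
  have f2 := mul_neg_of_pos_of_neg (ht.p2a 0 2 true (by decide) (by decide) h2) (ht.n2b 0 1 false (by decide) (by decide) h3)
  linarith

theorem tc_31 (L : Fin 12 × Bool → ℝ × ℝ) (hn : NoCert L) (ht : Tab L) (h1 : ¬ V1 L) (h2 : ¬ V2 L) (h3 : V3 L) (h6 : ¬ V6 L) (h8 : V8 L) : False := by
  have e : (br (L (0, false)) (L (0, true)) (L (1, false))) * (br (L (0, false)) (L (1, true)) (L (2, true))) + -(br (L (0, false)) (L (0, true)) (L (1, true))) * (br (L (0, false)) (L (1, false)) (L (2, true))) + (br (L (0, false)) (L (0, true)) (L (2, true))) * (br (L (0, false)) (L (1, false)) (L (1, true))) = 0 := by unfold br; ring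
  have f0 := mul_neg_of_neg_of_pos (ht.n2a 0 1 false (by decide) (by decide) h1) (ht.p3 0 1 2 false true true (by decide) (by decide) (by decide) h8)
  have f1 := mul_pos_of_neg_of_neg (ht.n2a 0 1 true (by decide) (by decide) h2) (ht.n3 0 1 2 false false true (by decide) (by decide) (by decide) h6)
  have f2 := mul_neg_of_neg_of_pos (ht.n2a 0 2 true (by decide) (by decide) h2) (ht.p2b 0 1 false (by decide) (by decide) h3)
  linarith

theorem tc_32 (L : Fin 12 × Bool → ℝ × ℝ) (hn : NoCert L) (ht : Tab L) (h3 : V3 L) (h6 : ¬ V6 L) (h8 : V8 L) (h9 : ¬ V9 L) (h10 : ¬ V10 L) : False := by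
  have e : -(br (L (0, true)) (L (1, false)) (L (2, false))) * (br (L (1, false)) (L (2, true)) (L (3, true))) + (br (L (0, true)) (L (1, false)) (L (2, true))) * (br (L (1, false)) (L (2, false)) (L (3, true))) + -(br (L (0, true)) (L (1, false)) (L (3, true))) * (br (L (1, false)) (L (2, false)) (L (2, true))) = 0 := by unfold br; ring
  have f0 := mul_neg_of_neg_of_pos (ht.n3 0 1 2 true false false (by decide) (by decide) (by decide) h9) (ht.p3 1 2 3 false true true (by decide) (by decide) (by decide) h8)
  have f1 := mul_pos_of_neg_of_neg (ht.n3 0 1 2 true false true (by decide) (by decide) (by decide) h10) (ht.n3 1 2 3 false false true (by decide) (by decide) (by decide) h6)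
  have f2 := mul_neg_of_neg_of_pos (ht.n3 0 1 3 true false true (by decide) (by decide) (by decide) h10) (ht.p2b 1 2 false (by decide) (by decide) h3)
  linarith

theorem tc_33 (L : Fin 12 × Bool → ℝ × ℝ) (hn : NoCert L) (ht : Tab L) (h1 : V1 L) (h2 : V2 L) (h6 : ¬ V6 L) (h7 : ¬ V7 L) (h8 : V8 L) : False := by
  have e : (br (L (0, false)) (L (0, true)) (L (1, true))) * (br (L (0, false)) (L (2, false)) (L (3, true))) + -(br (L (0, false)) (L (0, true)) (L (2, false))) * (br (L (0, false)) (L (1, true)) (L (3, true))) + (br (L (0, false)) (L (0, true)) (L (3, true))) * (br (L (0, false)) (L (1, true)) (L (2, false))) = 0 := by unfold br; ring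
  have f0 := mul_neg_of_pos_of_neg (ht.p2a 0 1 true (by decide) (by decide) h2) (ht.n3 0 2 3 false false true (by decide) (by decide) (by decide) h6)
  have f1 := mul_pos (ht.p2a 0 2 false (by decide) (by decide) h1) (ht.p3 0 1 3 false true true (by decide) (by decide) (by decide) h8)
  have f2 := mul_neg_of_pos_of_neg (ht.p2a 0 3 true (by decide) (by decide) h2) (ht.n3 0 1 2 false true false (by decide) (by decide) (by decide) h7)
  linarith

theorem tc_34 (L : Fin 12 × Bool → ℝ × ℝ) (hn : NoCert L) (ht : Tab L) (h2 : ¬ V2 L) (h3 : ¬ V3 L) (h4 : ¬ V4 L) (h6 : ¬ V6 L) (h8 : V8 L) : False := by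
  have e : (br (L (0, false)) (L (1, false)) (L (2, true))) * (br (L (1, true)) (L (2, false)) (L (2, true))) + -(br (L (0, false)) (L (1, true)) (L (2, true))) * (br (L (1, false)) (L (2, false)) (L (2, true))) + (br (L (0, false)) (L (2, false)) (L (2, true))) * (br (L (1, false)) (L (1, true)) (L (2, true))) = 0 := by unfold br; ring
  have f0 := mul_pos_of_neg_of_neg (ht.n3 0 1 2 false false true (by decide) (by decide) (by decide) h6) (ht.n2b 1 2 true (by decide) (by decide) h4)
  have f1 := mul_neg_of_pos_of_neg (ht.p3 0 1 2 false true true (by decide) (by decide) (by decide) h8) (ht.n2b 1 2 false (by decide) (by decide) h3)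
  have f2 := mul_pos_of_neg_of_neg (ht.n2b 0 2 false (by decide) (by decide) h3) (ht.n2a 1 2 true (by decide) (by decide) h2)
  linarith

theorem tc_35 (L : Fin 12 × Bool → ℝ × ℝ) (hn : NoCert L) (ht : Tab L) (h2 : V2 L) (h3 : V3 L) (h4 : V4 L) (h6 : V6 L) (h8 : ¬ V8 L) : False := by
  have e : (br (L (0, false)) (L (1, false)) (L (2, true))) * (br (L (1, true)) (L (2, false)) (L (2, true))) + -(br (L (0, false)) (L (1, true)) (L (2, true))) * (br (L (1, false)) (L (2, false)) (L (2, true))) + (br (L (0, false)) (L (2, false)) (L (2, true))) * (br (L (1, false)) (L (1, true)) (L (2, true))) = 0 := by unfold br; ring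
  have f0 := mul_pos (ht.p3 0 1 2 false false true (by decide) (by decide) (by decide) h6) (ht.p2b 1 2 true (by decide) (by decide) h4)
  have f1 := mul_neg_of_neg_of_pos (ht.n3 0 1 2 false true true (by decide) (by decide) (by decide) h8) (ht.p2b 1 2 false (by decide) (by decide) h3)
  have f2 := mul_pos (ht.p2b 0 2 false (by decide) (by decide) h3) (ht.p2a 1 2 true (by decide) (by decide) h2)
  linarith

theorem tc_36 (L : Fin 12 × Bool → ℝ × ℝ) (hn : NoCert L) (ht : Tab L) (h1 : ¬ V1 L) (h2 : ¬ V2 L) (h3 : ¬ V3 L) (h5 : V5 L) (h6 : ¬ V6 L) : False := by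
  have e : -(br (L (0, false)) (L (1, false)) (L (1, true))) * (br (L (1, false)) (L (2, false)) (L (2, true))) + (br (L (0, false)) (L (1, false)) (L (2, false))) * (br (L (1, false)) (L (1, true)) (L (2, true))) + -(br (L (0, false)) (L (1, false)) (L (2, true))) * (br (L (1, false)) (L (1, true)) (L (2, false))) = 0 := by unfold br; ring
  have f0 := mul_pos_of_neg_of_neg (ht.n2b 0 1 false (by decide) (by decide) h3) (ht.n2b 1 2 false (by decide) (by decide) h3)
  have f1 := mul_neg_of_pos_of_neg (ht.p3 0 1 2 false false false (by decide) (by decide) (by decide) h5) (ht.n2a 1 2 true (by decide) (by decide) h2)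
  have f2 := mul_pos_of_neg_of_neg (ht.n3 0 1 2 false false true (by decide) (by decide) (by decide) h6) (ht.n2a 1 2 false (by decide) (by decide) h1)
  linarith

theorem tc_37 (L : Fin 12 × Bool → ℝ × ℝ) (hn : NoCert L) (ht : Tab L) (h1 : ¬ V1 L) (h2 : V2 L) (h4 : V4 L) (h9 : ¬ V9 L) (h10 : ¬ V10 L) : False := by
  have e : -(br (L (0, false)) (L (0, true)) (L (1, false))) * (br (L (0, true)) (L (2, false)) (L (2, true))) + (br (L (0, false)) (L (0, true)) (L (2, false))) * (br (L (0, true)) (L (1, false)) (L (2, true))) + -(br (L (0, false)) (L (0, true)) (L (2, true))) * (br (L (0, true)) (L (1, false)) (L (2, false))) = 0 := by unfold br; ring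
  have f0 := mul_neg_of_neg_of_pos (ht.n2a 0 1 false (by decide) (by decide) h1) (ht.p2b 0 2 true (by decide) (by decide) h4)
  have f1 := mul_pos_of_neg_of_neg (ht.n2a 0 2 false (by decide) (by decide) h1) (ht.n3 0 1 2 true false true (by decide) (by decide) (by decide) h10)
  have f2 := mul_neg_of_pos_of_neg (ht.p2a 0 2 true (by decide) (by decide) h2) (ht.n3 0 1 2 true false false (by decide) (by decide) (by decide) h9)
  linarith

theorem tc_38 (L : Fin 12 × Bool → ℝ × ℝ) (hn : NoCert L) (ht : Tab L) (h7 : ¬ V7 L) (h8 : ¬ V8 L) (h11 : V11 L) (h12 : V12 L) : False := by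
  have g0 : br (L (0, false)) (L (1, true)) (L (2, true)) < 0 := by
    have e : br (L (0, false)) (L (1, true)) (L (2, true)) = (br (L (0, false)) (L (1, true)) (L (2, true))) := by unfold br; ring
    have h := (ht.n3 0 1 2 false true true (by decide) (by decide) (by decide) h8)
    linarith
  have g1 : br (L (1, true)) (L (3, false)) (L (2, true)) < 0 := by
    have e : br (L (1, true)) (L (3, false)) (L (2, true)) = -(br (L (1, true)) (L (2, true)) (L (3, false))) := by unfold br; ring
    have h := (ht.p3 1 2 3 true true false (by decide) (by decide) (by decide) h11)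
    linarith
  have g2 : br (L (3, false)) (L (0, false)) (L (2, true)) < 0 := by
    have e : br (L (3, false)) (L (0, false)) (L (2, true)) = (br (L (0, false)) (L (2, true)) (L (3, false))) := by unfold br; ring
    have h := (ht.n3 0 2 3 false true false (by decide) (by decide) (by decide) h7)
    linarith
  have g3 : br (L (1, true)) (L (3, true)) (L (2, true)) < 0 := by
    have e : br (L (1, true)) (L (3, true)) (L (2, true)) = -(br (L (1, true)) (L (2, true)) (L (3, true))) := by unfold br; ring
    have h := (ht.p3 1 2 3 true true true (by decide) (by decide) (by decide) h12)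
    linarith
  have g4 : br (L (3, true)) (L (0, false)) (L (2, true)) < 0 := by
    have e : br (L (3, true)) (L (0, false)) (L (2, true)) = (br (L (0, false)) (L (2, true)) (L (3, true))) := by unfold br; ring
    have h := (ht.n3 0 2 3 false true true (by decide) (by decide) (by decide) h8)
    linarith
  exact hn.point (2, true) 0 1 3 false true (by decide) (by decide) (by decide) (by decide) (by decide) (by decide) (Or.inr ⟨g0, g1, g2, g3, g4⟩)

theorem tc_39 (L : Fin 12 × Bool → ℝ × ℝ) (hn : NoCert L) (ht : Tab L) (h7 : ¬ V7 L) (h8 : V8 L) (h11 : ¬ V11 L) (h12 : V12 L) : False := by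
  have g0 : br (L (2, true)) (L (3, false)) (L (1, true)) < 0 := by
    have e : br (L (2, true)) (L (3, false)) (L (1, true)) = (br (L (1, true)) (L (2, true)) (L (3, false))) := by unfold br; ring
    have h := (ht.n3 1 2 3 true true false (by decide) (by decide) (by decide) h11)
    linarith
  have g1 : br (L (3, false)) (L (0, false)) (L (1, true)) < 0 := by
    have e : br (L (3, false)) (L (0, false)) (L (1, true)) = (br (L (0, false)) (L (1, true)) (L (3, false))) := by unfold br; ring
    have h := (ht.n3 0 1 3 false true false (by decide) (by decide) (by decide) h7)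
    linarith
  have g2 : br (L (0, false)) (L (2, true)) (L (1, true)) < 0 := by
    have e : br (L (0, false)) (L (2, true)) (L (1, true)) = -(br (L (0, false)) (L (1, true)) (L (2, true))) := by unfold br; ring
    have h := (ht.p3 0 1 2 false true true (by decide) (by decide) (by decide) h8)
    linarith
  have g3 : br (L (3, false)) (L (0, true)) (L (1, true)) < 0 := by
    have e : br (L (3, false)) (L (0, true)) (L (1, true)) = (br (L (0, true)) (L (1, true)) (L (3, false))) := by unfold br; ring
    have h := (ht.n3 0 1 3 true true false (by decide) (by decide) (by decide) h11)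
    linarith
  have g4 : br (L (0, true)) (L (2, true)) (L (1, true)) < 0 := by
    have e : br (L (0, true)) (L (2, true)) (L (1, true)) = -(br (L (0, true)) (L (1, true)) (L (2, true))) := by unfold br; ring
    have h := (ht.p3 0 1 2 true true true (by decide) (by decide) (by decide) h12)
    linarith
  exact hn.point (1, true) 2 3 0 true false (by decide) (by decide) (by decide) (by decide) (by decide) (by decide) (Or.inr ⟨g0, g1, g2, g3, g4⟩)

theorem tc_40 (L : Fin 12 × Bool → ℝ × ℝ) (hn : NoCert L) (ht : Tab L) (h7 : V7 L) (h8 : ¬ V8 L) (h11 : V11 L) (h12 : ¬ V12 L) : False := by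
  have g0 : 0 < br (L (2, true)) (L (3, false)) (L (1, true)) := by
    have e : br (L (2, true)) (L (3, false)) (L (1, true)) = (br (L (1, true)) (L (2, true)) (L (3, false))) := by unfold br; ring
    have h := (ht.p3 1 2 3 true true false (by decide) (by decide) (by decide) h11)
    linarith
  have g1 : 0 < br (L (3, false)) (L (0, false)) (L (1, true)) := by
    have e : br (L (3, false)) (L (0, false)) (L (1, true)) = (br (L (0, false)) (L (1, true)) (L (3, false))) := by unfold br; ring
    have h := (ht.p3 0 1 3 false true false (by decide) (by decide) (by decide) h7)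
    linarith
  have g2 : 0 < br (L (0, false)) (L (2, true)) (L (1, true)) := by
    have e : br (L (0, false)) (L (2, true)) (L (1, true)) = -(br (L (0, false)) (L (1, true)) (L (2, true))) := by unfold br; ring
    have h := (ht.n3 0 1 2 false true true (by decide) (by decide) (by decide) h8)
    linarith
  have g3 : 0 < br (L (3, false)) (L (0, true)) (L (1, true)) := by
    have e : br (L (3, false)) (L (0, true)) (L (1, true)) = (br (L (0, true)) (L (1, true)) (L (3, false))) := by unfold br; ring
    have h := (ht.p3 0 1 3 true true false (by decide) (by decide) (by decide) h11)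
    linarith
  have g4 : 0 < br (L (0, true)) (L (2, true)) (L (1, true)) := by
    have e : br (L (0, true)) (L (2, true)) (L (1, true)) = -(br (L (0, true)) (L (1, true)) (L (2, true))) := by unfold br; ring
    have h := (ht.n3 0 1 2 true true true (by decide) (by decide) (by decide) h12)
    linarith
  exact hn.point (1, true) 2 3 0 true false (by decide) (by decide) (by decide) (by decide) (by decide) (by decide) (Or.inl ⟨g0, g1, g2, g3, g4⟩)

theorem tc_41 (L : Fin 12 × Bool → ℝ × ℝ) (hn : NoCert L) (ht : Tab L) (h5 : ¬ V5 L) (h6 : ¬ V6 L) (h9 : V9 L) (h10 : V10 L) : False := by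
  have g0 : 0 < br (L (0, true)) (L (1, false)) (L (2, false)) := by
    have e : br (L (0, true)) (L (1, false)) (L (2, false)) = (br (L (0, true)) (L (1, false)) (L (2, false))) := by unfold br; ring
    have h := (ht.p3 0 1 2 true false false (by decide) (by decide) (by decide) h9)
    linarith
  have g1 : 0 < br (L (1, false)) (L (3, false)) (L (2, false)) := by
    have e : br (L (1, false)) (L (3, false)) (L (2, false)) = -(br (L (1, false)) (L (2, false)) (L (3, false))) := by unfold br; ring
    have h := (ht.n3 1 2 3 false false false (by decide) (by decide) (by decide) h5)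
    linarith
  have g2 : 0 < br (L (3, false)) (L (0, true)) (L (2, false)) := by
    have e : br (L (3, false)) (L (0, true)) (L (2, false)) = (br (L (0, true)) (L (2, false)) (L (3, false))) := by unfold br; ring
    have h := (ht.p3 0 2 3 true false false (by decide) (by decide) (by decide) h9)
    linarith
  have g3 : 0 < br (L (1, false)) (L (3, true)) (L (2, false)) := by
    have e : br (L (1, false)) (L (3, true)) (L (2, false)) = -(br (L (1, false)) (L (2, false)) (L (3, true))) := by unfold br; ring
    have h := (ht.n3 1 2 3 false false true (by decide) (by decide) (by decide) h6)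
    linarith
  have g4 : 0 < br (L (3, true)) (L (0, true)) (L (2, false)) := by
    have e : br (L (3, true)) (L (0, true)) (L (2, false)) = (br (L (0, true)) (L (2, false)) (L (3, true))) := by unfold br; ring
    have h := (ht.p3 0 2 3 true false true (by decide) (by decide) (by decide) h10)
    linarith
  exact hn.point (2, false) 0 1 3 true false (by decide) (by decide) (by decide) (by decide) (by decide) (by decide) (Or.inl ⟨g0, g1, g2, g3, g4⟩)

theorem tc_42 (L : Fin 12 × Bool → ℝ × ℝ) (hn : NoCert L) (ht : Tab L) (h5 : ¬ V5 L) (h6 : V6 L) (h9 : ¬ V9 L) (h10 : V10 L) : False := by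
  have g0 : 0 < br (L (2, false)) (L (3, true)) (L (1, false)) := by
    have e : br (L (2, false)) (L (3, true)) (L (1, false)) = (br (L (1, false)) (L (2, false)) (L (3, true))) := by unfold br; ring
    have h := (ht.p3 1 2 3 false false true (by decide) (by decide) (by decide) h6)
    linarith
  have g1 : 0 < br (L (3, true)) (L (0, false)) (L (1, false)) := by
    have e : br (L (3, true)) (L (0, false)) (L (1, false)) = (br (L (0, false)) (L (1, false)) (L (3, true))) := by unfold br; ring
    have h := (ht.p3 0 1 3 false false true (by decide) (by decide) (by decide) h6)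
    linarith
  have g2 : 0 < br (L (0, false)) (L (2, false)) (L (1, false)) := by
    have e : br (L (0, false)) (L (2, false)) (L (1, false)) = -(br (L (0, false)) (L (1, false)) (L (2, false))) := by unfold br; ring
    have h := (ht.n3 0 1 2 false false false (by decide) (by decide) (by decide) h5)
    linarith
  have g3 : 0 < br (L (3, true)) (L (0, true)) (L (1, false)) := by
    have e : br (L (3, true)) (L (0, true)) (L (1, false)) = (br (L (0, true)) (L (1, false)) (L (3, true))) := by unfold br; ring
    have h := (ht.p3 0 1 3 true false true (by decide) (by decide) (by decide) h10)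
    linarith
  have g4 : 0 < br (L (0, true)) (L (2, false)) (L (1, false)) := by
    have e : br (L (0, true)) (L (2, false)) (L (1, false)) = -(br (L (0, true)) (L (1, false)) (L (2, false))) := by unfold br; ring
    have h := (ht.n3 0 1 2 true false false (by decide) (by decide) (by decide) h9)
    linarith
  exact hn.point (1, false) 2 3 0 false true (by decide) (by decide) (by decide) (by decide) (by decide) (by decide) (Or.inl ⟨g0, g1, g2, g3, g4⟩)

theorem tc_43 (L : Fin 12 × Bool → ℝ × ℝ) (hn : NoCert L) (ht : Tab L) (h5 : V5 L) (h6 : ¬ V6 L) (h9 : V9 L) (h10 : ¬ V10 L) : False := by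
  have g0 : br (L (2, false)) (L (3, true)) (L (1, false)) < 0 := by
    have e : br (L (2, false)) (L (3, true)) (L (1, false)) = (br (L (1, false)) (L (2, false)) (L (3, true))) := by unfold br; ring
    have h := (ht.n3 1 2 3 false false true (by decide) (by decide) (by decide) h6)
    linarith
  have g1 : br (L (3, true)) (L (0, false)) (L (1, false)) < 0 := by
    have e : br (L (3, true)) (L (0, false)) (L (1, false)) = (br (L (0, false)) (L (1, false)) (L (3, true))) := by unfold br; ring
    have h := (ht.n3 0 1 3 false false true (by decide) (by decide) (by decide) h6)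
    linarith
  have g2 : br (L (0, false)) (L (2, false)) (L (1, false)) < 0 := by
    have e : br (L (0, false)) (L (2, false)) (L (1, false)) = -(br (L (0, false)) (L (1, false)) (L (2, false))) := by unfold br; ring
    have h := (ht.p3 0 1 2 false false false (by decide) (by decide) (by decide) h5)
    linarith
  have g3 : br (L (3, true)) (L (0, true)) (L (1, false)) < 0 := by
    have e : br (L (3, true)) (L (0, true)) (L (1, false)) = (br (L (0, true)) (L (1, false)) (L (3, true))) := by unfold br; ring
    have h := (ht.n3 0 1 3 true false true (by decide) (by decide) (by decide) h10)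
    linarith
  have g4 : br (L (0, true)) (L (2, false)) (L (1, false)) < 0 := by
    have e : br (L (0, true)) (L (2, false)) (L (1, false)) = -(br (L (0, true)) (L (1, false)) (L (2, false))) := by unfold br; ring
    have h := (ht.p3 0 1 2 true false false (by decide) (by decide) (by decide) h9)
    linarith
  exact hn.point (1, false) 2 3 0 false true (by decide) (by decide) (by decide) (by decide) (by decide) (by decide) (Or.inr ⟨g0, g1, g2, g3, g4⟩)

theorem tc_44 (L : Fin 12 × Bool → ℝ × ℝ) (hn : NoCert L) (ht : Tab L) (h7 : V7 L) (h8 : V8 L) (h11 : ¬ V11 L) (h12 : ¬ V12 L) : False := by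
  have g0 : 0 < br (L (0, false)) (L (1, true)) (L (2, true)) := by
    have e : br (L (0, false)) (L (1, true)) (L (2, true)) = (br (L (0, false)) (L (1, true)) (L (2, true))) := by unfold br; ring
    have h := (ht.p3 0 1 2 false true true (by decide) (by decide) (by decide) h8)
    linarith
  have g1 : 0 < br (L (1, true)) (L (3, false)) (L (2, true)) := by
    have e : br (L (1, true)) (L (3, false)) (L (2, true)) = -(br (L (1, true)) (L (2, true)) (L (3, false))) := by unfold br; ring
    have h := (ht.n3 1 2 3 true true false (by decide) (by decide) (by decide) h11)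
    linarith
  have g2 : 0 < br (L (3, false)) (L (0, false)) (L (2, true)) := by
    have e : br (L (3, false)) (L (0, false)) (L (2, true)) = (br (L (0, false)) (L (2, true)) (L (3, false))) := by unfold br; ring
    have h := (ht.p3 0 2 3 false true false (by decide) (by decide) (by decide) h7)
    linarith
  have g3 : 0 < br (L (1, true)) (L (3, true)) (L (2, true)) := by
    have e : br (L (1, true)) (L (3, true)) (L (2, true)) = -(br (L (1, true)) (L (2, true)) (L (3, true))) := by unfold br; ring
    have h := (ht.n3 1 2 3 true true true (by decide) (by decide) (by decide) h12)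
    linarith
  have g4 : 0 < br (L (3, true)) (L (0, false)) (L (2, true)) := by
    have e : br (L (3, true)) (L (0, false)) (L (2, true)) = (br (L (0, false)) (L (2, true)) (L (3, true))) := by unfold br; ring
    have h := (ht.p3 0 2 3 false true true (by decide) (by decide) (by decide) h8)
    linarith
  exact hn.point (2, true) 0 1 3 false true (by decide) (by decide) (by decide) (by decide) (by decide) (by decide) (Or.inl ⟨g0, g1, g2, g3, g4⟩)

theorem tc_45 (L : Fin 12 × Bool → ℝ × ℝ) (hn : NoCert L) (ht : Tab L) (h5 : V5 L) (h6 : V6 L) (h9 : ¬ V9 L) (h10 : ¬ V10 L) : False := by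
  have g0 : br (L (0, true)) (L (1, false)) (L (2, false)) < 0 := by
    have e : br (L (0, true)) (L (1, false)) (L (2, false)) = (br (L (0, true)) (L (1, false)) (L (2, false))) := by unfold br; ring
    have h := (ht.n3 0 1 2 true false false (by decide) (by decide) (by decide) h9)
    linarith
  have g1 : br (L (1, false)) (L (3, false)) (L (2, false)) < 0 := by
    have e : br (L (1, false)) (L (3, false)) (L (2, false)) = -(br (L (1, false)) (L (2, false)) (L (3, false))) := by unfold br; ring
    have h := (ht.p3 1 2 3 false false false (by decide) (by decide) (by decide) h5)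
    linarith
  have g2 : br (L (3, false)) (L (0, true)) (L (2, false)) < 0 := by
    have e : br (L (3, false)) (L (0, true)) (L (2, false)) = (br (L (0, true)) (L (2, false)) (L (3, false))) := by unfold br; ring
    have h := (ht.n3 0 2 3 true false false (by decide) (by decide) (by decide) h9)
    linarith
  have g3 : br (L (1, false)) (L (3, true)) (L (2, false)) < 0 := by
    have e : br (L (1, false)) (L (3, true)) (L (2, false)) = -(br (L (1, false)) (L (2, false)) (L (3, true))) := by unfold br; ring
    have h := (ht.p3 1 2 3 false false true (by decide) (by decide) (by decide) h6)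
    linarith
  have g4 : br (L (3, true)) (L (0, true)) (L (2, false)) < 0 := by
    have e : br (L (3, true)) (L (0, true)) (L (2, false)) = (br (L (0, true)) (L (2, false)) (L (3, true))) := by unfold br; ring
    have h := (ht.n3 0 2 3 true false true (by decide) (by decide) (by decide) h10)
    linarith
  exact hn.point (2, false) 0 1 3 true false (by decide) (by decide) (by decide) (by decide) (by decide) (by decide) (Or.inr ⟨g0, g1, g2, g3, g4⟩)

theorem tc_46 (L : Fin 12 × Bool → ℝ × ℝ) (hn : NoCert L) (ht : Tab L) (h8 : V8 L) (h10 : V10 L) (h12 : V12 L) : False := by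
  have g0 : 0 < br (L (1, true)) (L (3, true)) (L (0, false)) := by
    have e : br (L (1, true)) (L (3, true)) (L (0, false)) = (br (L (0, false)) (L (1, true)) (L (3, true))) := by unfold br; ring
    have h := (ht.p3 0 1 3 false true true (by decide) (by decide) (by decide) h8)
    linarith
  have g1 : 0 < br (L (1, true)) (L (3, true)) (L (0, true)) := by
    have e : br (L (1, true)) (L (3, true)) (L (0, true)) = (br (L (0, true)) (L (1, true)) (L (3, true))) := by unfold br; ring
    have h := (ht.p3 0 1 3 true true true (by decide) (by decide) (by decide) h12)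
    linarith
  have g2 : br (L (1, true)) (L (3, true)) (L (2, false)) < 0 := by
    have e : br (L (1, true)) (L (3, true)) (L (2, false)) = -(br (L (1, true)) (L (2, false)) (L (3, true))) := by unfold br; ring
    have h := (ht.p3 1 2 3 true false true (by decide) (by decide) (by decide) h10)
    linarith
  have g3 : br (L (1, true)) (L (3, true)) (L (2, true)) < 0 := by
    have e : br (L (1, true)) (L (3, true)) (L (2, true)) = -(br (L (1, true)) (L (2, true)) (L (3, true))) := by unfold br; ring
    have h := (ht.p3 1 2 3 true true true (by decide) (by decide) (by decide) h12)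
    linarith
  exact hn.line (1, true) (3, true) 0 2 (by decide) (by decide) (by decide) (by decide) (by decide) (by decide) ⟨g0, g1, g2, g3⟩

theorem tc_47 (L : Fin 12 × Bool → ℝ × ℝ) (hn : NoCert L) (ht : Tab L) (h9 : V9 L) (h10 : V10 L) (h11 : V11 L) : False := by
  have g0 : 0 < br (L (0, true)) (L (2, false)) (L (3, false)) := by
    have e : br (L (0, true)) (L (2, false)) (L (3, false)) = (br (L (0, true)) (L (2, false)) (L (3, false))) := by unfold br; ring
    have h := (ht.p3 0 2 3 true false false (by decide) (by decide) (by decide) h9)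
    linarith
  have g1 : 0 < br (L (0, true)) (L (2, false)) (L (3, true)) := by
    have e : br (L (0, true)) (L (2, false)) (L (3, true)) = (br (L (0, true)) (L (2, false)) (L (3, true))) := by unfold br; ring
    have h := (ht.p3 0 2 3 true false true (by decide) (by decide) (by decide) h10)
    linarith
  have g2 : br (L (0, true)) (L (2, false)) (L (1, false)) < 0 := by
    have e : br (L (0, true)) (L (2, false)) (L (1, false)) = -(br (L (0, true)) (L (1, false)) (L (2, false))) := by unfold br; ring
    have h := (ht.p3 0 1 2 true false false (by decide) (by decide) (by decide) h9)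
    linarith
  have g3 : br (L (0, true)) (L (2, false)) (L (1, true)) < 0 := by
    have e : br (L (0, true)) (L (2, false)) (L (1, true)) = -(br (L (0, true)) (L (1, true)) (L (2, false))) := by unfold br; ring
    have h := (ht.p3 0 1 2 true true false (by decide) (by decide) (by decide) h11)
    linarith
  exact hn.line (0, true) (2, false) 3 1 (by decide) (by decide) (by decide) (by decide) (by decide) (by decide) ⟨g0, g1, g2, g3⟩

theorem tc_48 (L : Fin 12 × Bool → ℝ × ℝ) (hn : NoCert L) (ht : Tab L) (h6 : V6 L) (h8 : V8 L) (h10 : V10 L) : False := by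
  have g0 : 0 < br (L (1, false)) (L (3, true)) (L (0, false)) := by
    have e : br (L (1, false)) (L (3, true)) (L (0, false)) = (br (L (0, false)) (L (1, false)) (L (3, true))) := by unfold br; ring
    have h := (ht.p3 0 1 3 false false true (by decide) (by decide) (by decide) h6)
    linarith
  have g1 : 0 < br (L (1, false)) (L (3, true)) (L (0, true)) := by
    have e : br (L (1, false)) (L (3, true)) (L (0, true)) = (br (L (0, true)) (L (1, false)) (L (3, true))) := by unfold br; ring
    have h := (ht.p3 0 1 3 true false true (by decide) (by decide) (by decide) h10)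
    linarith
  have g2 : br (L (1, false)) (L (3, true)) (L (2, false)) < 0 := by
    have e : br (L (1, false)) (L (3, true)) (L (2, false)) = -(br (L (1, false)) (L (2, false)) (L (3, true))) := by unfold br; ring
    have h := (ht.p3 1 2 3 false false true (by decide) (by decide) (by decide) h6)
    linarith
  have g3 : br (L (1, false)) (L (3, true)) (L (2, true)) < 0 := by
    have e : br (L (1, false)) (L (3, true)) (L (2, true)) = -(br (L (1, false)) (L (2, true)) (L (3, true))) := by unfold br; ring
    have h := (ht.p3 1 2 3 false true true (by decide) (by decide) (by decide) h8)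
    linarith
  exact hn.line (1, false) (3, true) 0 2 (by decide) (by decide) (by decide) (by decide) (by decide) (by decide) ⟨g0, g1, g2, g3⟩

theorem tc_49 (L : Fin 12 × Bool → ℝ × ℝ) (hn : NoCert L) (ht : Tab L) (h5 : V5 L) (h7 : V7 L) (h9 : V9 L) : False := by
  have g0 : 0 < br (L (1, false)) (L (3, false)) (L (0, false)) := by
    have e : br (L (1, false)) (L (3, false)) (L (0, false)) = (br (L (0, false)) (L (1, false)) (L (3, false))) := by unfold br; ring
    have h := (ht.p3 0 1 3 false false false (by decide) (by decide) (by decide) h5)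
    linarith
  have g1 : 0 < br (L (1, false)) (L (3, false)) (L (0, true)) := by
    have e : br (L (1, false)) (L (3, false)) (L (0, true)) = (br (L (0, true)) (L (1, false)) (L (3, false))) := by unfold br; ring
    have h := (ht.p3 0 1 3 true false false (by decide) (by decide) (by decide) h9)
    linarith
  have g2 : br (L (1, false)) (L (3, false)) (L (2, false)) < 0 := by
    have e : br (L (1, false)) (L (3, false)) (L (2, false)) = -(br (L (1, false)) (L (2, false)) (L (3, false))) := by unfold br; ring
    have h := (ht.p3 1 2 3 false false false (by decide) (by decide) (by decide) h5)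
    linarith
  have g3 : br (L (1, false)) (L (3, false)) (L (2, true)) < 0 := by
    have e : br (L (1, false)) (L (3, false)) (L (2, true)) = -(br (L (1, false)) (L (2, true)) (L (3, false))) := by unfold br; ring
    have h := (ht.p3 1 2 3 false true false (by decide) (by decide) (by decide) h7)
    linarith
  exact hn.line (1, false) (3, false) 0 2 (by decide) (by decide) (by decide) (by decide) (by decide) (by decide) ⟨g0, g1, g2, g3⟩

theorem tc_50 (L : Fin 12 × Bool → ℝ × ℝ) (hn : NoCert L) (ht : Tab L) (h6 : V6 L) (h7 : V7 L) (h8 : V8 L) : False := by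
  have g0 : 0 < br (L (0, false)) (L (2, true)) (L (3, false)) := by
    have e : br (L (0, false)) (L (2, true)) (L (3, false)) = (br (L (0, false)) (L (2, true)) (L (3, false))) := by unfold br; ring
    have h := (ht.p3 0 2 3 false true false (by decide) (by decide) (by decide) h7)
    linarith
  have g1 : 0 < br (L (0, false)) (L (2, true)) (L (3, true)) := by
    have e : br (L (0, false)) (L (2, true)) (L (3, true)) = (br (L (0, false)) (L (2, true)) (L (3, true))) := by unfold br; ring
    have h := (ht.p3 0 2 3 false true true (by decide) (by decide) (by decide) h8)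
    linarith
  have g2 : br (L (0, false)) (L (2, true)) (L (1, false)) < 0 := by
    have e : br (L (0, false)) (L (2, true)) (L (1, false)) = -(br (L (0, false)) (L (1, false)) (L (2, true))) := by unfold br; ring
    have h := (ht.p3 0 1 2 false false true (by decide) (by decide) (by decide) h6)
    linarith
  have g3 : br (L (0, false)) (L (2, true)) (L (1, true)) < 0 := by
    have e : br (L (0, false)) (L (2, true)) (L (1, true)) = -(br (L (0, false)) (L (1, true)) (L (2, true))) := by unfold br; ring
    have h := (ht.p3 0 1 2 false true true (by decide) (by decide) (by decide) h8)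
    linarith
  exact hn.line (0, false) (2, true) 3 1 (by decide) (by decide) (by decide) (by decide) (by decide) (by decide) ⟨g0, g1, g2, g3⟩

theorem tc_51 (L : Fin 12 × Bool → ℝ × ℝ) (hn : NoCert L) (ht : Tab L) (h5 : ¬ V5 L) (h7 : ¬ V7 L) (h9 : ¬ V9 L) : False := by
  have g0 : 0 < br (L (1, false)) (L (3, false)) (L (2, false)) := by
    have e : br (L (1, false)) (L (3, false)) (L (2, false)) = -(br (L (1, false)) (L (2, false)) (L (3, false))) := by unfold br; ring
    have h := (ht.n3 1 2 3 false false false (by decide) (by decide) (by decide) h5)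
    linarith
  have g1 : 0 < br (L (1, false)) (L (3, false)) (L (2, true)) := by
    have e : br (L (1, false)) (L (3, false)) (L (2, true)) = -(br (L (1, false)) (L (2, true)) (L (3, false))) := by unfold br; ring
    have h := (ht.n3 1 2 3 false true false (by decide) (by decide) (by decide) h7)
    linarith
  have g2 : br (L (1, false)) (L (3, false)) (L (0, false)) < 0 := by
    have e : br (L (1, false)) (L (3, false)) (L (0, false)) = (br (L (0, false)) (L (1, false)) (L (3, false))) := by unfold br; ring
    have h := (ht.n3 0 1 3 false false false (by decide) (by decide) (by decide) h5)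
    linarith
  have g3 : br (L (1, false)) (L (3, false)) (L (0, true)) < 0 := by
    have e : br (L (1, false)) (L (3, false)) (L (0, true)) = (br (L (0, true)) (L (1, false)) (L (3, false))) := by unfold br; ring
    have h := (ht.n3 0 1 3 true false false (by decide) (by decide) (by decide) h9)
    linarith
  exact hn.line (1, false) (3, false) 2 0 (by decide) (by decide) (by decide) (by decide) (by decide) (by decide) ⟨g0, g1, g2, g3⟩

theorem tc_52 (L : Fin 12 × Bool → ℝ × ℝ) (hn : NoCert L) (ht : Tab L) (h6 : ¬ V6 L) (h7 : ¬ V7 L) (h8 : ¬ V8 L) : False := by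
  have g0 : 0 < br (L (0, false)) (L (2, true)) (L (1, false)) := by
    have e : br (L (0, false)) (L (2, true)) (L (1, false)) = -(br (L (0, false)) (L (1, false)) (L (2, true))) := by unfold br; ring
    have h := (ht.n3 0 1 2 false false true (by decide) (by decide) (by decide) h6)
    linarith
  have g1 : 0 < br (L (0, false)) (L (2, true)) (L (1, true)) := by
    have e : br (L (0, false)) (L (2, true)) (L (1, true)) = -(br (L (0, false)) (L (1, true)) (L (2, true))) := by unfold br; ring
    have h := (ht.n3 0 1 2 false true true (by decide) (by decide) (by decide) h8)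
    linarith
  have g2 : br (L (0, false)) (L (2, true)) (L (3, false)) < 0 := by
    have e : br (L (0, false)) (L (2, true)) (L (3, false)) = (br (L (0, false)) (L (2, true)) (L (3, false))) := by unfold br; ring
    have h := (ht.n3 0 2 3 false true false (by decide) (by decide) (by decide) h7)
    linarith
  have g3 : br (L (0, false)) (L (2, true)) (L (3, true)) < 0 := by
    have e : br (L (0, false)) (L (2, true)) (L (3, true)) = (br (L (0, false)) (L (2, true)) (L (3, true))) := by unfold br; ring
    have h := (ht.n3 0 2 3 false true true (by decide) (by decide) (by decide) h8)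
    linarith
  exact hn.line (0, false) (2, true) 1 3 (by decide) (by decide) (by decide) (by decide) (by decide) (by decide) ⟨g0, g1, g2, g3⟩

theorem tc_53 (L : Fin 12 × Bool → ℝ × ℝ) (hn : NoCert L) (ht : Tab L) (h7 : ¬ V7 L) (h9 : ¬ V9 L) (h11 : ¬ V11 L) : False := by
  have g0 : 0 < br (L (1, true)) (L (3, false)) (L (2, false)) := by
    have e : br (L (1, true)) (L (3, false)) (L (2, false)) = -(br (L (1, true)) (L (2, false)) (L (3, false))) := by unfold br; ring
    have h := (ht.n3 1 2 3 true false false (by decide) (by decide) (by decide) h9)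
    linarith
  have g1 : 0 < br (L (1, true)) (L (3, false)) (L (2, true)) := by
    have e : br (L (1, true)) (L (3, false)) (L (2, true)) = -(br (L (1, true)) (L (2, true)) (L (3, false))) := by unfold br; ring
    have h := (ht.n3 1 2 3 true true false (by decide) (by decide) (by decide) h11)
    linarith
  have g2 : br (L (1, true)) (L (3, false)) (L (0, false)) < 0 := by
    have e : br (L (1, true)) (L (3, false)) (L (0, false)) = (br (L (0, false)) (L (1, true)) (L (3, false))) := by unfold br; ring
    have h := (ht.n3 0 1 3 false true false (by decide) (by decide) (by decide) h7)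
    linarith
  have g3 : br (L (1, true)) (L (3, false)) (L (0, true)) < 0 := by
    have e : br (L (1, true)) (L (3, false)) (L (0, true)) = (br (L (0, true)) (L (1, true)) (L (3, false))) := by unfold br; ring
    have h := (ht.n3 0 1 3 true true false (by decide) (by decide) (by decide) h11)
    linarith
  exact hn.line (1, true) (3, false) 2 0 (by decide) (by decide) (by decide) (by decide) (by decide) (by decide) ⟨g0, g1, g2, g3⟩

theorem tc_54 (L : Fin 12 × Bool → ℝ × ℝ) (hn : NoCert L) (ht : Tab L) (h8 : ¬ V8 L) (h10 : ¬ V10 L) (h12 : ¬ V12 L) : False := by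
  have g0 : 0 < br (L (1, true)) (L (3, true)) (L (2, false)) := by
    have e : br (L (1, true)) (L (3, true)) (L (2, false)) = -(br (L (1, true)) (L (2, false)) (L (3, true))) := by unfold br; ring
    have h := (ht.n3 1 2 3 true false true (by decide) (by decide) (by decide) h10)
    linarith
  have g1 : 0 < br (L (1, true)) (L (3, true)) (L (2, true)) := by
    have e : br (L (1, true)) (L (3, true)) (L (2, true)) = -(br (L (1, true)) (L (2, true)) (L (3, true))) := by unfold br; ring
    have h := (ht.n3 1 2 3 true true true (by decide) (by decide) (by decide) h12)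
    linarith
  have g2 : br (L (1, true)) (L (3, true)) (L (0, false)) < 0 := by
    have e : br (L (1, true)) (L (3, true)) (L (0, false)) = (br (L (0, false)) (L (1, true)) (L (3, true))) := by unfold br; ring
    have h := (ht.n3 0 1 3 false true true (by decide) (by decide) (by decide) h8)
    linarith
  have g3 : br (L (1, true)) (L (3, true)) (L (0, true)) < 0 := by
    have e : br (L (1, true)) (L (3, true)) (L (0, true)) = (br (L (0, true)) (L (1, true)) (L (3, true))) := by unfold br; ring
    have h := (ht.n3 0 1 3 true true true (by decide) (by decide) (by decide) h12)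
    linarith
  exact hn.line (1, true) (3, true) 2 0 (by decide) (by decide) (by decide) (by decide) (by decide) (by decide) ⟨g0, g1, g2, g3⟩

theorem tc_55 (L : Fin 12 × Bool → ℝ × ℝ) (hn : NoCert L) (ht : Tab L) (h7 : ¬ V7 L) (h9 : V9 L) (h10 : V10 L) (h11 : ¬ V11 L) : False := by
  have g0 : 0 < br (L (1, true)) (L (2, false)) (L (3, false)) := by
    have e : br (L (1, true)) (L (2, false)) (L (3, false)) = (br (L (1, true)) (L (2, false)) (L (3, false))) := by unfold br; ring
    have h := (ht.p3 1 2 3 true false false (by decide) (by decide) (by decide) h9)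
    linarith
  have g1 : 0 < br (L (1, true)) (L (2, false)) (L (3, true)) := by
    have e : br (L (1, true)) (L (2, false)) (L (3, true)) = (br (L (1, true)) (L (2, false)) (L (3, true))) := by unfold br; ring
    have h := (ht.p3 1 2 3 true false true (by decide) (by decide) (by decide) h10)
    linarith
  have g2 : br (L (1, true)) (L (2, false)) (L (0, false)) < 0 := by
    have e : br (L (1, true)) (L (2, false)) (L (0, false)) = (br (L (0, false)) (L (1, true)) (L (2, false))) := by unfold br; ring
    have h := (ht.n3 0 1 2 false true false (by decide) (by decide) (by decide) h7)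
    linarith
  have g3 : br (L (1, true)) (L (2, false)) (L (0, true)) < 0 := by
    have e : br (L (1, true)) (L (2, false)) (L (0, true)) = (br (L (0, true)) (L (1, true)) (L (2, false))) := by unfold br; ring
    have h := (ht.n3 0 1 2 true true false (by decide) (by decide) (by decide) h11)
    linarith
  exact hn.line (1, true) (2, false) 3 0 (by decide) (by decide) (by decide) (by decide) (by decide) (by decide) ⟨g0, g1, g2, g3⟩

theorem tc_56 (L : Fin 12 × Bool → ℝ × ℝ) (hn : NoCert L) (ht : Tab L) (h1 : V1 L) (h2 : V2 L) (h3 : ¬ V3 L) (h4 : ¬ V4 L) : False := by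
  have g0 : 0 < br (L (1, false)) (L (1, true)) (L (2, false)) := by
    have e : br (L (1, false)) (L (1, true)) (L (2, false)) = (br (L (1, false)) (L (1, true)) (L (2, false))) := by unfold br; ring
    have h := (ht.p2a 1 2 false (by decide) (by decide) h1)
    linarith
  have g1 : 0 < br (L (1, false)) (L (1, true)) (L (2, true)) := by
    have e : br (L (1, false)) (L (1, true)) (L (2, true)) = (br (L (1, false)) (L (1, true)) (L (2, true))) := by unfold br; ring
    have h := (ht.p2a 1 2 true (by decide) (by decide) h2)
    linarith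
  have g2 : br (L (1, false)) (L (1, true)) (L (0, false)) < 0 := by
    have e : br (L (1, false)) (L (1, true)) (L (0, false)) = (br (L (0, false)) (L (1, false)) (L (1, true))) := by unfold br; ring
    have h := (ht.n2b 0 1 false (by decide) (by decide) h3)
    linarith
  have g3 : br (L (1, false)) (L (1, true)) (L (0, true)) < 0 := by
    have e : br (L (1, false)) (L (1, true)) (L (0, true)) = (br (L (0, true)) (L (1, false)) (L (1, true))) := by unfold br; ring
    have h := (ht.n2b 0 1 true (by decide) (by decide) h4)
    linarith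
  exact hn.line (1, false) (1, true) 2 0 (by decide) (by decide) (by decide) (by decide) (by decide) (by decide) ⟨g0, g1, g2, g3⟩

theorem prop12 : ∀ b1 b2 b3 b4 b5 b6 b7 b8 b9 b10 b11 b12 : Bool,
    ((!b12 || !b4 || b2 || b10) &&
      (!b11 || !b1 || b2 || b7) &&
      (!b10 || !b2 || b1 || b6) &&
      (!b9 || !b4 || b3 || b10) &&
      (!b7 || !b3 || b1 || b5) &&
      (!b7 || !b3 || b4 || b8) &&
      (!b12 || !b11 || !b10 || b9) &&
      (!b12 || !b8 || b2 || b10) &&
      (!b11 || !b9 || !b4 || b10) &&
      (!b11 || !b9 || !b1 || b7) &&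
      (!b10 || !b2 || b8 || b12) &&
      (!b10 || b4 || b9 || b11) &&
      (!b9 || b10 || b11 || b12) &&
      (!b8 || b5 || b6 || b7) &&
      (!b7 || !b5 || !b3 || b6) &&
      (!b7 || !b5 || !b3 || b8) &&
      (!b7 || !b3 || b5 || b6) &&
      (!b7 || b1 || b9 || b11) &&
      (!b6 || !b5 || b3 || b8) &&
      (!b6 || b2 || b10 || b12) &&
      (!b12 || !b4 || !b2 || !b1 || b11) &&
      (!b12 || b2 || b3 || b4 || b8) &&
      (!b12 || b4 || b7 || b8 || b11) &&
      (!b11 || !b10 || !b6 || b1 || b9) &&
      (!b11 || !b8 || !b7 || !b4 || b9) &&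
      (!b11 || !b4 || !b2 || !b1 || b9) &&
      (!b11 || b1 || b3 || b4 || b9) &&
      (!b10 || !b9 || !b6 || b3 || b8) &&
      (!b9 || !b4 || !b3 || !b1 || b11) &&
      (!b9 || b1 || b3 || b4 || b5) &&
      (!b8 || !b6 || !b2 || b1 || b3) &&
      (!b8 || !b3 || b1 || b2 || b6) &&
      (!b8 || !b3 || b6 || b9 || b10) &&
      (!b8 || !b2 || !b1 || b6 || b7) &&
      (!b8 || b2 || b3 || b4 || b6) &&
      (!b6 || !b4 || !b3 || !b2 || b8) &&
      (!b5 || b1 || b2 || b3 || b6) &&
      (!b4 || !b2 || b1 || b9 || b10) &&
      (!b12 || !b11 || b7 || b8) &&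
      (!b12 || !b8 || b7 || b11) &&
      (!b11 || !b7 || b8 || b12) &&
      (!b10 || !b9 || b5 || b6) &&
      (!b10 || !b6 || b5 || b9) &&
      (!b9 || !b5 || b6 || b10) &&
      (!b8 || !b7 || b11 || b12) &&
      (!b6 || !b5 || b9 || b10) &&
      (!b12 || !b10 || !b8) &&
      (!b11 || !b10 || !b9) &&
      (!b10 || !b8 || !b6) &&
      (!b9 || !b7 || !b5) &&
      (!b8 || !b7 || !b6) &&
      (b5 || b7 || b9) &&
      (b6 || b7 || b8) &&
      (b7 || b9 || b11) &&
      (b8 || b10 || b12) &&
      (!b10 || !b9 || b7 || b11) &&
      (!b2 || !b1 || b3 || b4)) = true →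
    ((!b1 && b2 && b3 && !b4 && b6 && !b7 && b8 && b9 && !b10 && b11) ||
     (b1 && !b2 && !b3 && b4 && !b6 && b7 && !b8 && !b9 && b10 && !b11)) = true := by
  decide

end Pool.KN
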